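import Pool.Agent.R283.FT.Op

/-!
# Membership in the Toeplitz algebra
-/

set_option autoImplicit false

open MeasureTheory Complex Set Metric Filter Topology
open scoped ComplexConjugate ENNReal InnerProductSpace

namespace Pool.Agent.R283.FT

noncomputable section

section gen

variable {E : Type*} [NormedAddCommGroup E] [InnerProductSpace ℂ E] [CompleteSpace E]
  {X : Set (E →L[ℂ] E)}

lemma subset_cstarGen {T : E →L[ℂ] E} (h : T ∈ X) : T ∈ cstarGen X := by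
  refine StarSubalgebra.le_topologicalClosure _ ?_
  exact StarAlgebra.subset_adjoin ℂ _ h

lemma isClosed_cstarGen : IsClosed (cstarGen X : Set (E →L[ℂ] E)) :=
  StarSubalgebra.isClosed_topologicalClosure _

lemma cstarGen_of_approx {A : E →L[ℂ] E} (h : ∀ ε > 0, ∃ B ∈ cstarGen X, ‖A - B‖ < ε) :
    A ∈ cstarGen X := by
  have hcl := isClosed_cstarGen (X := X)
  rw [← SetLike.mem_coe, ← hcl.closure_eq, Metric.mem_closure_iff]
  intro ε hε
  obtain ⟨B, hB, hB2⟩ := h ε hε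
  exact ⟨B, hB, by rwa [dist_eq_norm]⟩

lemma comp_mem_cstarGen {A B : E →L[ℂ] E} (hA : A ∈ cstarGen X) (hB : B ∈ cstarGen X) :
    A ∘L B ∈ cstarGen X := mul_mem hA hB

lemma sum_mem_cstarGen {ι : Type*} (s : Finset ι) (A : ι → E →L[ℂ] E) (c : ι → ℂ)
    (hA : ∀ i, A i ∈ cstarGen X) : ∑ i ∈ s, c i • A i ∈ cstarGen X :=
  sum_mem fun i _ => SMulMemClass.smul_mem _ (hA i)

lemma smul_mem_cstarGen {A : E →L[ℂ] E} (hA : A ∈ cstarGen X) (c : ℂ) : c • A ∈ cstarGen X :=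
  SMulMemClass.smul_mem _ hA

end gen

/-- `F` is a closed subspace with translation covariant kernel built from `K₀`. -/
structure Ker (F : Submodule ℂ H) (K₀ : ℂ → ℂ) : Prop where
  mild : Mild K₀
  symm : ∀ w, K₀ (-w) = conj (K₀ w)
  nz : ∀ᵐ w : ℂ, K₀ w ≠ 0
  mem : ∀ z : ℂ, ∃ k ∈ F, (k : ℂ → ℂ) =ᵐ[γ] fun w => K₀ (w - z) * Complex.exp (w * conj z)
  rep : ∀ f ∈ F, ∀ᵐ z ∂γ, (f : ℂ → ℂ) z =
    ∫ w, conj (K₀ (w - z) * Complex.exp (w * conj z)) * (f : ℂ → ℂ) w ∂γ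

/-- a bounded measurable function as an element of `L^∞` -/
def sy (Φ : ℂ → ℂ) (hΦ : Measurable Φ) {M : ℝ} (hM : ∀ z, ‖Φ z‖ ≤ M) : Lp ℂ ∞ γ :=
  (memLp_top_of_bound (μ := γ) hΦ.aestronglyMeasurable M (Eventually.of_forall hM)).toLp Φ

lemma mulOp_coe (f : Lp ℂ ∞ γ) (h : H) :
    (mulOp f h : ℂ → ℂ) =ᵐ[γ] fun w => f w * h w := by
  exact ContinuousLinearMap.coeFn_holder (ContinuousLinearMap.mul ℂ ℂ) f h

lemma mulOp_sy {Φ : ℂ → ℂ} (hΦ : Measurable Φ) {M : ℝ} (hM : ∀ z, ‖Φ z‖ ≤ M) (h : H) :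
    (mulOp (sy Φ hΦ hM) h : ℂ → ℂ) =ᵐ[γ] fun w => Φ w * h w := by
  filter_upwards [mulOp_coe (sy Φ hΦ hM) h, MemLp.coeFn_toLp (memLp_top_of_bound (μ := γ)
    hΦ.aestronglyMeasurable M (Eventually.of_forall hM))] with w h1 h2
  rw [h1]
  congr 1

lemma inner_H (x y : H) : ⟪x, y⟫_ℂ = ∫ w, conj (x w) * y w ∂γ := by
  rw [L2.inner_def]
  refine integral_congr_ae (Eventually.of_forall fun w => ?_)
  simp [RCLike.inner_apply, mul_comm]

section

variable (F : Submodule ℂ H) [F.HasOrthogonalProjection]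

/-- compression to `F` -/
def cmp (S : H →L[ℂ] H) : F →L[ℂ] F := F.orthogonalProjectionOnto ∘L S ∘L F.subtypeL

lemma inner_cmp (S : H →L[ℂ] H) (g f : F) : ⟪g, cmp F S f⟫_ℂ = ⟪(g : H), S (f : H)⟫_ℂ := by
  unfold cmp
  exact Submodule.inner_orthogonalProjectionOnto_eq_of_mem_left g (S (f : H))

lemma toeplitz_eq (f : Lp ℂ ∞ γ) : toeplitz F f = cmp F (mulOp f) := rfl

lemma norm_cmp_le (S : H →L[ℂ] H) : ‖cmp F S‖ ≤ ‖S‖ := by
  refine ContinuousLinearMap.opNorm_le_bound _ (norm_nonneg _) fun f => ?_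
  have h1 : ‖cmp F S f‖ ≤ ‖S (f : H)‖ := by
    unfold cmp
    exact Submodule.norm_orthogonalProjectionOnto_apply_le F _
  exact h1.trans (S.le_opNorm _)

lemma cmp_ext {A B : F →L[ℂ] F} (h : ∀ g f : F, ⟪g, A f⟫_ℂ = ⟪g, B f⟫_ℂ) : A = B := by
  ext1 f
  exact ext_inner_left ℂ fun g => h g f

variable {F} {K₀ : ℂ → ℂ}

/-- pointwise formula for the projection -/
lemma Ker.proj (hK : Ker F K₀) (h : H) :
    ∀ᵐ w ∂γ, (F.orthogonalProjectionOnto h : H) w =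
      ∫ z, K₀ (w - z) * Complex.exp (w * conj z) * h z ∂γ := by
  filter_upwards [hK.rep _ (F.orthogonalProjectionOnto h).2] with w hw
  obtain ⟨k, hk, hk2⟩ := hK.mem w
  have h1 : ⟪(⟨k, hk⟩ : F), F.orthogonalProjectionOnto h⟫_ℂ = ⟪k, h⟫_ℂ :=
    Submodule.inner_orthogonalProjectionOnto_eq_of_mem_left (⟨k, hk⟩ : F) h
  rw [Submodule.coe_inner, inner_H, inner_H] at h1
  rw [hw]
  have h2 : ∫ x, conj (k x) * ((F.orthogonalProjectionOnto h : F) : H) x ∂γ =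
      ∫ x, conj (K₀ (x - w) * Complex.exp (x * conj w)) *
        ((F.orthogonalProjectionOnto h : F) : H) x ∂γ := by
    refine integral_congr_ae ?_
    filter_upwards [hk2] with x hx
    rw [hx]
  rw [← h2]
  refine h1.trans (integral_congr_ae ?_)
  filter_upwards [hk2] with x hx
  rw [hx, map_mul, ← Complex.exp_conj, map_mul, Complex.conj_conj, ← hK.symm, neg_sub,
    mul_comm (conj x)]

/-- the Toeplitz product formula -/
lemma Ker.toeplitz_mul (hK : Ker F K₀) {Φ : ℂ → ℂ} (hΦ : Measurable Φ) {M : ℝ}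
    (hM : ∀ z, ‖Φ z‖ ≤ M) (ξ : ℂ) (S : H →L[ℂ] H)
    (hS : ∀ g f : H, ⟪g, S f⟫_ℂ = bf Φ (fun w => ch ξ w * K₀ w) g f) :
    cmp F S = toeplitz F (sy (ch ξ) (continuous_ch ξ).measurable (fun z => (norm_ch ξ z).le)) ∘L
      toeplitz F (sy (fun z => conj (ch ξ z) * Φ z)
        ((Complex.continuous_conj.measurable.comp (continuous_ch ξ).measurable).mul hΦ)
        (M := M) (fun z => by
          rw [norm_mul, Complex.norm_conj, norm_ch, one_mul]; exact hM z)) := by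
  refine cmp_ext F fun g f => ?_
  set s1 := sy (ch ξ) (continuous_ch ξ).measurable (fun z => (norm_ch ξ z).le) with hs1
  set s2 := sy (fun z => conj (ch ξ z) * Φ z)
        ((Complex.continuous_conj.measurable.comp (continuous_ch ξ).measurable).mul hΦ)
        (M := M) (fun z => by
          rw [norm_mul, Complex.norm_conj, norm_ch, one_mul]; exact hM z) with hs2
  have hmild : Mild (fun w => ch ξ w * K₀ w) := (mild_ch ξ).mul hK.mild
  rw [inner_cmp, hS, ContinuousLinearMap.comp_apply, toeplitz_eq, inner_cmp, inner_H, bf,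
    integral_prod _ (integrable_ig hΦ hmild hM _ _)]
  refine integral_congr_ae ?_
  have hp := hK.proj (mulOp s2 (f : H))
  filter_upwards [hp, mulOp_sy (continuous_ch ξ).measurable (fun z => (norm_ch ξ z).le)
    ((toeplitz F s2 f : F) : H)] with w h1 h2
  rw [h2]
  have h3 : ((toeplitz F s2 f : F) : H) w =
      ∫ z, K₀ (w - z) * Complex.exp (w * conj z) * (mulOp s2 (f : H)) z ∂γ := h1
  rw [h3, ← integral_const_mul, ← integral_const_mul]
  refine integral_congr_ae ?_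
  have hq : ∀ᵐ z ∂γ, (mulOp s2 (f : H) : ℂ → ℂ) z = conj (ch ξ z) * Φ z * (f : H) z :=
    mulOp_sy _ _ _
  filter_upwards [hq] with z hz
  rw [hz]
  simp only [ig]
  rw [ch_sub]
  ring

end

section

variable {F : Submodule ℂ H} [CompleteSpace F] {K₀ : ℂ → ℂ}

lemma toeplitz_mem (f : Lp ℂ ∞ γ) : toeplitz F f ∈ toeplitzAlgebra F :=
  subset_cstarGen ⟨f, rfl⟩

lemma bf_sum {Φ : ℂ → ℂ} (hΦ : Measurable Φ) {M : ℝ} (hM : ∀ z, ‖Φ z‖ ≤ M)
    (s : Finset ℂ) (c : ℂ → ℂ) (ψ : ℂ → ℂ → ℂ) (hψ : ∀ ξ, Mild (ψ ξ)) (g f : H) :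
    bf Φ (fun w => ∑ ξ ∈ s, c ξ * ψ ξ w) g f = ∑ ξ ∈ s, c ξ * bf Φ (ψ ξ) g f := by
  unfold bf
  have h1 : ∀ p, ig Φ (fun w => ∑ ξ ∈ s, c ξ * ψ ξ w) g f p = ∑ ξ ∈ s, c ξ * ig Φ (ψ ξ) g f p := by
    intro p
    simp only [ig, Finset.sum_mul, Finset.mul_sum]
    refine Finset.sum_congr rfl fun ξ _ => ?_
    ring
  simp_rw [h1]
  rw [integral_finsetSum]
  · refine Finset.sum_congr rfl fun ξ _ => integral_const_mul _ _
  · intro ξ _
    exact (integrable_ig hΦ (hψ ξ) hM g f).const_mul _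

/-- the compression of the operator of the form is in the Toeplitz algebra -/
theorem Ker.cmp_mem (hD : StmtD) (hK : Ker F K₀) {Φ φ : ℂ → ℂ} (hΦ : Measurable Φ)
    (hφ : Mild φ) {M : ℝ} (hM : ∀ z, ‖Φ z‖ ≤ M) (S : H →L[ℂ] H)
    (hS : ∀ g f : H, ⟪g, S f⟫_ℂ = bf Φ φ g f) : cmp F S ∈ toeplitzAlgebra F := by
  refine cstarGen_of_approx fun ε hε => ?_
  obtain ⟨s, c, hsc⟩ := hD K₀ φ hK.mild hφ hK.nz (ε / (M + 1)) (by
    have := M_nonneg hM; positivity)
  have hψ : ∀ ξ, Mild (fun w => ch ξ w * K₀ w) := fun ξ => (mild_ch ξ).mul hK.mild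
  have hex : ∀ ξ, ∃ T : H →L[ℂ] H, (∀ g f : H, ⟪g, T f⟫_ℂ = bf Φ (fun w => ch ξ w * K₀ w) g f) ∧
      ‖T‖ ≤ M * nrm (fun w => ch ξ w * K₀ w) := fun ξ => exists_op hΦ (hψ ξ) hM
  choose T hT _ using hex
  have hmem : ∀ ξ, cmp F (T ξ) ∈ toeplitzAlgebra F := by
    intro ξ
    rw [hK.toeplitz_mul hΦ hM ξ (T ξ) (hT ξ)]
    exact comp_mem_cstarGen (toeplitz_mem _) (toeplitz_mem _)
  set p : ℂ → ℂ := fun w => ∑ ξ ∈ s, c ξ * (ch ξ w * K₀ w) with hp
  have hpm : Mild p := Mild.sum s _ fun ξ _ => (Mild.const (c ξ)).mul (hψ ξ)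
  have hpe : ∀ w, p w = (∑ ξ ∈ s, c ξ * ch ξ w) * K₀ w := by
    intro w
    rw [hp, Finset.sum_mul]
    exact Finset.sum_congr rfl fun ξ _ => by ring
  refine ⟨∑ ξ ∈ s, c ξ • cmp F (T ξ), ?_, ?_⟩
  · exact sum_mem_cstarGen s _ c hmem
  · -- the difference is the operator with symbol φ - p
    obtain ⟨R, hR, hRn⟩ := exists_op hΦ (hφ.sub hpm) hM
    have hdiff : cmp F S - ∑ ξ ∈ s, c ξ • cmp F (T ξ) = cmp F R := by
      refine cmp_ext F fun g f => ?_
      rw [inner_cmp, hR, ContinuousLinearMap.sub_apply, inner_sub_right, inner_cmp, hS,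
        ContinuousLinearMap.sum_apply, inner_sum]
      have h2 : ∀ ξ ∈ s, ⟪g, (c ξ • cmp F (T ξ)) f⟫_ℂ =
          c ξ * bf Φ (fun w => ch ξ w * K₀ w) (g : H) (f : H) := by
        intro ξ _
        rw [ContinuousLinearMap.smul_apply, inner_smul_right, inner_cmp, hT]
      rw [Finset.sum_congr rfl h2, ← bf_sum hΦ hM s c _ hψ]
      unfold bf
      rw [← integral_sub (integrable_ig hΦ hφ hM _ _) (integrable_ig hΦ hpm hM _ _)]
      refine integral_congr_ae (Eventually.of_forall fun q => ?_)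
      simp only [ig]
      ring
    rw [hdiff]
    refine (norm_cmp_le F R).trans_lt (hRn.trans_lt ?_)
    have h3 : nrm (fun w => φ w - p w) < ε / (M + 1) := by
      unfold nrm
      refine lt_of_le_of_lt (le_of_eq ?_) hsc
      refine integral_congr_ae (Eventually.of_forall fun w => ?_)
      beta_reduce
      rw [hpe]
    have h0 := M_nonneg hM
    have h4 := nrm_nonneg (fun w => φ w - p w)
    calc M * nrm (fun w => φ w - p w) ≤ (M + 1) * nrm (fun w => φ w - p w) := by nlinarith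
      _ < (M + 1) * (ε / (M + 1)) := by
          refine mul_lt_mul_of_pos_left h3 (by linarith)
      _ = ε := by field_simp

end

end

end Pool.Agent.R283.FT
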