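import Pool.Agent.R283.FT.Defs

/-!
Part B: kernel functions are almost orthogonal with respect to band operators.
-/

set_option autoImplicit false

open MeasureTheory Complex Set Metric Filter Topology
open scoped ComplexConjugate ENNReal InnerProductSpace

namespace Pool.Agent.R283.FT

noncomputable section

lemma b_mulOp_ind (K : Set ℂ) (hK : MeasurableSet K) (h : H) :
    (mulOp (ind K hK) h : ℂ → ℂ) =ᵐ[γ] K.indicator (h : ℂ → ℂ) := by
  have h1 := (ContinuousLinearMap.mul ℂ ℂ).coeFn_holder (r := 2) (ind K hK) h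
  have h2 : (ind K hK : ℂ → ℂ) =ᵐ[γ] K.indicator (fun _ => (1 : ℂ)) := indicatorConstLp_coeFn
  have h3 : (mulOp (ind K hK) h : ℂ → ℂ)
      =ᵐ[γ] fun x => (ContinuousLinearMap.mul ℂ ℂ) ((ind K hK : ℂ → ℂ) x) ((h : ℂ → ℂ) x) := h1
  filter_upwards [h3, h2] with w hw1 hw2
  rw [hw1, hw2]
  by_cases hw : w ∈ K
  · simp [hw]
  · simp [hw]

lemma b_integral_γ (f : ℂ → ℝ) :
    ∫ w, f w ∂γ = ∫ w : ℂ, (Real.exp (-‖w‖ ^ 2) / Real.pi) * f w := by
  unfold γ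
  rw [integral_withDensity_eq_integral_toReal_smul measurable_dens
    (Eventually.of_forall fun w => ENNReal.ofReal_lt_top)]
  congr 1
  funext w
  rw [ENNReal.toReal_ofReal (by positivity), smul_eq_mul]

lemma b_norm_sq (h : H) : ‖h‖ ^ 2 = ∫ w, ‖(h : ℂ → ℂ) w‖ ^ 2 ∂γ := by
  have h3 := @inner_self_eq_norm_sq ℂ _ _ _ _ h
  rw [← h3, L2.inner_def]
  have h4 : ∫ w : ℂ, ⟪(h : ℂ → ℂ) w, (h : ℂ → ℂ) w⟫_ℂ ∂γ
      = ((∫ w : ℂ, ‖(h : ℂ → ℂ) w‖ ^ 2 ∂γ : ℝ) : ℂ) := by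
    rw [← integral_complex_ofReal]
    congr 1
    funext w
    rw [inner_self_eq_norm_sq_to_K]
    norm_cast
  rw [h4]
  simp

lemma b_inner_mulOp (K : Set ℂ) (hK : MeasurableSet K) (f g : H) :
    ⟪mulOp (ind K hK) f, g⟫_ℂ = ⟪f, mulOp (ind K hK) g⟫_ℂ := by
  rw [L2.inner_def, L2.inner_def]
  apply integral_congr_ae
  filter_upwards [b_mulOp_ind K hK f, b_mulOp_ind K hK g] with w h1 h2
  rw [h1, h2]
  by_cases hw : w ∈ K
  · simp [hw]
  · simp [hw]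

lemma b_kf (K₀ : ℂ → ℂ) (z w : ℂ) :
    ‖kf K₀ z w‖ ^ 2 * Real.exp (-‖w‖ ^ 2) = ‖K₀ (w - z)‖ ^ 2 * Real.exp (-‖w - z‖ ^ 2) := by
  unfold kf
  rw [norm_mul, norm_mul, Complex.norm_exp, Complex.norm_real, Real.norm_eq_abs,
    abs_of_pos (Real.exp_pos _)]
  have h1 : ‖w - z‖ ^ 2 = ‖w‖ ^ 2 - 2 * (w * conj z).re + ‖z‖ ^ 2 := by
    rw [← Complex.normSq_eq_norm_sq, ← Complex.normSq_eq_norm_sq, ← Complex.normSq_eq_norm_sq,
      Complex.normSq_sub]
    ring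
  have h2 : (‖K₀ (w - z)‖ * Real.exp (w * conj z).re * Real.exp (-‖z‖ ^ 2 / 2)) ^ 2
      * Real.exp (-‖w‖ ^ 2)
      = ‖K₀ (w - z)‖ ^ 2 * (Real.exp (w * conj z).re * Real.exp (w * conj z).re
        * Real.exp (-‖z‖ ^ 2 / 2) * Real.exp (-‖z‖ ^ 2 / 2) * Real.exp (-‖w‖ ^ 2)) := by
    ring
  rw [h2, ← Real.exp_add, ← Real.exp_add, ← Real.exp_add, ← Real.exp_add, h1]
  congr 2
  ring

lemma b_gauss : Integrable (fun z : ℂ => Real.exp (-‖z‖ ^ 2 / 2)) := by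
  have h : ∫ z : ℂ, Real.exp (-(1 / 2) * ‖z‖ ^ 2) = Real.pi / (1 / 2) := by
    have := GaussianFourier.integral_rexp_neg_mul_sq_norm (V := ℂ) (b := 1 / 2) (by norm_num)
    rw [this]
    simp
  have hi : Integrable (fun z : ℂ => Real.exp (-(1 / 2) * ‖z‖ ^ 2)) := by
    by_contra hc
    rw [integral_undef hc] at h
    have := Real.pi_pos
    have h2 : 0 < Real.pi / (1 / 2) := by positivity
    linarith
  refine hi.congr (Eventually.of_forall fun z => ?_)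
  beta_reduce
  congr 1
  ring

def bQ (K₀ : ℂ → ℂ) (v : ℂ) : ℝ :=
  (1 + ‖v‖) ^ 6 * (‖K₀ v‖ ^ 2 * Real.exp (-‖v‖ ^ 2)) / Real.pi

lemma bQ_int {K₀ : ℂ → ℂ} (hK : Mild K₀) : Integrable (bQ K₀) := by
  obtain ⟨hc, C, M, hb⟩ := hK
  have hC : 0 ≤ C := by
    have h1 := hb 0
    have h2 : 0 < Real.exp (M * ‖(0 : ℂ)‖) := Real.exp_pos _
    have h3 := norm_nonneg (K₀ 0)
    by_contra hcon
    rw [not_le] at hcon
    have := mul_neg_of_neg_of_pos hcon h2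
    linarith
  have hcont : Continuous (bQ K₀) := by
    unfold bQ
    fun_prop
  refine (b_gauss.const_mul (8 * 12 ^ 3 * C ^ 2 * Real.exp (4 * M ^ 2) / Real.pi)).mono'
    hcont.aestronglyMeasurable (Eventually.of_forall fun v => ?_)
  have hpos : 0 ≤ bQ K₀ v := by
    unfold bQ
    positivity
  rw [Real.norm_eq_abs, abs_of_nonneg hpos]
  unfold bQ
  set t := ‖v‖ with ht
  have ht0 : 0 ≤ t := norm_nonneg v
  have h1 : (1 + t) ^ 2 ≤ 2 * (12 * Real.exp (t ^ 2 / 12)) := by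
    have := Real.add_one_le_exp (t ^ 2 / 12)
    nlinarith [sq_nonneg (t - 1), sq_nonneg t]
  have h2 : (1 + t) ^ 6 ≤ 8 * 12 ^ 3 * Real.exp (t ^ 2 / 4) := by
    have e1 : (1 + t) ^ 6 = ((1 + t) ^ 2) ^ 3 := by ring
    have e2 : 8 * 12 ^ 3 * Real.exp (t ^ 2 / 4) = (2 * (12 * Real.exp (t ^ 2 / 12))) ^ 3 := by
      have : Real.exp (t ^ 2 / 4) = Real.exp (t ^ 2 / 12) ^ 3 := by
        rw [← Real.exp_nat_mul]
        congr 1
        push_cast
        ring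
      rw [this]
      ring
    rw [e1, e2]
    gcongr
  have h3 : ‖K₀ v‖ ^ 2 ≤ C ^ 2 * (Real.exp (4 * M ^ 2) * Real.exp (t ^ 2 / 4)) := by
    have h31 : ‖K₀ v‖ ^ 2 ≤ (C * Real.exp (M * t)) ^ 2 := by
      have := hb v
      gcongr
    have h32 : Real.exp (M * t) ^ 2 ≤ Real.exp (4 * M ^ 2) * Real.exp (t ^ 2 / 4) := by
      rw [← Real.exp_add, ← Real.exp_nat_mul]
      apply Real.exp_le_exp.mpr
      push_cast
      nlinarith [sq_nonneg (t / 2 - 2 * M)]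
    calc ‖K₀ v‖ ^ 2 ≤ (C * Real.exp (M * t)) ^ 2 := h31
      _ = C ^ 2 * Real.exp (M * t) ^ 2 := by ring
      _ ≤ _ := mul_le_mul_of_nonneg_left h32 (sq_nonneg C)
  have h4 : Real.exp (t ^ 2 / 4) * Real.exp (t ^ 2 / 4) * Real.exp (-t ^ 2)
      = Real.exp (-t ^ 2 / 2) := by
    rw [← Real.exp_add, ← Real.exp_add]
    congr 1
    ring
  calc (1 + t) ^ 6 * (‖K₀ v‖ ^ 2 * Real.exp (-t ^ 2)) / Real.pi
      ≤ (8 * 12 ^ 3 * Real.exp (t ^ 2 / 4)) *
        (C ^ 2 * (Real.exp (4 * M ^ 2) * Real.exp (t ^ 2 / 4)) * Real.exp (-t ^ 2)) / Real.pi := by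
        gcongr
    _ = 8 * 12 ^ 3 * C ^ 2 * Real.exp (4 * M ^ 2) / Real.pi *
        (Real.exp (t ^ 2 / 4) * Real.exp (t ^ 2 / 4) * Real.exp (-t ^ 2)) := by ring
    _ = _ := by rw [h4]

lemma b_tail {K₀ : ℂ → ℂ} (hK : Mild K₀) (k : ℂ → H)
    (hk : ∀ z, (k z : ℂ → ℂ) =ᵐ[γ] kf K₀ z) (z : ℂ) {ρ : ℝ} (hρ : 0 ≤ ρ) :
    ‖k z - mulOp (ind (ball z ρ) measurableSet_ball) (k z)‖ * (1 + ρ) ^ 3
      ≤ Real.sqrt (∫ v, bQ K₀ v) := by
  apply Real.le_sqrt_of_sq_le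
  rw [mul_pow, b_norm_sq]
  have h1 : ∫ w, ‖((k z - mulOp (ind (ball z ρ) measurableSet_ball) (k z) : H) : ℂ → ℂ) w‖ ^ 2 ∂γ
      = ∫ w, (ball z ρ)ᶜ.indicator (fun w => ‖kf K₀ z w‖ ^ 2) w ∂γ := by
    apply integral_congr_ae
    filter_upwards [Lp.coeFn_sub (k z) (mulOp (ind (ball z ρ) measurableSet_ball) (k z)),
      b_mulOp_ind (ball z ρ) measurableSet_ball (k z), hk z] with w h1 h2 h3
    rw [h1, Pi.sub_apply, h2]
    by_cases hw : w ∈ ball z ρ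
    · rw [indicator_of_mem hw, indicator_of_notMem (by simpa using hw)]
      simp
    · rw [indicator_of_notMem hw, indicator_of_mem (by simpa using hw), h3, sub_zero]
  rw [h1, b_integral_γ, ← integral_mul_const]
  have h2 : ∫ v, bQ K₀ v = ∫ w, bQ K₀ (w - z) := (integral_sub_right_eq_self (bQ K₀) z).symm
  rw [h2]
  refine integral_mono_of_nonneg (Eventually.of_forall fun w => ?_)
    ((bQ_int hK).comp_sub_right z) (Eventually.of_forall fun w => ?_)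
  · have : 0 ≤ (ball z ρ)ᶜ.indicator (fun w => ‖kf K₀ z w‖ ^ 2) w :=
      indicator_nonneg (fun w _ => by positivity) w
    simp only [Pi.zero_apply]
    positivity
  · beta_reduce
    by_cases hw : w ∈ ball z ρ
    · rw [indicator_of_notMem (by simpa using hw)]
      have : 0 ≤ bQ K₀ (w - z) := by
        unfold bQ
        positivity
      simpa using this
    · rw [indicator_of_mem (by simpa using hw)]
      have hd : ρ ≤ ‖w - z‖ := by
        rw [mem_ball, not_lt, dist_eq_norm] at hw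
        exact hw
      have h5 := b_kf K₀ z w
      have h6 : Real.exp (-‖w‖ ^ 2) / Real.pi * ‖kf K₀ z w‖ ^ 2 * ((1 + ρ) ^ 3) ^ 2
          = (1 + ρ) ^ 6 * (‖kf K₀ z w‖ ^ 2 * Real.exp (-‖w‖ ^ 2)) / Real.pi := by ring
      rw [h6, h5]
      unfold bQ
      gcongr

theorem stmtB : StmtB := by
  intro K₀ hK k hk B hB
  obtain ⟨R₀, hR₀⟩ := hB
  set R : ℝ := max R₀ 0 with hR
  have hR0 : 0 ≤ R := le_max_right _ _
  set T : ℝ := Real.sqrt (∫ v, bQ K₀ v) with hT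
  have hT0 : 0 ≤ T := Real.sqrt_nonneg _
  have hnorm : ∀ z, ‖k z‖ ≤ T := by
    intro z
    have h1 := b_tail hK k hk z (le_refl 0)
    have h2 : mulOp (ind (ball z 0) measurableSet_ball) (k z) = 0 := by
      rw [Lp.eq_zero_iff_ae_eq_zero]
      filter_upwards [b_mulOp_ind (ball z 0) measurableSet_ball (k z)] with w hw
      rw [hw]
      simp
    rw [h2] at h1
    simpa using h1
  refine ⟨3 * T ^ 2 * ‖B‖ * (R + 2) ^ 3, fun z z' => ?_⟩
  set d : ℝ := ‖z' - z‖ with hd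
  have hd0 : 0 ≤ d := norm_nonneg _
  set ρ : ℝ := max 0 ((d - R - 1) / 2) with hρ
  have hρ0 : 0 ≤ ρ := le_max_left _ _
  have hcmp : 1 + d ≤ (R + 2) * (1 + ρ) := by
    have h1 : (d - R - 1) / 2 ≤ ρ := le_max_right _ _
    nlinarith
  have hdist : ∀ x ∈ ball z ρ, ∀ y ∈ ball z' ρ, R₀ < dist x y := by
    intro x hx y hy
    have hRR : R₀ ≤ R := le_max_left _ _
    have hρpos : 0 < ρ := lt_of_le_of_lt dist_nonneg hx
    have h2 : ρ = (d - R - 1) / 2 := by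
      rcases max_choice 0 ((d - R - 1) / 2) with h | h
      · rw [hρ, h] at hρpos
        exact absurd hρpos (lt_irrefl _)
      · rw [hρ, h]
    have h3 : d ≤ dist x z + dist x y + dist y z' := by
      rw [hd, ← dist_eq_norm]
      calc dist z' z ≤ dist z' y + dist y z := dist_triangle _ _ _
        _ ≤ dist z' y + (dist y x + dist x z) := by
            gcongr
            exact dist_triangle _ _ _
        _ = dist x z + dist x y + dist y z' := by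
            rw [dist_comm z' y, dist_comm y x]
            ring
    rw [mem_ball] at hx hy
    linarith
  have hzero := hR₀ (ball z ρ) (ball z' ρ) measurableSet_ball measurableSet_ball hdist
  set P := mulOp (ind (ball z ρ) measurableSet_ball) with hP
  set P' := mulOp (ind (ball z' ρ) measurableSet_ball) with hP'
  have hz : P' (B (P (k z))) = 0 := by
    have := congrArg (fun L : H →L[ℂ] H => L (k z)) hzero
    simpa using this
  have hsplit : ⟪k z', B (k z)⟫_ℂ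
      = ⟪k z' - P' (k z'), B (P (k z))⟫_ℂ + ⟪k z', B (k z - P (k z))⟫_ℂ := by
    rw [inner_sub_left, map_sub, inner_sub_right, b_inner_mulOp, hz, inner_zero_right]
    ring
  have t1 := b_tail hK k hk z hρ0
  have t2 := b_tail hK k hk z' hρ0
  have hρ3 : 0 < (1 + ρ) ^ 3 := by positivity
  have t1' : ‖k z - P (k z)‖ ≤ T / (1 + ρ) ^ 3 := by
    rw [le_div_iff₀ hρ3]
    exact t1
  have t2' : ‖k z' - P' (k z')‖ ≤ T / (1 + ρ) ^ 3 := by
    rw [le_div_iff₀ hρ3]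
    exact t2
  have hone : T / (1 + ρ) ^ 3 ≤ T := by
    apply div_le_self hT0
    exact one_le_pow₀ (by linarith)
  have t3 : ‖P (k z)‖ ≤ 2 * T := by
    have : P (k z) = k z - (k z - P (k z)) := by abel
    rw [this]
    refine (norm_sub_le _ _).trans ?_
    have := hnorm z
    linarith
  have hB0 := norm_nonneg B
  have hTρ : 0 ≤ T / (1 + ρ) ^ 3 := by positivity
  have s1 : ‖⟪k z' - P' (k z'), B (P (k z))⟫_ℂ‖ ≤ T / (1 + ρ) ^ 3 * (‖B‖ * (2 * T)) := by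
    refine (norm_inner_le_norm _ _).trans ?_
    have h1 : ‖B (P (k z))‖ ≤ ‖B‖ * (2 * T) :=
      (B.le_opNorm _).trans (mul_le_mul_of_nonneg_left t3 hB0)
    exact mul_le_mul t2' h1 (norm_nonneg _) hTρ
  have s2 : ‖⟪k z', B (k z - P (k z))⟫_ℂ‖ ≤ T * (‖B‖ * (T / (1 + ρ) ^ 3)) := by
    refine (norm_inner_le_norm _ _).trans ?_
    have h1 : ‖B (k z - P (k z))‖ ≤ ‖B‖ * (T / (1 + ρ) ^ 3) :=
      (B.le_opNorm _).trans (mul_le_mul_of_nonneg_left t1' hB0)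
    exact mul_le_mul (hnorm z') h1 (norm_nonneg _) hT0
  have hfin : ‖⟪k z', B (k z)⟫_ℂ‖ ≤ 3 * T ^ 2 * ‖B‖ * (1 / (1 + ρ) ^ 3) := by
    rw [hsplit]
    refine (norm_add_le _ _).trans ?_
    refine (add_le_add s1 s2).trans (le_of_eq ?_)
    ring
  refine hfin.trans ?_
  have h9 : (1 : ℝ) / (1 + ρ) ^ 3 ≤ (R + 2) ^ 3 * (1 + d) ^ (-(3 : ℝ)) := by
    have e3 : (1 + d) ^ (-(3 : ℝ)) = 1 / (1 + d) ^ 3 := by
      rw [Real.rpow_neg (by positivity), one_div]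
      congr 1
      rw [← Real.rpow_natCast]
      norm_num
    rw [e3, mul_one_div, div_le_div_iff₀ hρ3 (by positivity), one_mul, ← mul_pow]
    gcongr
  calc 3 * T ^ 2 * ‖B‖ * (1 / (1 + ρ) ^ 3)
      ≤ 3 * T ^ 2 * ‖B‖ * ((R + 2) ^ 3 * (1 + d) ^ (-(3 : ℝ))) :=
        mul_le_mul_of_nonneg_left h9 (by positivity)
    _ = _ := by ring

end

end Pool.Agent.R283.FT
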