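import Pool.Agent.R283.FT.C0

/-!
# Part C, second half: reproducing kernel of the polyanalytic Fock space, closedness
-/

set_option autoImplicit false

open MeasureTheory Complex Set Metric Filter Topology
open scoped ComplexConjugate ENNReal InnerProductSpace

namespace Pool.Agent.R283.FT

noncomputable section

lemma IsPolyC.monom {n l : ℕ} (hl : l < n) {h : ℂ → ℂ} (hh : Differentiable ℂ h) :
    IsPolyC n (fun w => conj w ^ l * h w) := by
  refine ⟨fun k => if k = l then h else fun _ => 0, fun k => ?_, fun z => ?_⟩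
  · beta_reduce
    split_ifs
    · exact hh
    · exact differentiable_const _
  · rw [Finset.sum_eq_single l]
    · simp
    · intro k _ hk
      simp [hk]
    · intro h'
      exact absurd (Finset.mem_range.2 hl) h'

lemma IsPolyC.sum {ι : Type} {n : ℕ} (s : Finset ι) {f : ι → ℂ → ℂ}
    (h : ∀ i ∈ s, IsPolyC n (f i)) : IsPolyC n (fun z => ∑ i ∈ s, f i z) := by
  classical
  induction s using Finset.induction_on with
  | empty => simpa using IsPolyC.zero n
  | insert a s ha ih =>
    simp only [Finset.sum_insert ha]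
    exact (h a (Finset.mem_insert_self _ _)).add
      (ih fun i hi => h i (Finset.mem_insert_of_mem hi))

lemma IsPolyC.affine {n k : ℕ} (hk : k < n) (c : ℂ) {h : ℂ → ℂ} (hh : Differentiable ℂ h) :
    IsPolyC n (fun w => (conj w + c) ^ k * h w) := by
  have e : (fun w : ℂ => (conj w + c) ^ k * h w) = fun w => ∑ l ∈ Finset.range (k + 1),
      conj w ^ l * (c ^ (k - l) * (k.choose l : ℂ) * h w) := by
    funext w
    rw [add_pow, Finset.sum_mul]
    exact Finset.sum_congr rfl fun l _ => by ring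
  rw [e]
  refine IsPolyC.sum _ fun l hl => IsPolyC.monom (lt_of_lt_of_le (Finset.mem_range.1 hl) hk) ?_
  exact (differentiable_const _).mul hh

/-- the kernel at `z` -/
def ker (n : ℕ) (z w : ℂ) : ℂ := Kn n (w - z) * Complex.exp (w * conj z)

lemma ker_mild (n : ℕ) (z : ℂ) : Mild (ker n z) := (Kn_mild n z).cmul (Mild.cexp _)

lemma ker_conj (n : ℕ) (z w : ℂ) : conj (ker n z w) = Kn n (w - z) * Complex.exp (conj w * z) := by
  rw [ker, map_mul, Kn_conj, ← Complex.exp_conj, map_mul, Complex.conj_conj]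

lemma ker_poly (n : ℕ) (z : ℂ) : IsPolyC n (ker n z) := by
  have e : ker n z = fun w => ∑ j ∈ Finset.range n, (conj w + (-conj z)) ^ j *
      ((((-1) ^ j * (n.choose (j + 1) : ℝ) / (j.factorial : ℝ) : ℝ) : ℂ) * (w - z) ^ j *
        Complex.exp (w * conj z)) := by
    funext w
    rw [ker, Kn, Finset.sum_mul]
    refine Finset.sum_congr rfl fun j _ => ?_
    rw [map_sub, mul_pow, ← sub_eq_add_neg]
    ring
  rw [e]
  refine IsPolyC.sum _ fun j hj => IsPolyC.affine (Finset.mem_range.1 hj) _ ?_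
  fun_prop

/-- the kernel as an element of `H` -/
def kerH (n : ℕ) (z : ℂ) : H := (ker_mild n z).memLp.toLp (ker n z)

lemma kerH_coe (n : ℕ) (z : ℂ) : (kerH n z : ℂ → ℂ) =ᵐ[γ] ker n z := MemLp.coeFn_toLp _

lemma kerH_mem (n : ℕ) (z : ℂ) : kerH n z ∈ Fock n := ⟨ker n z, ker_poly n z, kerH_coe n z⟩

lemma integrable_mild_mul {ψ g : ℂ → ℂ} (hψ : Mild ψ) (hg : MemLp g 2 γ) :
    Integrable (fun w => ψ w * g w) γ := by
  have := MemLp.integrable_mul hψ.memLp hg
  exact this

/-- the reproducing formula for functions -/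
theorem rep_fun {n : ℕ} {g : ℂ → ℂ} (hg : IsPolyC n g) (hL : MemLp g 2 γ) (z : ℂ) :
    ∫ w, conj (ker n z w) * g w ∂γ = g z := by
  -- the translated function
  have hG : IsPolyC n (fun w => Complex.exp (-(w * conj z)) * g (w + z)) := by
    refine IsPolyC.hol_mul ?_ (by fun_prop)
    obtain ⟨h, hh, hh2⟩ := hg
    have e : (fun w => g (w + z)) = fun w => ∑ k ∈ Finset.range n,
        (conj w + conj z) ^ k * h k (w + z) := by
      funext w
      rw [hh2]
      simp only [map_add]
    rw [e]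
    refine IsPolyC.sum _ fun k hk => IsPolyC.affine (Finset.mem_range.1 hk) _ ?_
    exact (hh k).comp (by fun_prop)
  have hψ : Mild (fun w => conj (ker n z w)) := by
    have : (fun w => conj (ker n z w)) = fun w => Kn n (w - z) * Complex.exp (conj w * z) :=
      funext fun w => ker_conj n z w
    rw [this]
    exact (Kn_mild n z).cmul (Mild.cexp' z)
  have hi := integrable_mild_mul hψ hL
  have htr : ∀ w : ℂ, dn (w + z) • (conj (ker n z (w + z)) * g (w + z)) =
      dn w • ((Complex.exp (-(w * conj z)) * g (w + z)) * Kn n w) := by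
    intro w
    rw [ker_conj, add_sub_cancel_right]
    have h1 : ((dn (w + z) : ℝ) : ℂ) * Complex.exp (conj (w + z) * z) =
        ((dn w : ℝ) : ℂ) * Complex.exp (-(w * conj z)) := by
      unfold dn
      push_cast
      rw [div_mul_eq_mul_div, div_mul_eq_mul_div, ← Complex.exp_add, ← Complex.exp_add]
      congr 2
      have e1 : ((‖w + z‖ : ℝ) : ℂ) ^ 2 = (w + z) * conj (w + z) := by
        rw [Complex.mul_conj, Complex.normSq_eq_norm_sq]; push_cast; rfl
      have e2 : ((‖w‖ : ℝ) : ℂ) ^ 2 = w * conj w := by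
        rw [Complex.mul_conj, Complex.normSq_eq_norm_sq]; push_cast; rfl
      rw [e1, e2, map_add]
      ring
    rw [Complex.real_smul, Complex.real_smul]
    calc _ = (((dn (w + z) : ℝ) : ℂ) * Complex.exp (conj (w + z) * z)) * (Kn n w * g (w + z)) := by
          ring
      _ = _ := by rw [h1]; ring
  have hi2 : Integrable (fun w => (Complex.exp (-(w * conj z)) * g (w + z)) * Kn n w) γ := by
    rw [integrable_γ_iff] at hi ⊢
    have := hi.comp_add_right z
    refine this.congr (Eventually.of_forall fun w => ?_)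
    exact htr w
  have h0 := rep_zero hG hi2
  rw [integral_γ] at h0 ⊢
  rw [← integral_add_right_eq_self (fun w => dn w • (conj (ker n z w) * g w)) z]
  simp_rw [htr]
  rw [h0]
  simp

lemma inner_kerH (n : ℕ) (z : ℂ) (f : H) :
    ⟪kerH n z, f⟫_ℂ = ∫ w, conj (ker n z w) * (f : ℂ → ℂ) w ∂γ := by
  rw [MeasureTheory.L2.inner_def]
  refine integral_congr_ae ?_
  filter_upwards [kerH_coe n z] with w hw
  rw [hw]
  simp [mul_comm]

/-- holomorphic dependence on the parameter -/
lemma entire_int {ψ g : ℂ → ℂ} (hψ : Mild ψ) (hg : MemLp g 2 γ) :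
    Differentiable ℂ (fun z => ∫ w, Complex.exp (conj w * z) * (ψ w * g w) ∂γ) := by
  intro z₀
  have hm : AEStronglyMeasurable g γ := hg.1
  have hb : Mild (fun w => ((Real.exp ((‖z₀‖ + 2) * ‖w‖) : ℝ) : ℂ) * ψ w) := by
    refine Mild.cmul ⟨by fun_prop, 1, ‖z₀‖ + 2, fun w => ?_⟩ hψ
    rw [Complex.norm_real, Real.norm_of_nonneg (Real.exp_pos _).le, one_mul]
  have hbi := (integrable_mild_mul hb hg).norm
  have key := hasDerivAt_integral_of_dominated_loc_of_deriv_le (μ := γ) (𝕜 := ℂ)
    (F := fun z w => Complex.exp (conj w * z) * (ψ w * g w))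
    (F' := fun z w => conj w * Complex.exp (conj w * z) * (ψ w * g w)) (x₀ := z₀)
    (s := ball z₀ 1) (bound := fun w => ‖((Real.exp ((‖z₀‖ + 2) * ‖w‖) : ℝ) : ℂ) * ψ w * g w‖)
    (ball_mem_nhds z₀ one_pos) (Eventually.of_forall fun z => ?_) ?_ ?_ ?_ hbi ?_
  · exact key.2.differentiableAt
  · exact (Continuous.aestronglyMeasurable (by fun_prop)).mul
      (hψ.1.aestronglyMeasurable.mul hm)
  · have := integrable_mild_mul ((Mild.cexp' z₀).cmul hψ) hg
    refine this.congr (Eventually.of_forall fun w => ?_)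
    simp only [mul_assoc]
  · exact (Continuous.aestronglyMeasurable (by fun_prop)).mul
      (hψ.1.aestronglyMeasurable.mul hm)
  · refine Eventually.of_forall fun w z hz => ?_
    rw [← mul_assoc, norm_mul, norm_mul, norm_mul (_ * _) (g w), norm_mul _ (ψ w)]
    refine mul_le_mul_of_nonneg_right (mul_le_mul_of_nonneg_right ?_ (norm_nonneg _))
      (norm_nonneg _)
    rw [norm_mul, RCLike.norm_conj, Complex.norm_real, Real.norm_of_nonneg (Real.exp_pos _).le,
      Complex.norm_exp]
    have h1 : ‖w‖ ≤ Real.exp ‖w‖ := by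
      have := Real.add_one_le_exp ‖w‖
      linarith
    have hz2 : ‖z‖ ≤ ‖z₀‖ + 1 := by
      have h := norm_le_norm_add_norm_sub' z z₀
      rw [mem_ball, dist_eq_norm] at hz
      linarith
    have h2 : (conj w * z).re ≤ (‖z₀‖ + 1) * ‖w‖ := by
      refine (Complex.re_le_norm _).trans ?_
      rw [norm_mul, RCLike.norm_conj, mul_comm]
      exact mul_le_mul_of_nonneg_right hz2 (norm_nonneg _)
    calc ‖w‖ * Real.exp (conj w * z).re ≤ Real.exp ‖w‖ * Real.exp ((‖z₀‖ + 1) * ‖w‖) :=
          mul_le_mul h1 (Real.exp_le_exp.2 h2) (Real.exp_pos _).le (Real.exp_pos _).le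
      _ = Real.exp ((‖z₀‖ + 2) * ‖w‖) := by rw [← Real.exp_add]; congr 1; ring
  · refine Eventually.of_forall fun w z _ => ?_
    have h1 : HasDerivAt (fun z : ℂ => conj w * z) (conj w) z := by
      simpa using (hasDerivAt_id z).const_mul (conj w)
    have h2 := (h1.cexp).mul_const (ψ w * g w)
    refine h2.congr_deriv ?_
    ring

/-- the candidate representative of the projection of `g` is polyanalytic -/
lemma proj_poly (n : ℕ) {g : ℂ → ℂ} (hg : MemLp g 2 γ) :
    IsPolyC n (fun z => ∫ w, conj (ker n z w) * g w ∂γ) := by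
  have hexp : ∀ z w : ℂ, conj (ker n z w) * g w = ∑ j ∈ Finset.range n,
      ∑ a ∈ Finset.range (j + 1), ∑ b ∈ Finset.range (j + 1),
        (((cj n j : ℝ) : ℂ) * (-z) ^ (j - a) * (j.choose a : ℂ) * (-conj z) ^ (j - b) *
          (j.choose b : ℂ)) * (Complex.exp (conj w * z) * ((w ^ a * conj w ^ b) * g w)) := by
    intro z w
    rw [ker_conj, Kn, Finset.sum_mul, Finset.sum_mul]
    refine Finset.sum_congr rfl fun j _ => ?_
    have e : ((w - z) * conj (w - z)) ^ j = (∑ a ∈ Finset.range (j + 1),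
        w ^ a * (-z) ^ (j - a) * (j.choose a : ℂ)) * (∑ b ∈ Finset.range (j + 1),
        conj w ^ b * (-conj z) ^ (j - b) * (j.choose b : ℂ)) := by
      rw [← add_pow, ← add_pow, mul_pow, map_sub, sub_eq_add_neg, sub_eq_add_neg]
    rw [e, Finset.sum_mul_sum, Finset.mul_sum, Finset.sum_mul, Finset.sum_mul]
    refine Finset.sum_congr rfl fun a _ => ?_
    rw [Finset.mul_sum, Finset.sum_mul, Finset.sum_mul]
    refine Finset.sum_congr rfl fun b _ => ?_
    rw [cj]
    ring
  have hmono : ∀ a b : ℕ, Mild (fun w : ℂ => w ^ a * conj w ^ b) := fun a b =>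
    (Mild.id.pow a).cmul (Mild.conj'.pow b)
  have hint : ∀ (z : ℂ) (a b : ℕ),
      Integrable (fun w => Complex.exp (conj w * z) * ((w ^ a * conj w ^ b) * g w)) γ := by
    intro z a b
    have := integrable_mild_mul ((Mild.cexp' z).cmul (hmono a b)) hg
    refine this.congr (Eventually.of_forall fun w => ?_)
    simp only [mul_assoc]
  have hfun : (fun z => ∫ w, conj (ker n z w) * g w ∂γ) = fun z => ∑ j ∈ Finset.range n,
      ∑ a ∈ Finset.range (j + 1), ∑ b ∈ Finset.range (j + 1),
        conj z ^ (j - b) * ((((cj n j : ℝ) : ℂ) * (-z) ^ (j - a) * (j.choose a : ℂ) *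
          (-1) ^ (j - b) * (j.choose b : ℂ)) *
          ∫ w, Complex.exp (conj w * z) * ((w ^ a * conj w ^ b) * g w) ∂γ) := by
    funext z
    simp_rw [hexp z]
    rw [integral_finsetSum _ fun j _ => integrable_finsetSum _ fun a _ =>
      integrable_finsetSum _ fun b _ => (hint z a b).const_mul _]
    refine Finset.sum_congr rfl fun j _ => ?_
    rw [integral_finsetSum _ fun a _ => integrable_finsetSum _ fun b _ =>
      (hint z a b).const_mul _]
    refine Finset.sum_congr rfl fun a _ => ?_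
    rw [integral_finsetSum _ fun b _ => (hint z a b).const_mul _]
    refine Finset.sum_congr rfl fun b _ => ?_
    rw [integral_const_mul, neg_pow (conj z)]
    ring
  rw [hfun]
  refine IsPolyC.sum _ fun j hj => IsPolyC.sum _ fun a _ => IsPolyC.sum _ fun b _ =>
    IsPolyC.monom (lt_of_le_of_lt (Nat.sub_le _ _) (Finset.mem_range.1 hj)) ?_
  exact Differentiable.mul (by fun_prop) (entire_int (hmono a b) hg)

theorem fock_closed (n : ℕ) : IsClosed (Fock n : Set H) := by
  rw [← closure_subset_iff_isClosed]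
  intro f hf
  obtain ⟨u, hu, hlim⟩ := mem_closure_iff_seq_limit.1 hf
  have hmeas : TendstoInMeasure γ (fun j => (u j : ℂ → ℂ)) atTop (f : ℂ → ℂ) :=
    tendstoInMeasure_of_tendsto_Lp hlim
  obtain ⟨ns, hns, hae⟩ := hmeas.exists_seq_tendsto_ae
  have hrep : ∀ j, ∀ᵐ z ∂γ, (u j : ℂ → ℂ) z = ⟪kerH n z, u j⟫_ℂ := by
    intro j
    obtain ⟨g, hg, hg2⟩ := hu j
    have hL : MemLp g 2 γ := (memLp_congr_ae hg2).1 (Lp.memLp (u j))
    filter_upwards [hg2] with z hz
    rw [hz, inner_kerH, ← rep_fun hg hL z]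
    refine integral_congr_ae ?_
    filter_upwards [hg2] with w hw
    rw [hw]
  have hall : ∀ᵐ z ∂γ, ∀ j, (u j : ℂ → ℂ) z = ⟪kerH n z, u j⟫_ℂ := ae_all_iff.2 hrep
  refine ⟨_, proj_poly n (Lp.memLp f), ?_⟩
  filter_upwards [hae, hall] with z h1 h2
  have h3 : Tendsto (fun j => ⟪kerH n z, u (ns j)⟫_ℂ) atTop (𝓝 ⟪kerH n z, f⟫_ℂ) := by
    have h4 : Tendsto (fun j => u (ns j)) atTop (𝓝 f) := hlim.comp hns.tendsto_atTop
    exact (tendsto_const_nhds (x := kerH n z)).inner h4
  rw [← inner_kerH]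
  refine tendsto_nhds_unique h1 (h3.congr fun j => ?_)
  exact (h2 (ns j)).symm

theorem stmtC : StmtC := by
  intro n
  refine ⟨fock_closed n, fun z => ⟨kerH n z, kerH_mem n z, kerH_coe n z⟩, ?_⟩
  rintro f ⟨g, hg, hg2⟩
  have hL : MemLp g 2 γ := (memLp_congr_ae hg2).1 (Lp.memLp f)
  filter_upwards [hg2] with z hz
  rw [hz, ← rep_fun hg hL z]
  refine integral_congr_ae ?_
  filter_upwards [hg2] with w hw
  rw [hw]
  rfl

end

end Pool.Agent.R283.FT
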