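import Pool.Agent.R283.FT.Defs
import Pool.Agent.R283.PT.Mom
import Pool.Agent.H366R3.ED.Polar

/-!
# Part C, first half: Gaussian integrals and the reproducing property at the origin
-/

set_option autoImplicit false

open MeasureTheory Complex Set Metric Filter Topology
open scoped ComplexConjugate ENNReal InnerProductSpace

namespace Pool.Agent.R283.FT

noncomputable section

open Pool.Agent.H366R3.ED

/-- the Gaussian density -/
def dn (w : ℂ) : ℝ := Real.exp (-‖w‖ ^ 2) / Real.pi

lemma dn_pos (w : ℂ) : 0 < dn w := div_pos (Real.exp_pos _) Real.pi_pos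

lemma dn_cont : Continuous dn := by
  unfold dn; fun_prop

lemma integrable_γ_iff {E : Type} [NormedAddCommGroup E] [NormedSpace ℝ E] {F : ℂ → E} :
    Integrable F γ ↔ Integrable (fun w => dn w • F w) volume := by
  rw [γ, integrable_withDensity_iff_integrable_smul' measurable_dens
    (Eventually.of_forall fun z => ENNReal.ofReal_lt_top)]
  refine integrable_congr (Eventually.of_forall fun w => ?_)
  change (ENNReal.ofReal (dn w)).toReal • F w = dn w • F w
  rw [ENNReal.toReal_ofReal (dn_pos w).le]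

lemma integral_γ {E : Type} [NormedAddCommGroup E] [NormedSpace ℝ E] (F : ℂ → E) :
    ∫ w, F w ∂γ = ∫ w, dn w • F w := by
  rw [γ, integral_withDensity_eq_integral_toReal_smul measurable_dens
    (Eventually.of_forall fun z => ENNReal.ofReal_lt_top)]
  refine integral_congr_ae (Eventually.of_forall fun w => ?_)
  change (ENNReal.ofReal (dn w)).toReal • F w = dn w • F w
  rw [ENNReal.toReal_ofReal (dn_pos w).le]

lemma integrable_gauss {b : ℝ} (hb : 0 < b) :
    Integrable (fun z : ℂ => Real.exp (-b * ‖z‖ ^ 2)) := by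
  have h : ∫ z : ℂ, Real.exp (-b * ‖z‖ ^ 2) = (Real.pi / b) := by
    have := GaussianFourier.integral_rexp_neg_mul_sq_norm (V := ℂ) (b := b) hb
    rw [this]
    simp
  by_contra hc
  rw [integral_undef hc] at h
  have : 0 < Real.pi / b := div_pos Real.pi_pos hb
  linarith

lemma integrable_exp_γ (M : ℝ) : Integrable (fun w : ℂ => Real.exp (M * ‖w‖)) γ := by
  rw [integrable_γ_iff]
  refine Integrable.mono' ((integrable_gauss (b := 1 / 2) (by norm_num)).const_mul
    (Real.exp (M ^ 2 / 2) / Real.pi)) (Continuous.aestronglyMeasurable ?_)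
    (Eventually.of_forall fun w => ?_)
  · have := dn_cont
    fun_prop
  · rw [smul_eq_mul, Real.norm_of_nonneg (mul_nonneg (dn_pos w).le (Real.exp_pos _).le), dn,
      div_mul_eq_mul_div, div_mul_eq_mul_div, ← Real.exp_add, ← Real.exp_add]
    refine div_le_div_of_nonneg_right (Real.exp_le_exp.2 ?_) Real.pi_pos.le
    nlinarith [sq_nonneg (‖w‖ - M)]

/-- functions of exponential growth are in `L²(γ)` -/
lemma Mild.memLp {φ : ℂ → ℂ} (h : Mild φ) : MemLp φ 2 γ := by
  obtain ⟨hc, C, M, hb⟩ := h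
  rw [memLp_two_iff_integrable_sq_norm hc.aestronglyMeasurable]
  refine Integrable.mono' ((integrable_exp_γ (2 * M)).const_mul (C ^ 2))
    (Continuous.aestronglyMeasurable (by fun_prop)) (Eventually.of_forall fun w => ?_)
  rw [Real.norm_of_nonneg (by positivity)]
  have h1 := hb w
  have h2 : (C * Real.exp (M * ‖w‖)) ^ 2 = C ^ 2 * Real.exp (2 * M * ‖w‖) := by
    rw [mul_pow, ← Real.exp_nat_mul]
    congr 2
    push_cast; ring
  rw [← h2]
  exact pow_le_pow_left₀ (norm_nonneg _) h1 2

lemma Mild.cmul {φ ψ : ℂ → ℂ} (h : Mild φ) (k : Mild ψ) : Mild (fun w => φ w * ψ w) := by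
  obtain ⟨hc, C, M, hb⟩ := h
  obtain ⟨kc, C', M', kb⟩ := k
  refine ⟨hc.mul kc, C * C', M + M', fun w => ?_⟩
  rw [norm_mul]
  calc ‖φ w‖ * ‖ψ w‖ ≤ (C * Real.exp (M * ‖w‖)) * (C' * Real.exp (M' * ‖w‖)) :=
        mul_le_mul (hb w) (kb w) (norm_nonneg _) ((norm_nonneg _).trans (hb w))
    _ = C * C' * Real.exp ((M + M') * ‖w‖) := by rw [add_mul, Real.exp_add]; ring

lemma Mild.cconst (c : ℂ) : Mild (fun _ => c) :=
  ⟨continuous_const, ‖c‖, 0, fun w => by simp⟩

lemma Mild.cadd {φ ψ : ℂ → ℂ} (h : Mild φ) (k : Mild ψ) : Mild (fun w => φ w + ψ w) := by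
  obtain ⟨hc, C, M, hb⟩ := h
  obtain ⟨kc, C', M', kb⟩ := k
  have hC : 0 ≤ C := by
    have := (norm_nonneg _).trans (hb 0)
    simpa using this
  have hC' : 0 ≤ C' := by
    have := (norm_nonneg _).trans (kb 0)
    simpa using this
  refine ⟨hc.add kc, C + C', |M| + |M'|, fun w => ?_⟩
  have e1 : Real.exp (M * ‖w‖) ≤ Real.exp ((|M| + |M'|) * ‖w‖) := by
    refine Real.exp_le_exp.2 (mul_le_mul_of_nonneg_right ?_ (norm_nonneg _))
    linarith [le_abs_self M, abs_nonneg M']
  have e2 : Real.exp (M' * ‖w‖) ≤ Real.exp ((|M| + |M'|) * ‖w‖) := by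
    refine Real.exp_le_exp.2 (mul_le_mul_of_nonneg_right ?_ (norm_nonneg _))
    linarith [le_abs_self M', abs_nonneg M]
  calc ‖φ w + ψ w‖ ≤ ‖φ w‖ + ‖ψ w‖ := norm_add_le _ _
    _ ≤ C * Real.exp (M * ‖w‖) + C' * Real.exp (M' * ‖w‖) := add_le_add (hb w) (kb w)
    _ ≤ C * Real.exp ((|M| + |M'|) * ‖w‖) + C' * Real.exp ((|M| + |M'|) * ‖w‖) :=
        add_le_add (mul_le_mul_of_nonneg_left e1 hC) (mul_le_mul_of_nonneg_left e2 hC')
    _ = (C + C') * Real.exp ((|M| + |M'|) * ‖w‖) := by ring

lemma Mild.id : Mild (fun w => w) :=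
  ⟨continuous_id, 1, 1, fun w => by
    rw [one_mul, one_mul]
    have := Real.add_one_le_exp ‖w‖
    linarith⟩

lemma Mild.conj' : Mild (fun w => conj w) :=
  ⟨Complex.continuous_conj, 1, 1, fun w => by
    rw [one_mul, one_mul, RCLike.norm_conj]
    have := Real.add_one_le_exp ‖w‖
    linarith⟩

lemma Mild.cexp (z : ℂ) : Mild (fun w => Complex.exp (w * z)) :=
  ⟨by fun_prop, 1, ‖z‖, fun w => by
    rw [one_mul, Complex.norm_exp]
    refine Real.exp_le_exp.2 ((Complex.re_le_norm _).trans ?_)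
    rw [norm_mul, mul_comm]⟩

lemma Mild.cexp' (z : ℂ) : Mild (fun w => Complex.exp (conj w * z)) :=
  ⟨by fun_prop, 1, ‖z‖, fun w => by
    rw [one_mul, Complex.norm_exp]
    refine Real.exp_le_exp.2 ((Complex.re_le_norm _).trans ?_)
    rw [norm_mul, RCLike.norm_conj, mul_comm]⟩

lemma Mild.pow {φ : ℂ → ℂ} (h : Mild φ) (k : ℕ) : Mild (fun w => φ w ^ k) := by
  induction k with
  | zero => simpa using Mild.cconst 1
  | succ k ih => simpa only [pow_succ] using ih.cmul h

lemma Mild.csum {ι : Type} (s : Finset ι) {φ : ι → ℂ → ℂ} (h : ∀ i ∈ s, Mild (φ i)) :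
    Mild (fun w => ∑ i ∈ s, φ i w) := by
  classical
  induction s using Finset.induction_on with
  | empty => simpa using Mild.cconst 0
  | insert a s ha ih =>
    simp only [Finset.sum_insert ha]
    exact (h a (Finset.mem_insert_self _ _)).cadd
      (ih fun i hi => h i (Finset.mem_insert_of_mem hi))

/-- circle averages of `conj z ^ k * h z` -/
lemma ca_conj_pow (k : ℕ) : ∀ h : ℂ → ℂ, Differentiable ℂ h → ∃ a : ℂ, (k = 0 → a = h 0) ∧
    ∀ r : ℝ, 0 < r → Real.circleAverage (fun z => conj z ^ k * h z) 0 r = ((r ^ 2) ^ k : ℝ) * a := by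
  induction k with
  | zero =>
    intro h hh
    refine ⟨h 0, fun _ => rfl, fun r hr => ?_⟩
    simp only [pow_zero, one_mul, Complex.ofReal_one]
    exact hh.diffContOnCl.circleAverage
  | succ k ih =>
    intro h hh
    have hd : Differentiable ℂ (dslope h 0) := by
      rw [← differentiableOn_univ]
      exact (Complex.differentiableOn_dslope univ_mem).2 hh.differentiableOn
    obtain ⟨a, -, ha⟩ := ih (dslope h 0) hd
    refine ⟨a, fun h0 => absurd h0 (Nat.succ_ne_zero k), fun r hr => ?_⟩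
    have e1 : Real.circleAverage (fun z => conj z ^ (k + 1) * h z) 0 r =
        Real.circleAverage (fun z => h 0 • conj (z ^ (k + 1)) +
          ((r ^ 2 : ℝ) : ℂ) • (conj z ^ k * dslope h 0 z)) 0 r := by
      refine Real.circleAverage_congr_sphere fun z hz => ?_
      have hz' : ‖z‖ = r := by
        rw [mem_sphere_zero_iff_norm, abs_of_pos hr] at hz
        exact hz
      have h1 : h z = h 0 + z * dslope h 0 z := by
        have := sub_smul_dslope h 0 z
        rw [sub_zero, smul_eq_mul] at this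
        rw [this]; ring
      have h2 : ((r ^ 2 : ℝ) : ℂ) = conj z * z := by
        rw [← hz', mul_comm, Complex.mul_conj, Complex.normSq_eq_norm_sq]
      simp only [smul_eq_mul]
      rw [h2, h1, map_pow]
      ring
    have hc1 : Continuous (fun z : ℂ => h 0 • conj (z ^ (k + 1))) := by fun_prop
    have hc2 : Continuous (fun z : ℂ => ((r ^ 2 : ℝ) : ℂ) • (conj z ^ k * dslope h 0 z)) := by
      have := hd.continuous
      fun_prop
    rw [e1, Real.circleAverage_fun_add hc1.continuousOn.circleIntegrable'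
      hc2.continuousOn.circleIntegrable', Real.circleAverage_fun_smul,
      Real.circleAverage_fun_smul, ha r hr]
    have e2 : Real.circleAverage (fun z : ℂ => conj (z ^ (k + 1))) 0 r = 0 := by
      have h3 : Real.circleAverage (fun z : ℂ => z ^ (k + 1)) 0 r = 0 := by
        have : Differentiable ℂ (fun z : ℂ => z ^ (k + 1)) := by fun_prop
        rw [this.diffContOnCl.circleAverage]
        simp
      have h4 := ContinuousLinearMap.circleAverage_comp_comm
        (Complex.conjCLE : ℂ →L[ℝ] ℂ) (f := fun z : ℂ => z ^ (k + 1)) (c := 0) (R := r)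
        (Continuous.continuousOn (by fun_prop)).circleIntegrable'
      rw [h3, map_zero] at h4
      exact h4
    rw [e2]
    simp only [smul_eq_mul, mul_zero, zero_add]
    push_cast
    ring

/-- polar coordinates -/
lemma polar_full {F : ℂ → ℂ} (hc : Continuous F) (hi : Integrable F volume) :
    ∫ z, F z = ∫ r in Ioi (0 : ℝ), (2 * Real.pi * r) • Real.circleAverage F 0 r := by
  have hcc : Continuous (fun p : ℝ × ℝ => p.1 • F (circleMap 0 p.1 p.2)) :=
    continuous_fst.smul (hc.comp circleMap_cont)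
  have hint : IntegrableOn (fun p : ℝ × ℝ => p.1 • F (circleMap 0 p.1 p.2))
      (Ioi (0 : ℝ) ×ˢ Ioo (-Real.pi) Real.pi) (volume.prod volume) := by
    refine ⟨hcc.aestronglyMeasurable, ?_⟩
    have h1 := hi.2
    rw [HasFiniteIntegral, ← Complex.lintegral_comp_polarCoord_symm, polarCoord_target] at h1
    rw [HasFiniteIntegral]
    refine lt_of_le_of_lt (le_of_eq ?_) h1
    rw [Measure.volume_eq_prod]
    apply setLIntegral_congr_fun (measurableSet_Ioi.prod measurableSet_Ioo)
    intro p hp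
    have h0 : 0 ≤ p.1 := (mem_Ioi.1 hp.1).le
    beta_reduce
    rw [enorm_smul, Real.enorm_eq_ofReal h0, polar_symm]
    rfl
  rw [← Complex.integral_comp_polarCoord_symm, polarCoord_target]
  simp_rw [polar_symm]
  rw [Measure.volume_eq_prod, setIntegral_prod _ hint]
  congr 1
  funext r
  rw [integral_smul, avg_eq, smul_smul, mul_comm r]

lemma radial_int (m : ℕ) : ∫ r in Ioi (0 : ℝ), 2 * r * (r ^ 2) ^ m * Real.exp (-r ^ 2) =
    (m.factorial : ℝ) := by
  have h := _root_.integral_rpow_mul_exp_neg_rpow (p := 2) (q := 2 * m + 1) (by norm_num)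
    (by have : (0 : ℝ) ≤ m := Nat.cast_nonneg m; linarith)
  have e : (2 * (m : ℝ) + 1 + 1) / 2 = m + 1 := by ring
  rw [e, Real.Gamma_nat_eq_factorial] at h
  have h2 : ∫ r in Ioi (0 : ℝ), 2 * r * (r ^ 2) ^ m * Real.exp (-r ^ 2) =
      ∫ r in Ioi (0 : ℝ), 2 * (r ^ (2 * (m : ℝ) + 1) * Real.exp (-r ^ (2 : ℝ))) := by
    refine setIntegral_congr_fun measurableSet_Ioi fun r hr => ?_
    have hr0 : (0 : ℝ) < r := hr
    have e1 : r ^ (2 * (m : ℝ) + 1) = r ^ (2 * m + 1) := by
      rw [← Real.rpow_natCast]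
      push_cast; rfl
    have e2 : r ^ (2 : ℝ) = r ^ 2 := by
      rw [← Real.rpow_natCast]; rfl
    beta_reduce
    rw [e1, e2]
    ring
  rw [h2, integral_const_mul, h]
  ring

lemma radial_integrable (m : ℕ) :
    IntegrableOn (fun r : ℝ => 2 * r * (r ^ 2) ^ m * Real.exp (-r ^ 2)) (Ioi 0) := by
  by_contra hc
  have h := radial_int m
  rw [integral_undef hc] at h
  have : (0 : ℝ) < m.factorial := by positivity
  linarith

/-- coefficients of the Laguerre polynomial -/
def cj (n j : ℕ) : ℝ := (-1) ^ j * (n.choose (j + 1) : ℝ) / (j.factorial : ℝ)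

lemma cj_moment {n k : ℕ} (hk : k < n) :
    ∑ j ∈ Finset.range n, cj n j * ((k + j).factorial : ℝ) = if k = 0 then 1 else 0 := by
  have h1 : ∀ j ∈ Finset.range n, cj n j * ((k + j).factorial : ℝ) =
      (k.factorial : ℝ) * ((-1) ^ j * (n.choose (j + 1) : ℝ) * ((k + j).choose k : ℝ)) := by
    intro j _
    rw [cj, Nat.cast_choose ℝ (Nat.le_add_right k j), Nat.add_sub_cancel_left]
    have f1 : (k.factorial : ℝ) ≠ 0 := by positivity
    have f2 : (j.factorial : ℝ) ≠ 0 := by positivity
    field_simp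
  rw [Finset.sum_congr rfl h1, ← Finset.mul_sum]
  split_ifs with h0
  · subst h0
    simp only [Nat.factorial_zero, Nat.cast_one, one_mul, Nat.choose_zero_right, mul_one]
    have h2 := Int.alternating_sum_range_choose_of_ne (n := n) (by omega)
    rw [Finset.sum_range_succ'] at h2
    have h3 := congrArg (Int.cast : ℤ → ℝ) h2
    push_cast at h3
    simp only [pow_succ, mul_neg, mul_one, neg_mul, Finset.sum_neg_distrib,
      Nat.choose_zero_right, Nat.cast_one] at h3
    linarith
  · obtain ⟨l, rfl⟩ := Nat.exists_eq_succ_of_ne_zero h0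
    have h2 := Pool.Agent.R283.PT.alt_choose_real n l (l + 1)
    rw [if_neg (by omega), Finset.sum_range_succ'] at h2
    simp only [add_zero, Nat.choose_succ_self, Nat.cast_zero, mul_zero] at h2
    have h3 : ∑ j ∈ Finset.range n, (-1 : ℝ) ^ j * (n.choose (j + 1) : ℝ) *
        ((l.succ + j).choose l.succ : ℝ) = (-1) ^ (n + 1) *
        ∑ i ∈ Finset.range n, (-1 : ℝ) ^ (n + (i + 1)) * (n.choose (i + 1) : ℝ) *
        ((l + (i + 1)).choose (l + 1) : ℝ) := by
      rw [Finset.mul_sum]
      refine Finset.sum_congr rfl fun j _ => ?_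
      rw [show l.succ + j = l + (j + 1) by omega]
      have : (-1 : ℝ) ^ j = (-1) ^ (n + 1) * (-1) ^ (n + (j + 1)) := by
        rw [← pow_add, show n + 1 + (n + (j + 1)) = j + 2 * (n + 1) by ring, pow_add, pow_mul]
        simp
      rw [this]
      simp only [Nat.succ_eq_add_one]
      ring
    rw [h3, h2]
    ring

lemma Kn_norm (n : ℕ) (w : ℂ) : Kn n w = ((∑ j ∈ Finset.range n, cj n j * (‖w‖ ^ 2) ^ j : ℝ) : ℂ) := by
  unfold Kn
  push_cast
  refine Finset.sum_congr rfl fun j _ => ?_
  rw [Complex.mul_conj, Complex.normSq_eq_norm_sq, cj]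
  push_cast
  ring

lemma Kn_conj (n : ℕ) (w : ℂ) : conj (Kn n w) = Kn n w := by
  rw [Kn_norm, Complex.conj_ofReal]

lemma Kn_mild (n : ℕ) (z : ℂ) : Mild (fun w => Kn n (w - z)) := by
  unfold Kn
  refine Mild.csum _ fun j _ => (Mild.cconst _).cmul (Mild.pow ?_ j)
  have h1 : Mild (fun w => w - z) := by simpa [sub_eq_add_neg] using Mild.id.cadd (Mild.cconst (-z))
  have h2 : Mild (fun w => conj (w - z)) := by
    simpa [sub_eq_add_neg] using Mild.conj'.cadd (Mild.cconst (-conj z))
  exact h1.cmul h2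

/-- the reproducing property at the origin -/
theorem rep_zero {n : ℕ} {G : ℂ → ℂ} (hG : IsPolyC n G)
    (hi : Integrable (fun w => G w * Kn n w) γ) : ∫ w, G w * Kn n w ∂γ = G 0 := by
  obtain ⟨h, hh, hh2⟩ := hG
  have hGc : Continuous G := by
    have : G = fun z => ∑ k ∈ Finset.range n, conj z ^ k * h k z := funext hh2
    rw [this]
    refine continuous_finsetSum _ fun k _ => ?_
    exact (Complex.continuous_conj.pow k).mul (hh k).continuous
  have hKc : Continuous (Kn n) := by
    have := (Kn_mild n 0).1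
    simpa using this
  choose a ha0 ha using fun k => ca_conj_pow k (h k) (hh k)
  rw [integrable_γ_iff] at hi
  rw [integral_γ, polar_full (F := fun w => dn w • (G w * Kn n w))
    (dn_cont.smul (hGc.mul hKc)) hi]
  have key : ∀ r ∈ Ioi (0 : ℝ), (2 * Real.pi * r) •
      Real.circleAverage (fun w => dn w • (G w * Kn n w)) 0 r =
      ∑ k ∈ Finset.range n, ∑ j ∈ Finset.range n,
        ((2 * r * (r ^ 2) ^ (k + j) * Real.exp (-r ^ 2) : ℝ) : ℂ) * ((cj n j : ℝ) * a k) := by
    intro r hr
    have hr0 : (0 : ℝ) < r := hr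
    have e1 : Real.circleAverage (fun w => dn w • (G w * Kn n w)) 0 r =
        Real.circleAverage (fun w => (((Real.exp (-r ^ 2) / Real.pi) *
          (∑ j ∈ Finset.range n, cj n j * (r ^ 2) ^ j) : ℝ) : ℂ) •
          (∑ k ∈ Finset.range n, conj w ^ k * h k w)) 0 r := by
      refine Real.circleAverage_congr_sphere fun z hz => ?_
      have hz' : ‖z‖ = r := by
        rw [mem_sphere_zero_iff_norm, abs_of_pos hr0] at hz
        exact hz
      beta_reduce
      rw [Kn_norm, hz', hh2 z, dn, hz', Complex.real_smul, smul_eq_mul]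
      push_cast
      ring
    have e2 : Real.circleAverage (fun w => (∑ k ∈ Finset.range n, conj w ^ k * h k w)) 0 r =
        ∑ k ∈ Finset.range n, ((r ^ 2) ^ k : ℝ) * a k := by
      rw [Real.circleAverage_fun_sum]
      · exact Finset.sum_congr rfl fun k _ => ha k r hr0
      · intro k _
        refine ContinuousOn.circleIntegrable' (Continuous.continuousOn ?_)
        exact (Complex.continuous_conj.pow k).mul (hh k).continuous
    rw [e1, Real.circleAverage_fun_smul, e2]
    rw [Complex.real_smul, smul_eq_mul]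
    have hpi : (Real.pi : ℂ) ≠ 0 := by exact_mod_cast Real.pi_ne_zero
    push_cast
    rw [mul_assoc (Complex.exp _ / _), Finset.sum_mul_sum, Finset.sum_comm]
    simp only [Finset.mul_sum]
    refine Finset.sum_congr rfl fun k _ => Finset.sum_congr rfl fun j _ => ?_
    rw [pow_add]
    field_simp
  rw [setIntegral_congr_fun measurableSet_Ioi key]
  have hint : ∀ k j : ℕ, IntegrableOn (fun r : ℝ =>
      ((2 * r * (r ^ 2) ^ (k + j) * Real.exp (-r ^ 2) : ℝ) : ℂ) * ((cj n j : ℝ) * a k)) (Ioi 0) := by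
    intro k j
    exact ((radial_integrable (k + j)).ofReal).mul_const _
  rw [integral_finsetSum _ fun k _ => integrable_finsetSum _ fun j _ => hint k j]
  have h3 : ∀ k ∈ Finset.range n, ∫ r in Ioi (0 : ℝ), ∑ j ∈ Finset.range n,
      ((2 * r * (r ^ 2) ^ (k + j) * Real.exp (-r ^ 2) : ℝ) : ℂ) * ((cj n j : ℝ) * a k) =
      (if k = 0 then 1 else 0) * a k := by
    intro k hk
    rw [integral_finsetSum _ fun j _ => hint k j]
    have h4 : ∀ j ∈ Finset.range n, ∫ r in Ioi (0 : ℝ),
        ((2 * r * (r ^ 2) ^ (k + j) * Real.exp (-r ^ 2) : ℝ) : ℂ) * ((cj n j : ℝ) * a k) =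
        ((cj n j * ((k + j).factorial : ℝ) : ℝ) : ℂ) * a k := by
      intro j _
      rw [integral_mul_const, integral_complex_ofReal, radial_int]
      push_cast
      ring
    rw [Finset.sum_congr rfl h4, ← Finset.sum_mul, ← Complex.ofReal_sum,
      cj_moment (Finset.mem_range.1 hk)]
    split_ifs <;> simp
  rw [Finset.sum_congr rfl h3, hh2 0]
  refine Finset.sum_congr rfl fun k _ => ?_
  by_cases hk : k = 0
  · subst hk
    rw [ha0 0 rfl]
    simp
  · simp [hk]

end

end Pool.Agent.R283.FT
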