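import Pool.Agent.R283.FT.Defs

/-!
Part D: density of trigonometric polynomials times `K₀` in a weighted `L¹` space.
-/

set_option autoImplicit false

open MeasureTheory Complex Set Metric Filter Topology
open scoped ComplexConjugate ENNReal InnerProductSpace

namespace Pool.Agent.R283.FT

noncomputable section

lemma d_ch_norm (ξ w : ℂ) : ‖ch ξ w‖ = 1 := by
  unfold ch
  rw [mul_comm]
  exact Complex.norm_exp_ofReal_mul_I _

lemma d_ch_cont (ξ : ℂ) : Continuous (ch ξ) := by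
  unfold ch
  fun_prop

lemma d_ch_conj (ξ w : ℂ) : conj (ch ξ w) = ch (-ξ) w := by
  unfold ch
  rw [← Complex.exp_conj]
  congr 1
  simp
  ring

lemma d_ch_inner (ξ w : ℂ) : Complex.exp (⟪w, ξ⟫_ℝ * Complex.I) = ch ξ w := by
  unfold ch
  rw [Complex.inner, mul_comm]
  congr 3
  simp [Complex.mul_re]
  ring

lemma d_inj_real (g : ℂ → ℝ) (hg : Integrable g)
    (h : ∀ ξ, ∫ w, (g w : ℂ) * ch ξ w = 0) : g =ᵐ[volume] 0 := by
  have hneg : Integrable (fun w => -g w) := hg.neg
  have := isFiniteMeasure_withDensity_ofReal hg.2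
  have := isFiniteMeasure_withDensity_ofReal hneg.2
  have hcf : ∀ (f : ℂ → ℝ), Integrable f → ∀ ξ,
      charFun ((volume : Measure ℂ).withDensity (fun w => ENNReal.ofReal (f w))) ξ
        = ∫ w, ((max (f w) 0 : ℝ) : ℂ) * ch ξ w := by
    intro f hf ξ
    rw [charFun_apply, integral_withDensity_eq_integral_toReal_smul₀
      hf.aestronglyMeasurable.aemeasurable.ennreal_ofReal
      (Eventually.of_forall fun w => ENNReal.ofReal_lt_top)]
    congr 1
    funext w
    rw [d_ch_inner, ENNReal.toReal_ofReal']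
    simp
  have hint : ∀ (f : ℂ → ℝ), Integrable f → ∀ ξ,
      Integrable (fun w => ((max (f w) 0 : ℝ) : ℂ) * ch ξ w) := by
    intro f hf ξ
    have h1 : Integrable (fun w => ((max (f w) 0 : ℝ) : ℂ)) := (hf.pos_part).ofReal
    exact h1.mul_bdd (c := 1) (d_ch_cont ξ).aestronglyMeasurable
      (Eventually.of_forall fun w => (d_ch_norm ξ w).le)
  have heq : (volume : Measure ℂ).withDensity (fun w => ENNReal.ofReal (g w))
      = (volume : Measure ℂ).withDensity (fun w => ENNReal.ofReal (-g w)) := by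
    apply Measure.ext_of_charFun
    funext ξ
    rw [hcf g hg ξ, hcf _ hneg ξ, ← sub_eq_zero, ← integral_sub (hint g hg ξ) (hint _ hneg ξ),
      ← h ξ]
    congr 1
    funext w
    rw [← sub_mul]
    congr 1
    rw [← Complex.ofReal_sub]
    congr 1
    rcases le_total (g w) 0 with hw | hw
    · rw [max_eq_right hw, max_eq_left (by linarith)]
      ring
    · rw [max_eq_left hw, max_eq_right (by linarith)]
      ring
  rw [withDensity_eq_iff hg.aestronglyMeasurable.aemeasurable.ennreal_ofReal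
    hneg.aestronglyMeasurable.aemeasurable.ennreal_ofReal] at heq
  · filter_upwards [heq] with w hw
    rcases le_total (g w) 0 with h1 | h1
    · rw [ENNReal.ofReal_of_nonpos h1] at hw
      have := ENNReal.ofReal_eq_zero.mp hw.symm
      simp only [Pi.zero_apply]
      linarith
    · rw [ENNReal.ofReal_of_nonpos (show -g w ≤ 0 by linarith)] at hw
      have := ENNReal.ofReal_eq_zero.mp hw
      simp only [Pi.zero_apply]
      linarith
  · have := hg.lintegral_lt_top
    exact this.ne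

lemma d_inj (G : ℂ → ℂ) (hG : Integrable G) (h : ∀ ξ, ∫ w, G w * ch ξ w = 0) :
    G =ᵐ[volume] 0 := by
  have hconj : ∀ ξ, ∫ w, conj (G w) * ch ξ w = 0 := by
    intro ξ
    have h1 := h (-ξ)
    have h2 : ∫ w, conj (G w * ch (-ξ) w) = 0 := by
      rw [integral_conj, h1, map_zero]
    rw [← h2]
    congr 1
    funext w
    rw [map_mul, d_ch_conj, neg_neg]
  have hint : ∀ ξ, Integrable (fun w => G w * ch ξ w) := fun ξ =>
    hG.mul_bdd (c := 1) (d_ch_cont ξ).aestronglyMeasurable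
      (Eventually.of_forall fun w => (d_ch_norm ξ w).le)
  have hGc : Integrable (fun w => conj (G w)) := by
    have := (Complex.conjCLE.integrable_comp_iff).mpr hG
    exact this
  have hint2 : ∀ ξ, Integrable (fun w => conj (G w) * ch ξ w) := fun ξ =>
    hGc.mul_bdd (c := 1) (d_ch_cont ξ).aestronglyMeasurable
      (Eventually.of_forall fun w => (d_ch_norm ξ w).le)
  have hre := d_inj_real (fun w => (G w).re) hG.re (fun ξ => by
    have e : ∀ w, (((G w).re : ℝ) : ℂ) * ch ξ w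
        = (1 / 2) * (G w * ch ξ w + conj (G w) * ch ξ w) := by
      intro w
      rw [Complex.re_eq_add_conj]
      ring
    simp_rw [e]
    rw [integral_const_mul, integral_add (hint ξ) (hint2 ξ), h ξ, hconj ξ]
    simp)
  have him := d_inj_real (fun w => (G w).im) hG.im (fun ξ => by
    have e : ∀ w, (((G w).im : ℝ) : ℂ) * ch ξ w
        = (1 / (2 * Complex.I)) * (G w * ch ξ w - conj (G w) * ch ξ w) := by
      intro w
      rw [Complex.im_eq_sub_conj]
      ring
    simp_rw [e]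
    rw [integral_const_mul, integral_sub (hint ξ) (hint2 ξ), h ξ, hconj ξ]
    simp)
  filter_upwards [hre, him] with w h1 h2
  apply Complex.ext
  · exact h1
  · exact h2

/-- the weight -/
def dm (w : ℂ) : ℝ := (1 + ‖w‖ ^ 2) * Real.exp (-‖w‖ ^ 2 / 2)

lemma dm_pos (w : ℂ) : 0 < dm w := by
  unfold dm
  positivity

lemma dm_cont : Continuous dm := by
  unfold dm
  fun_prop

lemma d_gauss : Integrable (fun z : ℂ => Real.exp (-‖z‖ ^ 2 / 2)) := by
  have h : ∫ z : ℂ, Real.exp (-(1 / 2) * ‖z‖ ^ 2) = Real.pi / (1 / 2) := by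
    have := GaussianFourier.integral_rexp_neg_mul_sq_norm (V := ℂ) (b := 1 / 2) (by norm_num)
    rw [this]
    simp
  have hi : Integrable (fun z : ℂ => Real.exp (-(1 / 2) * ‖z‖ ^ 2)) := by
    by_contra hc
    rw [integral_undef hc] at h
    have := Real.pi_pos
    have h2 : 0 < Real.pi / (1 / 2) := by positivity
    linarith
  refine hi.congr (Eventually.of_forall fun z => ?_)
  beta_reduce
  congr 1
  ring

lemma d_mild_memLp {φ : ℂ → ℂ} (hφ : Mild φ) :
    MemLp (fun w => φ w * (dm w : ℂ)) 2 (volume : Measure ℂ) := by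
  obtain ⟨hc, C, M, hb⟩ := hφ
  have hcont : Continuous (fun w => φ w * (dm w : ℂ)) :=
    hc.mul (Complex.continuous_ofReal.comp dm_cont)
  have hC : 0 ≤ C := by
    have h1 := hb 0
    have h2 : 0 < Real.exp (M * ‖(0 : ℂ)‖) := Real.exp_pos _
    have h3 := norm_nonneg (φ 0)
    by_contra hcon
    rw [not_le] at hcon
    have := mul_neg_of_neg_of_pos hcon h2
    linarith
  have hg : MemLp (fun w : ℂ => C * 8 * Real.exp (2 * M ^ 2) * Real.exp (-‖w‖ ^ 2 / 4)) 2
      (volume : Measure ℂ) := by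
    refine MemLp.const_mul ?_ _
    rw [memLp_two_iff_integrable_sq (by fun_prop)]
    refine d_gauss.congr (Eventually.of_forall fun z => ?_)
    beta_reduce
    rw [← Real.exp_nat_mul]
    congr 1
    push_cast
    ring
  refine MemLp.mono' hg hcont.aestronglyMeasurable (Eventually.of_forall fun w => ?_)
  rw [norm_mul, Complex.norm_real, Real.norm_eq_abs, abs_of_pos (dm_pos w)]
  set t := ‖w‖ with ht
  have h1 : 1 + t ^ 2 ≤ 8 * Real.exp (t ^ 2 / 8) := by
    have := Real.add_one_le_exp (t ^ 2 / 8)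
    have h0 : 0 ≤ t ^ 2 := sq_nonneg t
    linarith
  have h2 : Real.exp (M * t) ≤ Real.exp (2 * M ^ 2) * Real.exp (t ^ 2 / 8) := by
    rw [← Real.exp_add]
    apply Real.exp_le_exp.mpr
    nlinarith [sq_nonneg (t - 4 * M)]
  have h3 : dm w = (1 + t ^ 2) * Real.exp (-t ^ 2 / 2) := rfl
  have h4 : Real.exp (t ^ 2 / 8) * Real.exp (t ^ 2 / 8) * Real.exp (-t ^ 2 / 2)
      = Real.exp (-t ^ 2 / 4) := by
    rw [← Real.exp_add, ← Real.exp_add]
    congr 1
    ring
  calc ‖φ w‖ * dm w ≤ (C * Real.exp (M * t)) * ((1 + t ^ 2) * Real.exp (-t ^ 2 / 2)) := by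
        rw [h3]
        exact mul_le_mul_of_nonneg_right (hb w) (by positivity)
    _ ≤ (C * (Real.exp (2 * M ^ 2) * Real.exp (t ^ 2 / 8))) *
          ((8 * Real.exp (t ^ 2 / 8)) * Real.exp (-t ^ 2 / 2)) := by
        gcongr
    _ = C * 8 * Real.exp (2 * M ^ 2) *
          (Real.exp (t ^ 2 / 8) * Real.exp (t ^ 2 / 8) * Real.exp (-t ^ 2 / 2)) := by ring
    _ = _ := by rw [h4]

lemma d_mild_ch {K₀ : ℂ → ℂ} (hK : Mild K₀) (ξ : ℂ) : Mild (fun w => ch ξ w * K₀ w) := by
  obtain ⟨hc, C, M, hb⟩ := hK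
  refine ⟨(d_ch_cont ξ).mul hc, C, M, fun w => ?_⟩
  rw [norm_mul, d_ch_norm, one_mul]
  exact hb w

lemma d_weight : MemLp (fun w : ℂ => (1 + ‖w‖ ^ 2)⁻¹) 2 (volume : Measure ℂ) := by
  rw [memLp_two_iff_integrable_sq]
  · have h1 : Integrable (fun x : ℂ => (1 + ‖x‖) ^ (-(3 : ℝ))) :=
      integrable_one_add_norm (by simp; norm_num)
    refine (h1.const_mul 8).mono' ?_ (Eventually.of_forall fun w => ?_)
    · apply Continuous.aestronglyMeasurable
      have : ∀ w : ℂ, 1 + ‖w‖ ^ 2 ≠ 0 := fun w => by positivity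
      fun_prop (disch := assumption)
    · rw [Real.norm_eq_abs, abs_of_nonneg (by positivity)]
      have ht : 0 ≤ ‖w‖ := norm_nonneg w
      rw [Real.rpow_neg (by positivity)]
      have e3 : (1 + ‖w‖) ^ (3 : ℝ) = (1 + ‖w‖) ^ 3 := by
        rw [← Real.rpow_natCast]
        norm_num
      rw [e3, inv_pow, ← div_eq_mul_inv, inv_eq_one_div, div_le_div_iff₀ (by positivity) (by positivity)]
      nlinarith [sq_nonneg (‖w‖ - 1), mul_nonneg ht ht, mul_nonneg (mul_nonneg ht ht) ht,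
        sq_nonneg (‖w‖ ^ 2 - ‖w‖), sq_nonneg (‖w‖ ^ 2)]
  · apply Continuous.aestronglyMeasurable
    have : ∀ w : ℂ, 1 + ‖w‖ ^ 2 ≠ 0 := fun w => by positivity
    fun_prop (disch := assumption)

/-- Cauchy-Schwarz with the weight -/
lemma d_cs : ∃ W : ℝ, 0 ≤ W ∧ ∀ d : Lp ℂ 2 (volume : Measure ℂ),
    ∫ w : ℂ, ‖(d : ℂ → ℂ) w‖ * (1 + ‖w‖ ^ 2)⁻¹ ≤ ‖d‖ * W := by
  refine ⟨(∫ w : ℂ, ((1 + ‖w‖ ^ 2)⁻¹) ^ (2 : ℝ)) ^ (1 / 2 : ℝ), by positivity, fun d => ?_⟩
  have h1 := integral_mul_le_Lp_mul_Lq_of_nonneg (μ := (volume : Measure ℂ))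
    (p := 2) (q := 2) Real.HolderConjugate.two_two
    (f := fun w : ℂ => ‖(d : ℂ → ℂ) w‖) (g := fun w : ℂ => (1 + ‖w‖ ^ 2)⁻¹)
    (Eventually.of_forall fun w => norm_nonneg _)
    (Eventually.of_forall fun w => by simp only [Pi.zero_apply]; positivity)
    (by
      have := (Lp.memLp d).norm
      simpa using this)
    (by
      have := d_weight
      simpa using this)
  refine h1.trans (le_of_eq ?_)
  congr 1
  have h2 : ‖d‖ ^ 2 = ∫ w : ℂ, ‖(d : ℂ → ℂ) w‖ ^ (2 : ℝ) := by
    have h3 := @inner_self_eq_norm_sq ℂ _ _ _ _ d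
    rw [← h3, L2.inner_def]
    have h4 : ∫ w : ℂ, ⟪(d : ℂ → ℂ) w, (d : ℂ → ℂ) w⟫_ℂ
        = ((∫ w : ℂ, ‖(d : ℂ → ℂ) w‖ ^ (2 : ℝ) : ℝ) : ℂ) := by
      rw [← integral_complex_ofReal]
      congr 1
      funext w
      rw [inner_self_eq_norm_sq_to_K]
      norm_cast
    rw [h4]
    simp
  rw [← h2, ← Real.sqrt_eq_rpow, Real.sqrt_sq (norm_nonneg d)]

theorem stmtD : StmtD := by
  intro K₀ φ hK hφ hne ε hε
  set u : ℂ → Lp ℂ 2 (volume : Measure ℂ) := fun ξ => (d_mild_memLp (d_mild_ch hK ξ)).toLp _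
    with hu
  set v : Lp ℂ 2 (volume : Measure ℂ) := (d_mild_memLp hφ).toLp _ with hv
  have hu' : ∀ ξ, (u ξ : ℂ → ℂ) =ᵐ[volume] fun w => ch ξ w * K₀ w * (dm w : ℂ) := fun ξ =>
    MemLp.coeFn_toLp _
  have hv' : (v : ℂ → ℂ) =ᵐ[volume] fun w => φ w * (dm w : ℂ) := MemLp.coeFn_toLp _
  -- density
  have hdense : (Submodule.span ℂ (Set.range u)).topologicalClosure = ⊤ := by
    rw [Submodule.topologicalClosure_eq_top_iff, Submodule.eq_bot_iff]
    intro g hg
    rw [Submodule.mem_orthogonal] at hg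
    have h1 : ∀ ξ, ∫ w, (conj (K₀ w) * (dm w : ℂ) * (g : ℂ → ℂ) w) * ch ξ w = 0 := by
      intro ξ
      have h2 := hg (u (-ξ)) (Submodule.subset_span ⟨-ξ, rfl⟩)
      rw [L2.inner_def] at h2
      rw [← h2]
      apply integral_congr_ae
      filter_upwards [hu' (-ξ)] with w hw
      rw [hw, RCLike.inner_apply]
      simp only [map_mul, d_ch_conj, neg_neg, Complex.conj_ofReal]
      ring
    have h3 : Integrable (fun w => conj (K₀ w) * (dm w : ℂ) * (g : ℂ → ℂ) w) := by
      have h4 : MemLp (fun w => conj (K₀ w) * (dm w : ℂ)) 2 (volume : Measure ℂ) := by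
        refine MemLp.of_le (d_mild_memLp hK) ?_ (Eventually.of_forall fun w => ?_)
        · have : Continuous (fun w => conj (K₀ w) * (dm w : ℂ)) :=
            (Complex.continuous_conj.comp hK.1).mul (Complex.continuous_ofReal.comp dm_cont)
          exact this.aestronglyMeasurable
        · simp
      exact h4.integrable_mul (Lp.memLp g)
    have h5 := d_inj _ h3 h1
    rw [Lp.eq_zero_iff_ae_eq_zero]
    filter_upwards [h5, hne] with w hw hw2
    simp only [Pi.zero_apply] at hw ⊢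
    have h6 : conj (K₀ w) * (dm w : ℂ) ≠ 0 := by
      refine mul_ne_zero ?_ ?_
      · intro hc
        apply hw2
        have := congrArg conj hc
        simpa using this
      · exact_mod_cast (dm_pos w).ne'
    exact (mul_eq_zero.mp hw).resolve_left h6
  obtain ⟨W, hW0, hW⟩ := d_cs
  have hmem : v ∈ closure ((Submodule.span ℂ (Set.range u) : Submodule ℂ _) : Set _) := by
    have : v ∈ (Submodule.span ℂ (Set.range u)).topologicalClosure := by
      rw [hdense]
      trivial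
    exact this
  obtain ⟨q, hq, hdist⟩ := Metric.mem_closure_iff.mp hmem (ε / (W + 1)) (by positivity)
  obtain ⟨c, hc⟩ := Finsupp.mem_span_range_iff_exists_finsupp.mp hq
  refine ⟨c.support, c, ?_⟩
  have hq' : (q : ℂ → ℂ) =ᵐ[volume]
      fun w => (∑ ξ ∈ c.support, c ξ * ch ξ w) * K₀ w * (dm w : ℂ) := by
    rw [← hc]
    unfold Finsupp.sum
    have h7 : ∀ s : Finset ℂ, ((∑ ξ ∈ s, c ξ • u ξ : Lp ℂ 2 (volume : Measure ℂ)) : ℂ → ℂ)
        =ᵐ[volume] fun w => (∑ ξ ∈ s, c ξ * ch ξ w) * K₀ w * (dm w : ℂ) := by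
      intro s
      classical
      induction s using Finset.induction_on with
      | empty =>
        simp only [Finset.sum_empty, zero_mul]
        exact Lp.coeFn_zero ℂ 2 _
      | insert a s ha ih =>
        rw [Finset.sum_insert ha]
        filter_upwards [Lp.coeFn_add (c a • u a) (∑ ξ ∈ s, c ξ • u ξ), Lp.coeFn_smul (c a) (u a),
          hu' a, ih] with w h1 h2 h3 h4
        rw [h1, Pi.add_apply, h2, Pi.smul_apply, h3, h4, Finset.sum_insert ha, smul_eq_mul]
        ring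
    exact h7 c.support
  have hfin : ∫ w : ℂ, ‖φ w - (∑ ξ ∈ c.support, c ξ * ch ξ w) * K₀ w‖ * Real.exp (-‖w‖ ^ 2 / 2)
      = ∫ w : ℂ, ‖((v - q : Lp ℂ 2 (volume : Measure ℂ)) : ℂ → ℂ) w‖ * (1 + ‖w‖ ^ 2)⁻¹ := by
    apply integral_congr_ae
    filter_upwards [Lp.coeFn_sub v q, hv', hq'] with w h1 h2 h3
    rw [h1, Pi.sub_apply, h2, h3, ← sub_mul, norm_mul, Complex.norm_real, Real.norm_eq_abs,
      abs_of_pos (dm_pos w)]
    have h8 : dm w * (1 + ‖w‖ ^ 2)⁻¹ = Real.exp (-‖w‖ ^ 2 / 2) := by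
      unfold dm
      have : (1 + ‖w‖ ^ 2) ≠ 0 := by positivity
      field_simp
    rw [mul_assoc, h8]
  rw [hfin]
  refine lt_of_le_of_lt (hW (v - q)) ?_
  rw [dist_eq_norm] at hdist
  have h9 : ‖v - q‖ * W ≤ ‖v - q‖ * (W + 1) :=
    mul_le_mul_of_nonneg_left (by linarith) (norm_nonneg _)
  have h10 : ‖v - q‖ * (W + 1) < ε := by
    rwa [lt_div_iff₀ (by positivity)] at hdist
  linarith

end

end Pool.Agent.R283.FT
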