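import Mathlib

/-!
# Toeplitz operators on polyanalytic Fock spaces: definitions for MP_3a72d9_an
-/

set_option autoImplicit false

open MeasureTheory Complex Set Metric Filter Topology
open scoped ComplexConjugate ENNReal InnerProductSpace

namespace Pool.Agent.R283.FT

noncomputable section

/-- The Gaussian probability measure `dμ(z) = (1/π) e^{-|z|²} dz` on `ℂ`. -/
def γ : Measure ℂ :=
  (volume : Measure ℂ).withDensity fun z => ENNReal.ofReal (Real.exp (-‖z‖ ^ 2) / Real.pi)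

lemma measurable_dens : Measurable fun z : ℂ =>
    ENNReal.ofReal (Real.exp (-‖z‖ ^ 2) / Real.pi) := by fun_prop

lemma lint_dens : ∫⁻ z : ℂ, ENNReal.ofReal (Real.exp (-‖z‖ ^ 2) / Real.pi) = 1 := by
  have h : ∫ z : ℂ, Real.exp (-1 * ‖z‖ ^ 2) = Real.pi := by
    have := GaussianFourier.integral_rexp_neg_mul_sq_norm (V := ℂ) (b := 1) one_pos
    rw [this]
    simp
  have hi : Integrable (fun z : ℂ => Real.exp (-1 * ‖z‖ ^ 2)) := by
    by_contra hc
    rw [integral_undef hc] at h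
    exact Real.pi_ne_zero h.symm
  rw [← ofReal_integral_eq_lintegral_ofReal]
  · have h2 : ∫ z : ℂ, Real.exp (-‖z‖ ^ 2) / Real.pi = 1 := by
      rw [integral_div]
      have h3 : ∫ z : ℂ, Real.exp (-‖z‖ ^ 2) = Real.pi := by
        rw [← h]; congr 1; ext z; congr 1; ring
      rw [h3, div_self Real.pi_ne_zero]
    rw [h2, ENNReal.ofReal_one]
  · refine Integrable.div_const ?_ _
    refine hi.congr (Eventually.of_forall fun z => ?_)
    simp
  · exact Eventually.of_forall fun z => by positivity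

instance : IsProbabilityMeasure γ := by
  refine ⟨?_⟩
  rw [γ, withDensity_apply _ MeasurableSet.univ, Measure.restrict_univ, lint_dens]

/-- The Hilbert space `L²(ℂ, μ)`. -/
abbrev H := Lp ℂ 2 γ

/-- Multiplication by the bounded function `f` on `L²(ℂ, μ)`. -/
def mulOp (f : Lp ℂ ∞ γ) : H →L[ℂ] H :=
  (ContinuousLinearMap.mul ℂ ℂ).holderL γ ∞ 2 2 f

/-- The indicator function of a measurable set as an element of `L^∞`. -/
def ind (K : Set ℂ) (hK : MeasurableSet K) : Lp ℂ ∞ γ :=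
  indicatorConstLp ∞ hK (measure_ne_top γ K) (1 : ℂ)

/-- `T` is a band operator: there is `R` with `M_{1_{K'}} T M_{1_K} = 0` whenever the distance of
`K` and `K'` is larger than `R`. -/
def IsBand (T : H →L[ℂ] H) : Prop :=
  ∃ R : ℝ, ∀ (K K' : Set ℂ) (hK : MeasurableSet K) (hK' : MeasurableSet K'),
    (∀ x ∈ K, ∀ y ∈ K', R < dist x y) → mulOp (ind K' hK') ∘L T ∘L mulOp (ind K hK) = 0

/-- The band-dominated operators on `L²(ℂ, μ)`: the norm limits of band operators. -/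
def BDO : Set (H →L[ℂ] H) := closure {T | IsBand T}

section

variable (F : Submodule ℂ H) [F.HasOrthogonalProjection]

/-- The Toeplitz operator `T_f g = P (f g)` on the closed subspace `F` of `L²(ℂ, μ)`. -/
def toeplitz (f : Lp ℂ ∞ γ) : F →L[ℂ] F :=
  F.orthogonalProjectionOnto ∘L mulOp f ∘L F.subtypeL

/-- A bounded operator `T` on `F` is band-dominated if `T P` is. -/
def IsBandDominated (T : F →L[ℂ] F) : Prop :=
  F.subtypeL ∘L T ∘L F.orthogonalProjectionOnto ∈ BDO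

end

/-- The C*-algebra generated by a set of bounded operators on a Hilbert space: the norm closure
of the *-algebra generated by the set. -/
def cstarGen {E : Type*} [NormedAddCommGroup E] [InnerProductSpace ℂ E] [CompleteSpace E]
    (S : Set (E →L[ℂ] E)) : StarSubalgebra ℂ (E →L[ℂ] E) :=
  (StarAlgebra.adjoin ℂ S).topologicalClosure

/-- The C*-algebra generated by all Toeplitz operators with bounded symbols on `F`. -/
def toeplitzAlgebra (F : Submodule ℂ H) [CompleteSpace F] : StarSubalgebra ℂ (F →L[ℂ] F) :=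
  cstarGen (Set.range (toeplitz F))

/-- `g(z) = ∑_{k < n} conj z ^ k * h k z` with `h k` entire. -/
def IsPolyC (n : ℕ) (g : ℂ → ℂ) : Prop :=
  ∃ h : ℕ → ℂ → ℂ, (∀ k, Differentiable ℂ (h k)) ∧
    ∀ z, g z = ∑ k ∈ Finset.range n, conj z ^ k * h k z

lemma IsPolyC.add {n : ℕ} {f g : ℂ → ℂ} (hf : IsPolyC n f) (hg : IsPolyC n g) :
    IsPolyC n (fun z => f z + g z) := by
  obtain ⟨a, ha, ha2⟩ := hf
  obtain ⟨b, hb, hb2⟩ := hg
  refine ⟨fun k z => a k z + b k z, fun k => (ha k).add (hb k), fun z => ?_⟩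
  beta_reduce
  rw [ha2 z, hb2 z, ← Finset.sum_add_distrib]
  exact Finset.sum_congr rfl fun k _ => by ring

lemma IsPolyC.hol_mul {n : ℕ} {f u : ℂ → ℂ} (hf : IsPolyC n f)
    (hu : Differentiable ℂ u) : IsPolyC n (fun z => u z * f z) := by
  obtain ⟨a, ha, ha2⟩ := hf
  refine ⟨fun k z => u z * a k z, fun k => hu.mul (ha k), fun z => ?_⟩
  simp only
  rw [ha2 z, Finset.mul_sum]
  exact Finset.sum_congr rfl fun k _ => by ring

lemma IsPolyC.const_mul {n : ℕ} {f : ℂ → ℂ} (hf : IsPolyC n f) (c : ℂ) :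
    IsPolyC n (fun z => c * f z) := hf.hol_mul (differentiable_const c)

lemma IsPolyC.zero (n : ℕ) : IsPolyC n (fun _ => 0) :=
  ⟨fun _ _ => 0, fun _ => differentiable_const _, fun z => by simp⟩

/-- The polyanalytic Fock space of order `n`: the classes in `L²(ℂ, μ)` of the functions
`∑_{k<n} conj z ^ k h_k(z)` with `h_k` entire. -/
def Fock (n : ℕ) : Submodule ℂ H where
  carrier := {f | ∃ g : ℂ → ℂ, IsPolyC n g ∧ (f : ℂ → ℂ) =ᵐ[γ] g}
  add_mem' := by
    rintro a b ⟨g, hg, hg2⟩ ⟨k, hk, hk2⟩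
    refine ⟨fun z => g z + k z, hg.add hk, ?_⟩
    filter_upwards [Lp.coeFn_add a b, hg2, hk2] with z h1 h2 h3
    rw [h1, Pi.add_apply, h2, h3]
  zero_mem' := ⟨fun _ => 0, IsPolyC.zero n, Lp.coeFn_zero ℂ 2 γ⟩
  smul_mem' := by
    rintro c a ⟨g, hg, hg2⟩
    refine ⟨fun z => c * g z, hg.const_mul c, ?_⟩
    filter_upwards [Lp.coeFn_smul c a, hg2] with z h1 h2
    rw [h1, Pi.smul_apply, h2, smul_eq_mul]

/-- The kernel at the origin of the polyanalytic Fock space of order `n`: the Laguerre polynomial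
`L_{n-1}^{(1)}(|w|²)`. -/
def Kn (n : ℕ) (w : ℂ) : ℂ :=
  ∑ j ∈ Finset.range n, (((-1) ^ j * (n.choose (j + 1) : ℝ) / (j.factorial : ℝ) : ℝ) : ℂ) *
    (w * conj w) ^ j

/-- Part C -/
def StmtC : Prop := ∀ n : ℕ, IsClosed (Fock n : Set H) ∧
  (∀ z : ℂ, ∃ k ∈ Fock n, (k : ℂ → ℂ) =ᵐ[γ] fun w => Kn n (w - z) * Complex.exp (w * conj z)) ∧
  (∀ f ∈ Fock n, ∀ᵐ z ∂γ, (f : ℂ → ℂ) z =
    ∫ w, conj (Kn n (w - z) * Complex.exp (w * conj z)) * (f : ℂ → ℂ) w ∂γ)

/-- continuous functions of exponential growth -/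
def Mild (φ : ℂ → ℂ) : Prop :=
  Continuous φ ∧ ∃ C M : ℝ, ∀ w, ‖φ w‖ ≤ C * Real.exp (M * ‖w‖)

/-- characters of `ℂ` -/
def ch (ξ w : ℂ) : ℂ := Complex.exp (Complex.I * ((w * conj ξ).re : ℝ))

/-- Part D: trigonometric polynomials times `K₀` are dense in a weighted `L¹` sense. -/
def StmtD : Prop := ∀ K₀ φ : ℂ → ℂ, Mild K₀ → Mild φ → (∀ᵐ w : ℂ, K₀ w ≠ 0) → ∀ ε > 0,
  ∃ (s : Finset ℂ) (c : ℂ → ℂ),
    ∫ w : ℂ, ‖φ w - (∑ ξ ∈ s, c ξ * ch ξ w) * K₀ w‖ * Real.exp (-‖w‖ ^ 2 / 2) < ε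

/-- the normalised kernel function at `z` built from the kernel function `K₀` at `0`. -/
def kf (K₀ : ℂ → ℂ) (z w : ℂ) : ℂ :=
  K₀ (w - z) * Complex.exp (w * conj z) * (Real.exp (-‖z‖ ^ 2 / 2) : ℝ)

/-- Part B: kernel functions are almost orthogonal with respect to band operators. -/
def StmtB : Prop := ∀ (K₀ : ℂ → ℂ), Mild K₀ → ∀ (k : ℂ → H),
  (∀ z, (k z : ℂ → ℂ) =ᵐ[γ] kf K₀ z) → ∀ B : H →L[ℂ] H, IsBand B →
    ∃ C : ℝ, ∀ z z' : ℂ, ‖⟪k z', B (k z)⟫_ℂ‖ ≤ C * (1 + ‖z' - z‖) ^ (-(3 : ℝ))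

end

end Pool.Agent.R283.FT
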