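import Pool.Agent.R283.FT.Stm2
import Pool.Agent.R283.FT.C0

/-!
# Part F: the resolution formula for band operators
-/

set_option autoImplicit false

open MeasureTheory Complex Set Metric Filter Topology
open scoped ComplexConjugate ENNReal InnerProductSpace

namespace Pool.Agent.R283.FT

noncomputable section

lemma f_ae_vol {p : ℂ → Prop} (h : ∀ᵐ x ∂γ, p x) : ∀ᵐ x : ℂ, p x := by
  rw [γ, ae_withDensity_iff measurable_dens] at h
  filter_upwards [h] with x hx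
  apply hx
  rw [Ne, ENNReal.ofReal_eq_zero, not_le]
  exact dn_pos x

lemma f_mild_kf {K₀ : ℂ → ℂ} (hK : Mild K₀) (u : ℂ) : Mild (kf K₀ u) := by
  have h1 : Mild (fun w => K₀ (w - u)) := by
    obtain ⟨hc, C, M, hb⟩ := hK
    have hC : 0 ≤ C := by
      have := (norm_nonneg _).trans (hb 0)
      simpa using this
    refine ⟨hc.comp (by fun_prop), C * Real.exp (|M| * ‖u‖), |M|, fun w => (hb _).trans ?_⟩
    rw [mul_assoc, ← Real.exp_add]
    refine mul_le_mul_of_nonneg_left (Real.exp_le_exp.2 ?_) hC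
    have h2 : ‖w - u‖ ≤ ‖w‖ + ‖u‖ := norm_sub_le _ _
    calc M * ‖w - u‖ ≤ |M| * ‖w - u‖ := mul_le_mul_of_nonneg_right (le_abs_self M) (norm_nonneg _)
      _ ≤ |M| * (‖w‖ + ‖u‖) := mul_le_mul_of_nonneg_left h2 (abs_nonneg M)
      _ = |M| * ‖u‖ + |M| * ‖w‖ := by ring
  exact (h1.cmul (Mild.cexp _)).cmul (Mild.cconst _)

/-- the phase identity -/
lemma f_phase (K₀ : ℂ → ℂ) (u z w : ℂ) :
    kf K₀ u (w - z) * Complex.exp (w * conj z) =
      (Real.exp (‖z‖ ^ 2 / 2) : ℝ) * (om z u * kf K₀ (z + u) w) := by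
  unfold kf om
  rw [show w - z - u = w - (z + u) by ring]
  have h : Complex.exp ((w - z) * conj u) * (Real.exp (-‖u‖ ^ 2 / 2) : ℝ) *
      Complex.exp (w * conj z) = (Real.exp (‖z‖ ^ 2 / 2) : ℝ) *
      (Complex.exp (-(Complex.I * ((z * conj u).im : ℝ))) *
        (Complex.exp (w * conj (z + u)) * (Real.exp (-‖z + u‖ ^ 2 / 2) : ℝ))) := by
    simp only [Complex.ofReal_exp]
    rw [← Complex.exp_add, ← Complex.exp_add, ← Complex.exp_add, ← Complex.exp_add,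
      ← Complex.exp_add]
    congr 1
    have e1 : ‖z + u‖ ^ 2 = ‖z‖ ^ 2 + ‖u‖ ^ 2 + 2 * (z * conj u).re := by
      rw [← Complex.normSq_eq_norm_sq, ← Complex.normSq_eq_norm_sq, ← Complex.normSq_eq_norm_sq,
        Complex.normSq_add]
    rw [e1, map_add]
    have e2 : z * conj u = ((z * conj u).re : ℂ) + ((z * conj u).im : ℂ) * Complex.I :=
      (Complex.re_add_im _).symm
    push_cast
    linear_combination -e2
  calc K₀ (w - (z + u)) * Complex.exp ((w - z) * conj u) * (Real.exp (-‖u‖ ^ 2 / 2) : ℝ) *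
        Complex.exp (w * conj z)
      = K₀ (w - (z + u)) * (Complex.exp ((w - z) * conj u) * (Real.exp (-‖u‖ ^ 2 / 2) : ℝ) *
        Complex.exp (w * conj z)) := by ring
    _ = _ := by rw [h]; ring

lemma f_om_norm (z u : ℂ) : om z u * conj (om z u) = 1 := by
  unfold om
  rw [← Complex.exp_conj, ← Complex.exp_add]
  rw [map_neg, map_mul, Complex.conj_I, Complex.conj_ofReal]
  rw [show -(Complex.I * ((z * conj u).im : ℂ)) + -(-Complex.I * ((z * conj u).im : ℂ)) = 0 by ring,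
    Complex.exp_zero]

lemma f_om_cont (u : ℂ) : Continuous (fun z => om z u) := by
  unfold om
  refine Complex.continuous_exp.comp (Continuous.neg (continuous_const.mul ?_))
  exact Complex.continuous_ofReal.comp (Complex.continuous_im.comp (by fun_prop))

lemma f_norm_om (z u : ℂ) : ‖om z u‖ = 1 := by
  unfold om
  rw [← mul_neg, ← Complex.ofReal_neg, mul_comm]
  exact Complex.norm_exp_ofReal_mul_I _

section

variable {F : Submodule ℂ H} [CompleteSpace F] {K₀ : ℂ → ℂ} {k : ℂ → F}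

lemma f_inner (hK : Ker F K₀) (hk : ∀ z, ((k z : H) : ℂ → ℂ) =ᵐ[γ] kf K₀ z) (f : F) :
    ∀ᵐ w : ℂ, ⟪(k w : H), (f : H)⟫_ℂ = (Real.exp (-‖w‖ ^ 2 / 2) : ℝ) * (f : H) w := by
  refine f_ae_vol ?_
  filter_upwards [hK.rep (f : H) f.2] with w hw
  rw [inner_H, hw, ← integral_const_mul]
  refine integral_congr_ae ?_
  filter_upwards [hk w] with x hx
  rw [hx, kf, map_mul, Complex.conj_ofReal]
  ring

/-- resolution of the identity -/
lemma f_resol (hK : Ker F K₀) (hk : ∀ z, ((k z : H) : ℂ → ℂ) =ᵐ[γ] kf K₀ z) (g : F) (h : H) :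
    ∫ w : ℂ, ⟪(g : H), (k w : H)⟫_ℂ * ⟪(k w : H), h⟫_ℂ = Real.pi * ⟪(g : H), h⟫_ℂ := by
  have h1 : ∀ v : F, ⟪(v : H), h⟫_ℂ = ⟪(v : H), ((F.orthogonalProjectionOnto h : F) : H)⟫_ℂ := by
    intro v
    have := Submodule.inner_orthogonalProjectionOnto_eq_of_mem_left v h
    rw [← this, Submodule.coe_inner]
  rw [h1 g, inner_H, integral_γ, ← integral_const_mul]
  refine integral_congr_ae ?_
  filter_upwards [f_inner hK hk g, f_inner hK hk (F.orthogonalProjectionOnto h)] with w hg hh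
  rw [h1 (k w), hh, ← inner_conj_symm, hg, map_mul, Complex.conj_ofReal, Complex.real_smul]
  have hpi : (Real.pi : ℂ) ≠ 0 := by exact_mod_cast Real.pi_ne_zero
  have e : ((Real.exp (-‖w‖ ^ 2 / 2) : ℝ) : ℂ) * ((Real.exp (-‖w‖ ^ 2 / 2) : ℝ) : ℂ) =
      (Real.pi : ℂ) * ((dn w : ℝ) : ℂ) := by
    rw [← Complex.ofReal_mul, ← Complex.ofReal_mul, ← Real.exp_add, dn]
    congr 1
    rw [mul_div_cancel₀ _ Real.pi_ne_zero]
    congr 1; ring
  calc _ = (((Real.exp (-‖w‖ ^ 2 / 2) : ℝ) : ℂ) * ((Real.exp (-‖w‖ ^ 2 / 2) : ℝ) : ℂ)) *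
        (conj ((g : H) w) * ((F.orthogonalProjectionOnto h : F) : H) w) := by ring
    _ = _ := by rw [e]; ring

lemma f_sq_int (hK : Ker F K₀) (hk : ∀ z, ((k z : H) : ℂ → ℂ) =ᵐ[γ] kf K₀ z) (f : F) :
    Integrable (fun w : ℂ => ‖⟪(k w : H), (f : H)⟫_ℂ‖ ^ 2) := by
  have h1 : Integrable (fun w => ‖(f : H) w‖ ^ 2) γ :=
    (memLp_two_iff_integrable_sq_norm (Lp.memLp (f : H)).1).1 (Lp.memLp (f : H))
  rw [integrable_γ_iff] at h1
  refine (h1.const_mul Real.pi).congr ?_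
  filter_upwards [f_inner hK hk f] with w hw
  rw [hw, norm_mul, mul_pow, Complex.norm_real, Real.norm_of_nonneg (Real.exp_pos _).le,
    smul_eq_mul, ← Real.exp_nat_mul, dn]
  have := Real.pi_ne_zero
  have e : ((2 : ℕ) : ℝ) * (-‖w‖ ^ 2 / 2) = -‖w‖ ^ 2 := by push_cast; ring
  rw [e]
  field_simp

theorem stmtF_aux (hK : Ker F K₀) (hk : ∀ z, ((k z : H) : ℂ → ℂ) =ᵐ[γ] kf K₀ z)
    (hkc : Continuous k) (B : H →L[ℂ] H) (C : ℝ)
    (hC : ∀ z z' : ℂ, ‖⟪(k z' : H), B (k z : H)⟫_ℂ‖ ≤ C * (1 + ‖z' - z‖) ^ (-(3 : ℝ)))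
    (g f : F) : ∫ u : ℂ, bf (Ph k B u) (kf K₀ u) (g : H) (f : H) =
      Real.pi * ⟪(g : H), B (f : H)⟫_ℂ := by
  have hkH : Continuous (fun z => (k z : H)) := continuous_subtype_val.comp hkc
  -- the integrand after the first steps
  set J : ℂ × ℂ → ℂ := fun p => ⟪(g : H), (k (p.2 + p.1) : H)⟫_ℂ *
    ⟪(k (p.2 + p.1) : H), B (k p.2 : H)⟫_ℂ * ⟪(k p.2 : H), (f : H)⟫_ℂ with hJ
  have hJc : Continuous J := by
    have h1 : Continuous (fun p : ℂ × ℂ => (k (p.2 + p.1) : H)) :=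
      hkH.comp (continuous_snd.add continuous_fst)
    have h2 : Continuous (fun p : ℂ × ℂ => (k p.2 : H)) := hkH.comp continuous_snd
    exact ((continuous_const.inner h1).mul (h1.inner (B.continuous.comp h2))).mul
      (h2.inner continuous_const)
  have hstep : ∀ u : ℂ, bf (Ph k B u) (kf K₀ u) (g : H) (f : H) =
      ((1 / Real.pi : ℝ) : ℂ) * ∫ z : ℂ, J (u, z) := by
    intro u
    have hbd : ∀ z, ‖Ph k B u z‖ ≤ C * (1 + ‖u‖) ^ (-(3 : ℝ)) := by
      intro z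
      rw [Ph, norm_mul, RCLike.norm_conj, f_norm_om, one_mul]
      have := hC z (z + u)
      rwa [add_sub_cancel_left] at this
    have hmeas : Measurable (Ph k B u) := by
      refine Continuous.measurable ?_
      unfold Ph
      refine (Complex.continuous_conj.comp (f_om_cont u)).mul ?_
      exact (hkH.comp (continuous_id.add continuous_const)).inner (B.continuous.comp hkH)
    have hint := integrable_ig hmeas (f_mild_kf hK.mild u) hbd (g : H) (f : H)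
    rw [bf, integral_prod_symm _ hint, integral_γ, ← integral_const_mul]
    refine integral_congr_ae ?_
    filter_upwards [f_inner hK hk f] with z hz
    have h1 : ∫ w, ig (Ph k B u) (kf K₀ u) (g : H) (f : H) (w, z) ∂γ =
        (((Real.exp (‖z‖ ^ 2 / 2) : ℝ) : ℂ) * om z u * ⟪(g : H), (k (z + u) : H)⟫_ℂ) *
          (Ph k B u z * (f : H) z) := by
      rw [inner_H, ← integral_const_mul, ← integral_mul_const]
      refine integral_congr_ae ?_
      filter_upwards [hk (z + u)] with w hw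
      simp only [ig]
      rw [hw, f_phase]
      ring
    rw [h1, hJ]
    beta_reduce
    rw [hz, Ph, Complex.real_smul]
    have e2 : ((dn z : ℝ) : ℂ) * ((Real.exp (‖z‖ ^ 2 / 2) : ℝ) : ℂ) =
        ((1 / Real.pi : ℝ) : ℂ) * ((Real.exp (-‖z‖ ^ 2 / 2) : ℝ) : ℂ) := by
      rw [← Complex.ofReal_mul, ← Complex.ofReal_mul, dn, div_mul_eq_mul_div, ← Real.exp_add]
      congr 1
      rw [one_div, inv_mul_eq_div]
      congr 2
      ring
    calc _ = (((dn z : ℝ) : ℂ) * ((Real.exp (‖z‖ ^ 2 / 2) : ℝ) : ℂ)) * (om z u * conj (om z u)) *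
          (⟪(g : H), (k (z + u) : H)⟫_ℂ * ⟪(k (z + u) : H), B (k z : H)⟫_ℂ * (f : H) z) := by ring
      _ = _ := by rw [e2, f_om_norm]; ring
  simp_rw [hstep]
  rw [integral_const_mul]
  -- Fubini
  have hr : Integrable (fun u : ℂ => C * (1 + ‖u‖) ^ (-(3 : ℝ))) := by
    refine Integrable.const_mul ?_ C
    exact integrable_one_add_norm (E := ℂ) (r := 3) (by
      rw [Complex.finrank_real_complex]; norm_num)
  have hg2 := f_sq_int hK hk g
  have hf2 := f_sq_int hK hk f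
  have hD1 : Integrable (fun p : ℂ × ℂ => (C * (1 + ‖p.1‖) ^ (-(3 : ℝ))) *
      ‖⟪(k p.2 : H), (f : H)⟫_ℂ‖ ^ 2) (volume.prod volume) := hr.mul_prod hf2
  have hD2 : Integrable (fun p : ℂ × ℂ => (C * (1 + ‖p.1‖) ^ (-(3 : ℝ))) *
      ‖⟪(k (p.2 + p.1) : H), (g : H)⟫_ℂ‖ ^ 2) (volume.prod volume) := by
    have h0 : Integrable (fun p : ℂ × ℂ => (C * (1 + ‖p.1‖) ^ (-(3 : ℝ))) *
      ‖⟪(k p.2 : H), (g : H)⟫_ℂ‖ ^ 2) (volume.prod volume) := hr.mul_prod hg2
    have h1 := (measurePreserving_prod_add (volume : Measure ℂ) (volume : Measure ℂ)).integrable_comp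
      h0.1 |>.2 h0
    refine h1.congr (Eventually.of_forall fun p => ?_)
    simp only [Function.comp]
    rw [add_comm p.1 p.2]
  have hJi : Integrable J (volume.prod volume) := by
    refine Integrable.mono' ((hD1.add hD2).const_mul (1 / 2)) hJc.aestronglyMeasurable
      (Eventually.of_forall fun p => ?_)
    rw [hJ]
    beta_reduce
    rw [norm_mul, norm_mul, Pi.add_apply, ← mul_add]
    have h1 := hC p.2 (p.2 + p.1)
    rw [add_sub_cancel_left] at h1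
    have h2 : ‖⟪(g : H), (k (p.2 + p.1) : H)⟫_ℂ‖ = ‖⟪(k (p.2 + p.1) : H), (g : H)⟫_ℂ‖ :=
      norm_inner_symm _ _
    rw [h2]
    set a := ‖⟪(k (p.2 + p.1) : H), (g : H)⟫_ℂ‖
    set b := ‖⟪(k p.2 : H), (f : H)⟫_ℂ‖
    set c := ‖⟪(k (p.2 + p.1) : H), B (k p.2 : H)⟫_ℂ‖
    set D := C * (1 + ‖p.1‖) ^ (-(3 : ℝ))
    have ha : 0 ≤ a := norm_nonneg _
    have hb : 0 ≤ b := norm_nonneg _
    have hc : 0 ≤ c := norm_nonneg _
    have hD : 0 ≤ D := hc.trans h1
    calc a * c * b = c * (a * b) := by ring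
      _ ≤ D * (a * b) := mul_le_mul_of_nonneg_right h1 (mul_nonneg ha hb)
      _ ≤ 1 / 2 * (D * (b ^ 2 + a ^ 2)) := by nlinarith [sq_nonneg (a - b)]
  have hsw : ∫ u : ℂ, ∫ z : ℂ, J (u, z) = ∫ z : ℂ, ∫ u : ℂ, J (u, z) :=
    integral_integral_swap hJi
  rw [hsw]
  have hin : ∀ z : ℂ, ∫ u : ℂ, J (u, z) =
      (Real.pi : ℂ) * (⟪B.adjoint (g : H), (k z : H)⟫_ℂ * ⟪(k z : H), (f : H)⟫_ℂ) := by
    intro z
    have h0 : ∫ u : ℂ, J (u, z) =
        (∫ u : ℂ, ⟪(g : H), (k (z + u) : H)⟫_ℂ * ⟪(k (z + u) : H), B (k z : H)⟫_ℂ) *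
          ⟪(k z : H), (f : H)⟫_ℂ := by
      rw [← integral_mul_const]
    rw [h0]
    have h1 : ∫ u : ℂ, ⟪(g : H), (k (z + u) : H)⟫_ℂ * ⟪(k (z + u) : H), B (k z : H)⟫_ℂ =
        ∫ w : ℂ, ⟪(g : H), (k w : H)⟫_ℂ * ⟪(k w : H), B (k z : H)⟫_ℂ :=
      integral_add_left_eq_self
        (fun w : ℂ => ⟪(g : H), (k w : H)⟫_ℂ * ⟪(k w : H), B (k z : H)⟫_ℂ) z
    rw [h1, f_resol hK hk g (B (k z : H)), ContinuousLinearMap.adjoint_inner_left]
    ring
  simp_rw [hin]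
  rw [integral_const_mul]
  have hfin : ∫ z : ℂ, ⟪B.adjoint (g : H), (k z : H)⟫_ℂ * ⟪(k z : H), (f : H)⟫_ℂ =
      (Real.pi : ℂ) * ⟪(g : H), B (f : H)⟫_ℂ := by
    have h1 := congrArg conj (f_resol hK hk f (B.adjoint (g : H)))
    rw [← integral_conj, map_mul, Complex.conj_ofReal, inner_conj_symm,
      ContinuousLinearMap.adjoint_inner_left] at h1
    rw [← h1]
    refine integral_congr_ae (Eventually.of_forall fun z => ?_)
    beta_reduce
    rw [map_mul, inner_conj_symm, inner_conj_symm, mul_comm]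
  rw [hfin]
  have hpi : (Real.pi : ℂ) ≠ 0 := by exact_mod_cast Real.pi_ne_zero
  push_cast
  field_simp

end

theorem stmtF : StmtF := by
  intro F _ K₀ hK k hk hkc B C hC g f
  exact stmtF_aux hK hk hkc B C hC g f

end

end Pool.Agent.R283.FT
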