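import Pool.Agent.R283.FT.G

/-!
# Band-dominated operators are in the Toeplitz algebra
-/

set_option autoImplicit false

open MeasureTheory Complex Set Metric Filter Topology
open scoped ComplexConjugate ENNReal InnerProductSpace

namespace Pool.Agent.R283.FT

noncomputable section

lemma integral_mem_closed {A : Type*} [NormedAddCommGroup A] [NormedSpace ℂ A] [CompleteSpace A]
    (M : Submodule ℂ A) (hM : IsClosed (M : Set A)) {f : ℂ → A} (hf : Integrable f)
    (h : ∀ x, f x ∈ M) : ∫ x, f x ∈ M := by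
  by_contra hc
  have hconv : Convex ℝ (M : Set A) := (M.restrictScalars ℝ).convex
  obtain ⟨ℓ, u, h1, h2⟩ := geometric_hahn_banach_closed_point hconv hM hc
  have h3 : ∀ a ∈ M, ℓ a = 0 := by
    intro a ha
    by_contra hne
    have h4 := h1 (((u + 1) / ℓ a) • a) ((M.restrictScalars ℝ).smul_mem _ ha)
    rw [map_smul, smul_eq_mul, div_mul_cancel₀ _ hne] at h4
    linarith
  have h5 : ℓ (∫ x, f x) = ∫ x, ℓ (f x) := (ℓ.integral_comp_comm hf).symm
  have h6 : ∫ x, ℓ (f x) = 0 := by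
    have : ∀ x, ℓ (f x) = 0 := fun x => h3 _ (h x)
    simp [this]
  have h7 := h1 0 (zero_mem M)
  rw [map_zero] at h7
  rw [h5, h6] at h2
  linarith

lemma integral_mem_cstarGen {E : Type*} [NormedAddCommGroup E] [InnerProductSpace ℂ E]
    [CompleteSpace E] {X : Set (E →L[ℂ] E)} {A : ℂ → E →L[ℂ] E} (hA : Integrable A)
    (h : ∀ u, A u ∈ cstarGen X) : ∫ u, A u ∈ cstarGen X :=
  integral_mem_closed (Subalgebra.toSubmodule (cstarGen X).toSubalgebra) isClosed_cstarGen hA h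

lemma integral_inner_apply {E : Type*} [NormedAddCommGroup E] [InnerProductSpace ℂ E]
    [CompleteSpace E] {A : ℂ → E →L[ℂ] E} (hA : Integrable A) (g f : E) :
    ⟪g, (∫ u, A u) f⟫_ℂ = ∫ u, ⟪g, A u f⟫_ℂ := by
  rw [ContinuousLinearMap.integral_apply hA, integral_inner]
  exact (ContinuousLinearMap.apply ℂ E f).integrable_comp hA

/-- integrals of norm continuous families in the generated algebra -/
lemma gen_integral {E : Type*} [NormedAddCommGroup E] [InnerProductSpace ℂ E]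
    [CompleteSpace E] {X : Set (E →L[ℂ] E)} {A : ℂ → E →L[ℂ] E} (hmem : ∀ u, A u ∈ cstarGen X)
    {b : ℂ → ℝ} (hb : Integrable b) (hAn : ∀ u, ‖A u‖ ≤ b u)
    (hcont : ∀ u₀, ∃ d : ℂ → ℝ, Tendsto d (𝓝 u₀) (𝓝 0) ∧ ∀ u, ‖A u - A u₀‖ ≤ d u) :
    ∀ c : ℂ, ∃ T ∈ cstarGen X, ∀ g f, ⟪g, T f⟫_ℂ = c * ∫ u, ⟪g, A u f⟫_ℂ := by
  intro c
  have hc : Continuous A := by
    rw [continuous_iff_continuousAt]
    intro u₀
    rw [ContinuousAt, tendsto_iff_norm_sub_tendsto_zero]
    obtain ⟨d, hd, hd2⟩ := hcont u₀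
    exact squeeze_zero (fun u => norm_nonneg _) hd2 hd
  have hint : Integrable A := hb.mono' hc.aestronglyMeasurable (Eventually.of_forall hAn)
  refine ⟨c • ∫ u, A u, smul_mem_cstarGen (integral_mem_cstarGen hint hmem) c, fun g f => ?_⟩
  have e1 : (c • ∫ u, A u) f = c • ((∫ u, A u) f) := rfl
  rw [e1, inner_smul_right, integral_inner_apply hint]

section

variable {F : Submodule ℂ H} [CompleteSpace F] {K₀ : ℂ → ℂ}

/-- normalised kernel functions in `F` -/
lemma Ker.exists_k (hK : Ker F K₀) :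
    ∃ k : ℂ → F, ∀ z, ((k z : H) : ℂ → ℂ) =ᵐ[γ] kf K₀ z := by
  choose k0 hk0 hk1 using hK.mem
  refine ⟨fun z => (((Real.exp (-‖z‖ ^ 2 / 2) : ℝ) : ℂ)) • ⟨k0 z, hk0 z⟩, fun z => ?_⟩
  have h := Lp.coeFn_smul (((Real.exp (-‖z‖ ^ 2 / 2) : ℝ) : ℂ)) (k0 z)
  rw [Submodule.coe_smul]
  filter_upwards [h, hk1 z] with w h1 h2
  rw [h1, Pi.smul_apply, h2, smul_eq_mul, kf]
  ring

lemma norm_k_eq {k : ℂ → H} (hk : ∀ z, (k z : ℂ → ℂ) =ᵐ[γ] kf K₀ z) (z : ℂ) :
    ‖k z‖ = ‖k 0‖ := by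
  have h1 : ∀ z, ‖k z‖ ^ 2 = ∫ w : ℂ, ‖K₀ w‖ ^ 2 * Real.exp (-‖w‖ ^ 2) / Real.pi := by
    intro z
    rw [b_norm_sq]
    have h2 : ∫ w, ‖(k z : ℂ → ℂ) w‖ ^ 2 ∂γ = ∫ w, ‖kf K₀ z w‖ ^ 2 ∂γ := by
      refine integral_congr_ae ?_
      filter_upwards [hk z] with w hw
      rw [hw]
    rw [h2, b_integral_γ, ← integral_sub_right_eq_self (μ := (volume : Measure ℂ))
      (fun w => ‖K₀ w‖ ^ 2 * Real.exp (-‖w‖ ^ 2) / Real.pi) z]
    refine integral_congr_ae (Eventually.of_forall fun w => ?_)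
    beta_reduce
    rw [← b_kf]
    ring
  have h3 : ‖k z‖ ^ 2 = ‖k 0‖ ^ 2 := by rw [h1, h1]
  exact (pow_left_inj₀ (norm_nonneg _) (norm_nonneg _) two_ne_zero).1 h3

/-- compressions of band operators are in the Toeplitz algebra -/
theorem band_mem (hD : StmtD) (hF : StmtF) (hG : StmtG) (hB : StmtB) (hK : Ker F K₀)
    {B : H →L[ℂ] H} (hBand : IsBand B) : cmp F B ∈ toeplitzAlgebra F := by
  obtain ⟨k, hk⟩ := hK.exists_k
  obtain ⟨hmild, hnrm, htend, hG4⟩ := hG K₀ hK.mild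
  obtain ⟨hkcont, hisom⟩ := hG4 (fun z => (k z : H)) hk
  obtain ⟨C, hC⟩ := hB K₀ hK.mild (fun z => (k z : H)) hk B hBand
  have hkc : Continuous k := continuous_induced_rng.2 hkcont
  have hC0 : 0 ≤ C := by
    have h1 := hC 0 0
    rw [sub_zero, norm_zero, add_zero, Real.one_rpow, mul_one] at h1
    exact (norm_nonneg _).trans h1
  -- bounds for the symbols
  have hPb : ∀ u z, ‖Ph k B u z‖ ≤ C * (1 + ‖u‖) ^ (-(3 : ℝ)) := by
    intro u z
    unfold Ph
    rw [norm_mul, Complex.norm_conj, norm_om, one_mul]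
    have h1 := hC z (z + u)
    rwa [add_sub_cancel_left] at h1
  have homc : ∀ u, Continuous fun z => om z u := by
    intro u
    unfold om
    refine Complex.continuous_exp.comp (continuous_const.mul ?_).neg
    refine Complex.continuous_ofReal.comp (Complex.continuous_im.comp ?_)
    exact continuous_id.mul continuous_const
  have hPm : ∀ u, Continuous (Ph k B u) := by
    intro u
    unfold Ph
    refine (Complex.continuous_conj.comp (homc u)).mul ?_
    refine Continuous.inner ?_ ?_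
    · exact hkcont.comp (continuous_id.add continuous_const)
    · exact B.continuous.comp hkcont
  have hPeq : ∀ u z, Ph k B u z = ⟪om z u • (k (z + u) : H), B (k z : H)⟫_ℂ := by
    intro u z
    rw [inner_smul_left]
    rfl
  have hPd : ∀ u u' z, ‖Ph k B u z - Ph k B u' z‖ ≤
      ‖(k u : H) - k u'‖ * (‖B‖ * ‖(k 0 : H)‖) := by
    intro u u' z
    rw [hPeq, hPeq, ← inner_sub_left]
    refine (norm_inner_le_norm _ _).trans ?_
    rw [hisom z u u']
    refine mul_le_mul_of_nonneg_left ?_ (norm_nonneg _)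
    refine (B.le_opNorm _).trans ?_
    rw [norm_k_eq hk z]
  -- the layers
  have hex : ∀ u, ∃ S : H →L[ℂ] H, (∀ g f : H, ⟪g, S f⟫_ℂ = bf (Ph k B u) (kf K₀ u) g f) ∧
      ‖S‖ ≤ (C * (1 + ‖u‖) ^ (-(3 : ℝ))) * nrm (kf K₀ u) :=
    fun u => exists_op (hPm u).measurable (hmild u) (hPb u)
  choose S hS hSn using hex
  have hmem : ∀ u, cmp F (S u) ∈ toeplitzAlgebra F := fun u =>
    hK.cmp_mem hD (hPm u).measurable (hmild u) (hPb u) (S u) (hS u)
  have hAn : ∀ u, ‖cmp F (S u)‖ ≤ C * (1 + ‖u‖) ^ (-(3 : ℝ)) * nrm K₀ := by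
    intro u
    refine (norm_cmp_le F _).trans ((hSn u).trans (le_of_eq ?_))
    rw [hnrm]
  -- continuity
  have hdiff : ∀ u u₀, ‖cmp F (S u) - cmp F (S u₀)‖ ≤
      ‖(k u : H) - k u₀‖ * (‖B‖ * ‖(k 0 : H)‖) * nrm K₀ +
        C * nrm (fun w => kf K₀ u w - kf K₀ u₀ w) := by
    intro u u₀
    have hmD : Measurable fun z => Ph k B u z - Ph k B u₀ z :=
      (hPm u).measurable.sub (hPm u₀).measurable
    obtain ⟨R1, hR1, hR1n⟩ := exists_op hmD (hmild u) (hPd u u₀)
    have hPb' : ∀ z, ‖Ph k B u₀ z‖ ≤ C := by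
      intro z
      refine (hPb u₀ z).trans ?_
      have h1 : (1 + ‖u₀‖) ^ (-(3 : ℝ)) ≤ 1 :=
        Real.rpow_le_one_of_one_le_of_nonpos (by linarith [norm_nonneg u₀]) (by norm_num)
      calc C * (1 + ‖u₀‖) ^ (-(3 : ℝ)) ≤ C * 1 := mul_le_mul_of_nonneg_left h1 hC0
        _ = C := mul_one C
    obtain ⟨R2, hR2, hR2n⟩ := exists_op (hPm u₀).measurable ((hmild u).sub (hmild u₀)) hPb'
    have hsum : cmp F (S u) - cmp F (S u₀) = cmp F (R1 + R2) := by
      refine cmp_ext F fun g f => ?_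
      have e1 : (cmp F (S u) - cmp F (S u₀)) f = cmp F (S u) f - cmp F (S u₀) f := rfl
      have e2 : (R1 + R2) (f : H) = R1 f + R2 f := rfl
      rw [e1, inner_sub_right, inner_cmp, inner_cmp, inner_cmp, e2, inner_add_right, hS, hS, hR1,
        hR2]
      unfold bf
      rw [← integral_sub (integrable_ig (hPm u).measurable (hmild u) (hPb u) _ _)
        (integrable_ig (hPm u₀).measurable (hmild u₀) (hPb u₀) _ _),
        ← integral_add (integrable_ig hmD (hmild u) (hPd u u₀) _ _)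
        (integrable_ig (hPm u₀).measurable ((hmild u).sub (hmild u₀)) hPb' _ _)]
      refine integral_congr_ae (Eventually.of_forall fun q => ?_)
      simp only [ig]
      ring
    rw [hsum]
    refine (norm_cmp_le F _).trans ((norm_add_le _ _).trans (add_le_add ?_ hR2n))
    rw [← hnrm u]
    exact hR1n
  have hcont : ∀ u₀, ∃ d : ℂ → ℝ, Tendsto d (𝓝 u₀) (𝓝 0) ∧
      ∀ u, ‖cmp F (S u) - cmp F (S u₀)‖ ≤ d u := by
    intro u₀
    refine ⟨_, ?_, fun u => hdiff u u₀⟩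
    have hk0 : Tendsto (fun u => ‖(k u : H) - k u₀‖) (𝓝 u₀) (𝓝 0) := by
      have := hkcont.continuousAt (x := u₀)
      exact tendsto_iff_norm_sub_tendsto_zero.1 this
    have h1 := ((hk0.mul_const (‖B‖ * ‖(k 0 : H)‖)).mul_const (nrm K₀)).add
      ((htend u₀).const_mul C)
    simpa using h1
  have hb : Integrable fun u : ℂ => C * (1 + ‖u‖) ^ (-(3 : ℝ)) * nrm K₀ := by
    refine ((integrable_one_add_norm ?_).const_mul C).mul_const _
    simp
    norm_num
  obtain ⟨T, hTm, hT⟩ := gen_integral hmem hb hAn hcont ((Real.pi : ℝ) : ℂ)⁻¹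
  have hEq : T = cmp F B := by
    refine cmp_ext F fun g f => ?_
    rw [hT]
    have h2 : ∀ u, ⟪g, cmp F (S u) f⟫_ℂ = bf (Ph k B u) (kf K₀ u) (g : H) (f : H) := by
      intro u; rw [inner_cmp, hS]
    simp_rw [h2]
    rw [hF F K₀ hK k hk hkc B C hC g f, inner_cmp, ← mul_assoc, inv_mul_cancel₀ (by
      exact_mod_cast Real.pi_ne_zero), one_mul]
  rw [← hEq]
  exact hTm

/-- band-dominated operators are in the Toeplitz algebra -/
theorem bandDominated_mem (hD : StmtD) (hF : StmtF) (hG : StmtG) (hB : StmtB) (hK : Ker F K₀)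
    {T : F →L[ℂ] F} (hT : IsBandDominated F T) : T ∈ toeplitzAlgebra F := by
  refine cstarGen_of_approx fun ε hε => ?_
  obtain ⟨B, hB1, hB2⟩ := Metric.mem_closure_iff.1 hT ε hε
  refine ⟨cmp F B, band_mem hD hF hG hB hK hB1, ?_⟩
  have h1 : T - cmp F B = cmp F (F.subtypeL ∘L T ∘L F.orthogonalProjectionOnto - B) := by
    refine cmp_ext F fun g f => ?_
    have e1 : (T - cmp F B) f = T f - cmp F B f := rfl
    have e2 : (F.subtypeL ∘L T ∘L F.orthogonalProjectionOnto - B) (f : H) =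
        (T (F.orthogonalProjectionOnto (f : H)) : H) - B f := rfl
    rw [e1, inner_sub_right, inner_cmp, inner_cmp, e2, inner_sub_right,
      Submodule.orthogonalProjectionOnto_mem_subspace_eq_self]
    rfl
  rw [h1]
  refine (norm_cmp_le F _).trans_lt ?_
  rwa [← dist_eq_norm]

end

end

end Pool.Agent.R283.FT
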