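import Pool.Agent.R283.FT.Defs

/-!
# Twisted convolution forms on the Gaussian space
-/

set_option autoImplicit false

open MeasureTheory Complex Set Metric Filter Topology
open scoped ComplexConjugate ENNReal InnerProductSpace

namespace Pool.Agent.R283.FT

noncomputable section

/-- weighted `L¹` norm -/
def nrm (φ : ℂ → ℂ) : ℝ := ∫ w : ℂ, ‖φ w‖ * Real.exp (-‖w‖ ^ 2 / 2)

/-- the integrand of the form -/
def ig (Φ φ g f : ℂ → ℂ) (p : ℂ × ℂ) : ℂ :=
  conj (g p.1) * (φ (p.1 - p.2) * Complex.exp (p.1 * conj p.2)) * (Φ p.2 * f p.2)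

/-- the form -/
def bf (Φ φ g f : ℂ → ℂ) : ℂ := ∫ p, ig Φ φ g f p ∂(γ.prod γ)

/-- half Gaussian -/
def E (z : ℂ) : ℝ≥0∞ := ENNReal.ofReal (Real.exp (-‖z‖ ^ 2 / 2))

lemma measurable_E : Measurable E := by unfold E; fun_prop

lemma dens_eq (z : ℂ) : ENNReal.ofReal (Real.exp (-‖z‖ ^ 2) / Real.pi) =
    ENNReal.ofReal (1 / Real.pi) * (E z * E z) := by
  unfold E
  rw [← ENNReal.ofReal_mul (by positivity), ← ENNReal.ofReal_mul (by positivity), ← Real.exp_add]
  congr 1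
  rw [show -‖z‖ ^ 2 / 2 + -‖z‖ ^ 2 / 2 = -‖z‖ ^ 2 by ring]
  ring

lemma lint_γ {f : ℂ → ℝ≥0∞} (hf : Measurable f) :
    ∫⁻ z, f z ∂γ = ENNReal.ofReal (1 / Real.pi) * ∫⁻ z, f z * (E z * E z) := by
  rw [γ, lintegral_withDensity_eq_lintegral_mul _ measurable_dens hf]
  have h := lintegral_const_mul (μ := (volume : Measure ℂ)) (ENNReal.ofReal (1 / Real.pi))
    (f := fun z => f z * (E z * E z)) (hf.mul (measurable_E.mul measurable_E))
  rw [← h]
  refine lintegral_congr fun z => ?_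
  rw [Pi.mul_apply, dens_eq]
  ring

lemma norm_exp_eq (w z : ℂ) : ‖Complex.exp (w * conj z)‖ₑ * (E w * E z) = E (w - z) := by
  unfold E
  rw [← ofReal_norm, Complex.norm_exp, ← ENNReal.ofReal_mul (by positivity),
    ← ENNReal.ofReal_mul (by positivity), ← Real.exp_add, ← Real.exp_add]
  congr 2
  have h1 : ‖w - z‖ ^ 2 = ‖w‖ ^ 2 + ‖z‖ ^ 2 - 2 * (w * conj z).re := by
    rw [← Complex.normSq_eq_norm_sq, ← Complex.normSq_eq_norm_sq, ← Complex.normSq_eq_norm_sq,
      Complex.normSq_sub]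
  rw [h1]; ring

lemma pi_inv_le : ENNReal.ofReal (1 / Real.pi) ≤ 1 := by
  rw [← ENNReal.ofReal_one]
  refine ENNReal.ofReal_le_ofReal ?_
  rw [div_le_one Real.pi_pos]
  linarith [Real.pi_gt_three]

/-- The basic convolution estimate. -/
lemma lint_conv {a b c : ℂ → ℝ≥0∞} (ha : Measurable a) (hb : Measurable b) (hc : Measurable c) :
    ∫⁻ z, ∫⁻ w, a w * b (w - z) * c z ≤
      (∫⁻ u, b u) * ((∫⁻ w, a w ^ (2 : ℝ)) ^ (1 / 2 : ℝ) * (∫⁻ z, c z ^ (2 : ℝ)) ^ (1 / 2 : ℝ)) := by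
  have h1 : ∫⁻ z, ∫⁻ w, a w * b (w - z) * c z = ∫⁻ z, ∫⁻ u, a (u + z) * b u * c z := by
    refine lintegral_congr fun z => ?_
    have := lintegral_add_right_eq_self (μ := (volume : Measure ℂ))
      (fun w => a w * b (w - z) * c z) z
    rw [← this]
    refine lintegral_congr fun u => ?_
    rw [add_sub_cancel_right]
  rw [h1, lintegral_lintegral_swap]
  · have h2 : ∀ u : ℂ, ∫⁻ z, a (u + z) * b u * c z ≤
        b u * ((∫⁻ w, a w ^ (2 : ℝ)) ^ (1 / 2 : ℝ) * (∫⁻ z, c z ^ (2 : ℝ)) ^ (1 / 2 : ℝ)) := by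
      intro u
      have h3 : ∫⁻ z, a (u + z) * b u * c z = b u * ∫⁻ z, a (u + z) * c z := by
        have h := lintegral_const_mul (μ := (volume : Measure ℂ)) (b u)
          (f := fun z => a (u + z) * c z) ((ha.comp (measurable_const_add u)).mul hc)
        rw [← h]
        refine lintegral_congr fun z => ?_
        ring
      rw [h3]
      refine mul_le_mul' le_rfl ?_
      have h4 := ENNReal.lintegral_mul_le_Lp_mul_Lq (μ := (volume : Measure ℂ))
        (p := 2) (q := 2) (Real.HolderConjugate.two_two)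
        (ha.comp (measurable_const_add u)).aemeasurable hc.aemeasurable
      refine h4.trans ?_
      refine mul_le_mul' ?_ le_rfl
      have h5 := lintegral_add_left_eq_self (μ := (volume : Measure ℂ))
        (fun w => a w ^ (2 : ℝ)) u
      have h6 : ∫⁻ z, ((a ∘ fun x => u + x) z) ^ (2 : ℝ) = ∫⁻ w, a w ^ (2 : ℝ) := by
        rw [← h5]; rfl
      rw [h6]
    refine (lintegral_mono h2).trans ?_
    rw [lintegral_mul_const _ hb]
  · refine Measurable.aemeasurable ?_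
    refine ((ha.comp ?_).mul (hb.comp ?_)).mul (hc.comp ?_)
    · exact measurable_snd.add measurable_fst
    · exact measurable_snd
    · exact measurable_fst

lemma lint_sq_E (g : H) : ∫⁻ w, (‖g w‖ₑ * E w) ^ (2 : ℝ) =
    ENNReal.ofReal Real.pi * ‖g‖ₑ ^ (2 : ℝ) := by
  have hgm : Measurable (g : ℂ → ℂ) := (Lp.stronglyMeasurable g).measurable
  have h1 : ‖g‖ₑ ^ (2 : ℝ) = ∫⁻ x, ‖g x‖ₑ ^ (2 : ℝ) ∂γ := by
    rw [Lp.enorm_def, eLpNorm_eq_lintegral_rpow_enorm_toReal (by norm_num) (by norm_num)]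
    rw [← ENNReal.rpow_mul]
    norm_num
  rw [h1, lint_γ (by fun_prop), ← mul_assoc, ← ENNReal.ofReal_mul (by positivity),
    mul_one_div_cancel Real.pi_ne_zero, ENNReal.ofReal_one, one_mul]
  refine lintegral_congr fun w => ?_
  rw [ENNReal.mul_rpow_of_nonneg _ _ (by norm_num)]
  congr 1
  rw [ENNReal.rpow_two, sq]

lemma measurable_ig {Φ φ g f : ℂ → ℂ} (hΦ : Measurable Φ) (hφ : Measurable φ) (hg : Measurable g)
    (hf : Measurable f) : Measurable (ig Φ φ g f) := by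
  unfold ig
  have h1 : Measurable fun p : ℂ × ℂ => g p.1 := hg.comp measurable_fst
  have h2 : Measurable fun p : ℂ × ℂ => φ (p.1 - p.2) :=
    hφ.comp (measurable_fst.sub measurable_snd)
  have h3 : Measurable fun p : ℂ × ℂ => Φ p.2 := hΦ.comp measurable_snd
  have h4 : Measurable fun p : ℂ × ℂ => f p.2 := hf.comp measurable_snd
  have h5 : Measurable fun p : ℂ × ℂ => Complex.exp (p.1 * conj p.2) := by
    refine Complex.measurable_exp.comp (measurable_fst.mul ?_)
    exact Complex.continuous_conj.measurable.comp measurable_snd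
  have h6 : Measurable fun p : ℂ × ℂ => conj (g p.1) :=
    Complex.continuous_conj.measurable.comp h1
  exact (h6.mul (h2.mul h5)).mul (h3.mul h4)

/-- the absolute integrability of the form -/
lemma lint_ig {Φ φ : ℂ → ℂ} (hΦ : Measurable Φ) (hφ : Measurable φ) {M : ℝ}
    (hM : ∀ z, ‖Φ z‖ ≤ M) (g f : H) :
    ∫⁻ p, ‖ig Φ φ g f p‖ₑ ∂(γ.prod γ) ≤
      ENNReal.ofReal M * (∫⁻ u, ‖φ u‖ₑ * E u) * (‖g‖ₑ * ‖f‖ₑ) := by
  have hgm : Measurable (g : ℂ → ℂ) := (Lp.stronglyMeasurable g).measurable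
  have hfm : Measurable (f : ℂ → ℂ) := (Lp.stronglyMeasurable f).measurable
  have hm := measurable_ig hΦ hφ hgm hfm
  rw [lintegral_prod_symm _ hm.enorm.aemeasurable]
  have h1 : ∫⁻ z, ∫⁻ w, ‖ig Φ φ g f (w, z)‖ₑ ∂γ ∂γ =
      ENNReal.ofReal (1 / Real.pi) * (ENNReal.ofReal (1 / Real.pi) *
        ∫⁻ z, ∫⁻ w, ‖ig Φ φ g f (w, z)‖ₑ * (E w * E w) * (E z * E z)) := by
    rw [lint_γ]
    · congr 1
      rw [← lintegral_const_mul]
      · refine lintegral_congr fun z => ?_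
        rw [lint_γ (by exact (hm.comp measurable_prodMk_right).enorm), mul_assoc]
        congr 1
        rw [lintegral_mul_const]
        exact ((hm.comp measurable_prodMk_right).enorm).mul (measurable_E.mul measurable_E)
      · refine Measurable.lintegral_prod_right' (f := fun q : ℂ × ℂ =>
          ‖ig Φ φ g f (q.2, q.1)‖ₑ * (E q.2 * E q.2) * (E q.1 * E q.1)) ?_
        have := (hm.comp measurable_swap).enorm
        exact (this.mul ((measurable_E.comp measurable_snd).mul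
          (measurable_E.comp measurable_snd))).mul ((measurable_E.comp measurable_fst).mul
          (measurable_E.comp measurable_fst))
    · exact Measurable.lintegral_prod_right' (f := fun q : ℂ × ℂ => ‖ig Φ φ g f (q.2, q.1)‖ₑ)
        (hm.comp measurable_swap).enorm
  rw [h1]
  have h2 : ∫⁻ z, ∫⁻ w, ‖ig Φ φ g f (w, z)‖ₑ * (E w * E w) * (E z * E z) ≤
      ENNReal.ofReal M * ∫⁻ z, ∫⁻ w, (‖g w‖ₑ * E w) * (‖φ (w - z)‖ₑ * E (w - z)) *
        (‖f z‖ₑ * E z) := by
    rw [← lintegral_const_mul]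
    · refine lintegral_mono fun z => ?_
      dsimp only
      rw [← lintegral_const_mul]
      · refine lintegral_mono fun w => ?_
        have hΦM : ‖Φ z‖ₑ ≤ ENNReal.ofReal M := by
          rw [← ofReal_norm]; exact ENNReal.ofReal_le_ofReal (hM z)
        have hn : ‖ig Φ φ g f (w, z)‖ₑ = ‖g w‖ₑ * (‖φ (w - z)‖ₑ * ‖Complex.exp (w * conj z)‖ₑ) *
            (‖Φ z‖ₑ * ‖f z‖ₑ) := by
          unfold ig
          simp only [enorm_mul]
          congr 2
          rw [← ofReal_norm, Complex.norm_conj, ofReal_norm]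
        rw [hn, ← norm_exp_eq w z]
        calc ‖g w‖ₑ * (‖φ (w - z)‖ₑ * ‖Complex.exp (w * conj z)‖ₑ) * (‖Φ z‖ₑ * ‖f z‖ₑ) *
              (E w * E w) * (E z * E z)
            = ‖Φ z‖ₑ * ((‖g w‖ₑ * E w) * (‖φ (w - z)‖ₑ *
              (‖Complex.exp (w * conj z)‖ₑ * (E w * E z))) * (‖f z‖ₑ * E z)) := by ring
          _ ≤ _ := mul_le_mul' hΦM le_rfl
      · have h3 : Measurable fun w => (‖g w‖ₑ * E w) * (‖φ (w - z)‖ₑ * E (w - z)) := by
          refine (hgm.enorm.mul measurable_E).mul ?_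
          exact ((hφ.comp (measurable_id.sub_const z)).enorm).mul
            (measurable_E.comp (measurable_id.sub_const z))
        exact h3.mul_const _
    · refine Measurable.lintegral_prod_right' (f := fun q : ℂ × ℂ =>
        (‖g q.2‖ₑ * E q.2) * (‖φ (q.2 - q.1)‖ₑ * E (q.2 - q.1)) * (‖f q.1‖ₑ * E q.1)) ?_
      have hs : Measurable fun q : ℂ × ℂ => q.2 - q.1 := measurable_snd.sub measurable_fst
      exact (((hgm.comp measurable_snd).enorm.mul (measurable_E.comp measurable_snd)).mul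
        ((hφ.comp hs).enorm.mul (measurable_E.comp hs))).mul
        ((hfm.comp measurable_fst).enorm.mul (measurable_E.comp measurable_fst))
  have h3 := lint_conv (a := fun w => ‖g w‖ₑ * E w) (b := fun u => ‖φ u‖ₑ * E u)
    (c := fun z => ‖f z‖ₑ * E z) (hgm.enorm.mul measurable_E) (hφ.enorm.mul measurable_E)
    (hfm.enorm.mul measurable_E)
  beta_reduce at h3
  rw [lint_sq_E, lint_sq_E, ENNReal.mul_rpow_of_nonneg _ _ (by norm_num),
    ENNReal.mul_rpow_of_nonneg _ _ (by norm_num), ← ENNReal.rpow_mul, ← ENNReal.rpow_mul] at h3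
  norm_num only at h3
  simp only [ENNReal.rpow_one] at h3
  set P : ℝ≥0∞ := ENNReal.ofReal Real.pi ^ (1 / 2 : ℝ) with hP
  have hPP : P * P = ENNReal.ofReal Real.pi := by
    rw [hP, ← ENNReal.rpow_add_of_nonneg _ _ (by norm_num) (by norm_num)]
    norm_num
  have hc : ENNReal.ofReal (1 / Real.pi) * (P * P) = 1 := by
    rw [hPP, ← ENNReal.ofReal_mul (by positivity), one_div_mul_cancel Real.pi_ne_zero,
      ENNReal.ofReal_one]
  calc ENNReal.ofReal (1 / Real.pi) * (ENNReal.ofReal (1 / Real.pi) *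
        ∫⁻ z, ∫⁻ w, ‖ig Φ φ g f (w, z)‖ₑ * (E w * E w) * (E z * E z))
      ≤ 1 * (ENNReal.ofReal (1 / Real.pi) * (ENNReal.ofReal M *
        ((∫⁻ u, ‖φ u‖ₑ * E u) * (P * ‖g‖ₑ * (P * ‖f‖ₑ))))) := by
        refine mul_le_mul' pi_inv_le (mul_le_mul' le_rfl (h2.trans (mul_le_mul' le_rfl h3)))
    _ = (ENNReal.ofReal (1 / Real.pi) * (P * P)) * (ENNReal.ofReal M *
        (∫⁻ u, ‖φ u‖ₑ * E u) * (‖g‖ₑ * ‖f‖ₑ)) := by ring
    _ = _ := by rw [hc, one_mul]

end

end Pool.Agent.R283.FT
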