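import Pool.Agent.R283.FT.Stm2
import Pool.Agent.R283.FT.B

/-!
# Continuity of the kernel functions
-/

set_option autoImplicit false

open MeasureTheory Complex Set Metric Filter Topology
open scoped ComplexConjugate ENNReal InnerProductSpace

namespace Pool.Agent.R283.FT

noncomputable section

lemma norm_om (z u : ℂ) : ‖om z u‖ = 1 := by
  unfold om
  rw [show -(Complex.I * (((z * conj u).im : ℝ) : ℂ)) = ((-(z * conj u).im : ℝ) : ℂ) * Complex.I by
    push_cast; ring]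
  exact Complex.norm_exp_ofReal_mul_I _

lemma continuous_om (z : ℂ) : Continuous (om z) := by
  unfold om
  refine Complex.continuous_exp.comp (continuous_const.mul ?_).neg
  refine Complex.continuous_ofReal.comp (Complex.continuous_im.comp ?_)
  exact continuous_const.mul Complex.continuous_conj

/-- locally uniform exponential bound -/
lemma kf_bound {K₀ : ℂ → ℂ} (hK : Mild K₀) (ρ : ℝ) (hρ : 0 ≤ ρ) :
    ∃ C M : ℝ, 0 ≤ C ∧ ∀ u w : ℂ, ‖u‖ ≤ ρ → ‖kf K₀ u w‖ ≤ C * Real.exp (M * ‖w‖) := by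
  obtain ⟨hc, C, M, hCM⟩ := hK
  have hC : 0 ≤ C := by
    have h1 := (norm_nonneg _).trans (hCM 0)
    have h2 : 0 < Real.exp (M * ‖(0 : ℂ)‖) := Real.exp_pos _
    by_contra hneg
    push Not at hneg
    nlinarith
  refine ⟨C * Real.exp (|M| * ρ), |M| + ρ, by positivity, fun u w hu => ?_⟩
  unfold kf
  rw [norm_mul, norm_mul, Complex.norm_exp, Complex.norm_real, Real.norm_eq_abs,
    abs_of_pos (Real.exp_pos _)]
  have h1 : ‖K₀ (w - u)‖ ≤ C * Real.exp (|M| * (‖w‖ + ρ)) := by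
    refine (hCM _).trans (mul_le_mul_of_nonneg_left (Real.exp_le_exp.2 ?_) hC)
    refine (mul_le_mul_of_nonneg_right (le_abs_self M) (norm_nonneg _)).trans ?_
    refine mul_le_mul_of_nonneg_left ?_ (abs_nonneg M)
    exact (norm_sub_le w u).trans (by linarith)
  have h2 : Real.exp (w * conj u).re ≤ Real.exp (ρ * ‖w‖) := by
    refine Real.exp_le_exp.2 ?_
    refine (Complex.re_le_norm _).trans ?_
    rw [norm_mul, Complex.norm_conj, mul_comm]
    exact mul_le_mul_of_nonneg_right hu (norm_nonneg _)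
  have h3 : Real.exp (-‖u‖ ^ 2 / 2) ≤ 1 := by
    rw [Real.exp_le_one_iff]
    have := sq_nonneg ‖u‖
    linarith
  calc ‖K₀ (w - u)‖ * Real.exp (w * conj u).re * Real.exp (-‖u‖ ^ 2 / 2)
      ≤ (C * Real.exp (|M| * (‖w‖ + ρ))) * Real.exp (ρ * ‖w‖) * 1 := by
        refine mul_le_mul (mul_le_mul h1 h2 (Real.exp_pos _).le (by positivity)) h3
          (Real.exp_pos _).le (by positivity)
    _ = C * (Real.exp (|M| * (‖w‖ + ρ)) * Real.exp (ρ * ‖w‖)) := by ring
    _ = C * (Real.exp (|M| * ρ) * Real.exp ((|M| + ρ) * ‖w‖)) := by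
        rw [← Real.exp_add, ← Real.exp_add]; congr 2; ring
    _ = _ := by ring

lemma continuous_kf_w {K₀ : ℂ → ℂ} (hK : Mild K₀) (u : ℂ) : Continuous (kf K₀ u) := by
  unfold kf
  have := hK.1
  fun_prop

lemma continuous_kf_u {K₀ : ℂ → ℂ} (hK : Mild K₀) (w : ℂ) :
    Continuous fun u => kf K₀ u w := by
  unfold kf
  have h1 := hK.1
  have h2 : Continuous fun u : ℂ => K₀ (w - u) := h1.comp (continuous_const.sub continuous_id)
  have h3 : Continuous fun u : ℂ => Complex.exp (w * conj u) :=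
    Complex.continuous_exp.comp (continuous_const.mul Complex.continuous_conj)
  have h4 : Continuous fun u : ℂ => ((Real.exp (-‖u‖ ^ 2 / 2) : ℝ) : ℂ) :=
    Complex.continuous_ofReal.comp (by fun_prop)
  exact (h2.mul h3).mul h4

lemma mild_kf {K₀ : ℂ → ℂ} (hK : Mild K₀) (u : ℂ) : Mild (kf K₀ u) := by
  obtain ⟨C, M, _, h⟩ := kf_bound hK ‖u‖ (norm_nonneg _)
  exact ⟨continuous_kf_w hK u, C, M, fun w => h u w le_rfl⟩

lemma norm_kf_half (K₀ : ℂ → ℂ) (z w : ℂ) :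
    ‖kf K₀ z w‖ * Real.exp (-‖w‖ ^ 2 / 2) = ‖K₀ (w - z)‖ * Real.exp (-‖w - z‖ ^ 2 / 2) := by
  have h1 := b_kf K₀ z w
  have h0 : ∀ x : ℝ, Real.exp (-x ^ 2) = Real.exp (-x ^ 2 / 2) ^ 2 := by
    intro x
    rw [← Real.exp_nat_mul]; congr 1; push_cast; ring
  have h2 := h0 ‖w‖
  have h3 := h0 ‖w - z‖
  rw [h2, h3, ← mul_pow, ← mul_pow] at h1
  exact (pow_left_inj₀ (by positivity) (by positivity) two_ne_zero).1 h1

lemma nrm_kf (K₀ : ℂ → ℂ) (u : ℂ) : nrm (kf K₀ u) = nrm K₀ := by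
  unfold nrm
  simp_rw [norm_kf_half]
  exact integral_sub_right_eq_self (fun w => ‖K₀ w‖ * Real.exp (-‖w‖ ^ 2 / 2)) u

lemma tendsto_nrm_kf {K₀ : ℂ → ℂ} (hK : Mild K₀) (u₀ : ℂ) :
    Tendsto (fun u => nrm (fun w => kf K₀ u w - kf K₀ u₀ w)) (𝓝 u₀) (𝓝 0) := by
  obtain ⟨C, M, hC, h⟩ := kf_bound hK (‖u₀‖ + 1) (by positivity)
  have h0 : ∫ _w : ℂ, (0 : ℝ) = 0 := by simp
  rw [← h0]
  unfold nrm
  refine tendsto_integral_filter_of_dominated_convergence
    (fun w => 2 * C * (Real.exp (M * ‖w‖) * Real.exp (-(1 / 2) * ‖w‖ ^ 2))) ?_ ?_ ?_ ?_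
  · refine Eventually.of_forall fun u => ?_
    exact (((continuous_kf_w hK u).sub (continuous_kf_w hK u₀)).norm.mul
      (by fun_prop : Continuous fun w : ℂ => Real.exp (-‖w‖ ^ 2 / 2))).aestronglyMeasurable
  · have hb : ∀ᶠ u in 𝓝 u₀, ‖u‖ < ‖u₀‖ + 1 :=
      continuous_norm.continuousAt.eventually (gt_mem_nhds (by linarith))
    filter_upwards [hb] with u hu
    refine Eventually.of_forall fun w => ?_
    rw [Real.norm_of_nonneg (by positivity)]
    have h1 := h u w hu.le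
    have h2 := h u₀ w (by linarith)
    have h3 : ‖kf K₀ u w - kf K₀ u₀ w‖ ≤ 2 * (C * Real.exp (M * ‖w‖)) :=
      (norm_sub_le _ _).trans (by linarith)
    rw [show -(1 / 2 : ℝ) * ‖w‖ ^ 2 = -‖w‖ ^ 2 / 2 by ring]
    calc _ ≤ 2 * (C * Real.exp (M * ‖w‖)) * Real.exp (-‖w‖ ^ 2 / 2) :=
          mul_le_mul_of_nonneg_right h3 (Real.exp_pos _).le
      _ = _ := by ring
  · exact (integrable_exp_gauss M (b := 1 / 2) (by norm_num)).const_mul _
  · refine Eventually.of_forall fun w => ?_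
    have h1 : Tendsto (fun u => ‖kf K₀ u w - kf K₀ u₀ w‖ * Real.exp (-‖w‖ ^ 2 / 2)) (𝓝 u₀)
        (𝓝 (‖kf K₀ u₀ w - kf K₀ u₀ w‖ * Real.exp (-‖w‖ ^ 2 / 2))) :=
      (((continuous_kf_u hK w).continuousAt.sub continuousAt_const).norm).mul_const _
    simpa using h1

lemma sq_sub_kf {K₀ : ℂ → ℂ} (k : ℂ → H)
    (hk : ∀ z, (k z : ℂ → ℂ) =ᵐ[γ] kf K₀ z) (u u' : ℂ) :
    ‖k u - k u'‖ ^ 2 = ∫ w : ℂ, (Real.exp (-‖w‖ ^ 2) / Real.pi) *
      ‖kf K₀ u w - kf K₀ u' w‖ ^ 2 := by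
  rw [b_norm_sq, ← b_integral_γ]
  refine integral_congr_ae ?_
  filter_upwards [Lp.coeFn_sub (k u) (k u'), hk u, hk u'] with w h1 h2 h3
  rw [h1, Pi.sub_apply, h2, h3]

lemma continuous_k {K₀ : ℂ → ℂ} (hK : Mild K₀) (k : ℂ → H)
    (hk : ∀ z, (k z : ℂ → ℂ) =ᵐ[γ] kf K₀ z) : Continuous k := by
  rw [continuous_iff_continuousAt]
  intro u₀
  rw [ContinuousAt, tendsto_iff_norm_sub_tendsto_zero]
  have hsq : Tendsto (fun u => ‖k u - k u₀‖ ^ 2) (𝓝 u₀) (𝓝 0) := by
    simp_rw [sq_sub_kf k hk]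
    obtain ⟨C, M, hC, h⟩ := kf_bound hK (‖u₀‖ + 1) (by positivity)
    have h0 : ∫ _w : ℂ, (0 : ℝ) = 0 := by simp
    rw [← h0]
    refine tendsto_integral_filter_of_dominated_convergence
      (fun w => 4 * C ^ 2 / Real.pi * (Real.exp (2 * M * ‖w‖) * Real.exp (-1 * ‖w‖ ^ 2)))
      ?_ ?_ ?_ ?_
    · refine Eventually.of_forall fun u => ?_
      exact ((by fun_prop : Continuous fun w : ℂ => Real.exp (-‖w‖ ^ 2) / Real.pi).mul
        (((continuous_kf_w hK u).sub (continuous_kf_w hK u₀)).norm.pow 2)).aestronglyMeasurable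
    · have hb : ∀ᶠ u in 𝓝 u₀, ‖u‖ < ‖u₀‖ + 1 :=
        continuous_norm.continuousAt.eventually (gt_mem_nhds (by linarith))
      filter_upwards [hb] with u hu
      refine Eventually.of_forall fun w => ?_
      rw [Real.norm_of_nonneg (by positivity)]
      have h1 := h u w hu.le
      have h2 := h u₀ w (by linarith)
      have h3 : ‖kf K₀ u w - kf K₀ u₀ w‖ ≤ 2 * (C * Real.exp (M * ‖w‖)) :=
        (norm_sub_le _ _).trans (by linarith)
      have h4 : ‖kf K₀ u w - kf K₀ u₀ w‖ ^ 2 ≤ (2 * (C * Real.exp (M * ‖w‖))) ^ 2 :=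
        pow_le_pow_left₀ (norm_nonneg _) h3 2
      calc _ ≤ Real.exp (-‖w‖ ^ 2) / Real.pi * (2 * (C * Real.exp (M * ‖w‖))) ^ 2 :=
            mul_le_mul_of_nonneg_left h4 (by positivity)
        _ = 4 * C ^ 2 / Real.pi * ((Real.exp (M * ‖w‖) * Real.exp (M * ‖w‖)) *
            Real.exp (-‖w‖ ^ 2)) := by ring
        _ = _ := by
            rw [← Real.exp_add]
            congr 3
            · ring_nf
            · ring_nf
    · exact (integrable_exp_gauss (2 * M) (b := 1) (by norm_num)).const_mul _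
    · refine Eventually.of_forall fun w => ?_
      have h1 : Tendsto (fun u => Real.exp (-‖w‖ ^ 2) / Real.pi * ‖kf K₀ u w - kf K₀ u₀ w‖ ^ 2)
          (𝓝 u₀) (𝓝 (Real.exp (-‖w‖ ^ 2) / Real.pi * ‖kf K₀ u₀ w - kf K₀ u₀ w‖ ^ 2)) :=
        (((continuous_kf_u hK w).continuousAt.sub continuousAt_const).norm.pow 2).const_mul _
      simpa using h1
  have h2 := (Real.continuous_sqrt.tendsto 0).comp hsq
  rw [Real.sqrt_zero] at h2
  refine h2.congr fun u => ?_
  simp [Real.sqrt_sq (norm_nonneg _)]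

lemma om_kf (K₀ : ℂ → ℂ) (z u w : ℂ) :
    om z u * kf K₀ (z + u) w =
      ((Real.exp (-‖z‖ ^ 2 / 2) : ℝ) : ℂ) * (kf K₀ u (w - z) * Complex.exp (w * conj z)) := by
  unfold om kf
  rw [show w - (z + u) = w - z - u by ring]
  push_cast
  have h1 : ∀ a b c d : ℂ, a * (K₀ (w - z - u) * b * c) = d * (K₀ (w - z - u)) → True := by
    intros; trivial
  have h2 : ((‖z + u‖ : ℝ) : ℂ) ^ 2 = (z + u) * (conj z + conj u) := by
    rw [← map_add, Complex.mul_conj, Complex.normSq_eq_norm_sq]; push_cast; ring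
  have h3 : ((‖z‖ : ℝ) : ℂ) ^ 2 = z * conj z := by
    rw [Complex.mul_conj, Complex.normSq_eq_norm_sq]; push_cast; ring
  have h4 : ((‖u‖ : ℝ) : ℂ) ^ 2 = u * conj u := by
    rw [Complex.mul_conj, Complex.normSq_eq_norm_sq]; push_cast; ring
  have h5 : Complex.I * (((z * conj u).im : ℝ) : ℂ) = (z * conj u - u * conj z) / 2 := by
    have h6 := Complex.im_eq_sub_conj (z * conj u)
    rw [h6, map_mul, Complex.conj_conj]
    field_simp
  rw [h2, h3, h4, h5]
  have e1 : Complex.exp (-((z * conj u - u * conj z) / 2)) *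
      (K₀ (w - z - u) * Complex.exp (w * conj (z + u)) *
        Complex.exp (-((z + u) * (conj z + conj u)) / 2)) =
      K₀ (w - z - u) * (Complex.exp (-((z * conj u - u * conj z) / 2)) *
      (Complex.exp (w * conj (z + u)) * Complex.exp (-((z + u) * (conj z + conj u)) / 2))) := by
    ring
  have e2 : Complex.exp (-(z * conj z) / 2) *
      (K₀ (w - z - u) * Complex.exp ((w - z) * conj u) * Complex.exp (-(u * conj u) / 2) *
        Complex.exp (w * conj z)) =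
      K₀ (w - z - u) * (Complex.exp (-(z * conj z) / 2) * (Complex.exp ((w - z) * conj u) *
        (Complex.exp (-(u * conj u) / 2) * Complex.exp (w * conj z)))) := by
    ring
  rw [e1, e2, ← Complex.exp_add, ← Complex.exp_add, ← Complex.exp_add, ← Complex.exp_add,
    ← Complex.exp_add, map_add]
  congr 2
  ring

lemma isom_k {K₀ : ℂ → ℂ} (k : ℂ → H)
    (hk : ∀ z, (k z : ℂ → ℂ) =ᵐ[γ] kf K₀ z) (z u u' : ℂ) :
    ‖om z u • k (z + u) - om z u' • k (z + u')‖ = ‖k u - k u'‖ := by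
  have h1 : ‖om z u • k (z + u) - om z u' • k (z + u')‖ ^ 2 = ‖k u - k u'‖ ^ 2 := by
    rw [sq_sub_kf k hk, b_norm_sq, ← integral_sub_right_eq_self (μ := (volume : Measure ℂ)) _ z]
    have h2 : ∫ w, ‖((om z u • k (z + u) - om z u' • k (z + u') : H) : ℂ → ℂ) w‖ ^ 2 ∂γ =
        ∫ w, ‖om z u * kf K₀ (z + u) w - om z u' * kf K₀ (z + u') w‖ ^ 2 ∂γ := by
      refine integral_congr_ae ?_
      filter_upwards [Lp.coeFn_sub (om z u • k (z + u)) (om z u' • k (z + u')),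
        Lp.coeFn_smul (om z u) (k (z + u)), Lp.coeFn_smul (om z u') (k (z + u')),
        hk (z + u), hk (z + u')] with w h3 h4 h5 h6 h7
      rw [h3, Pi.sub_apply, h4, h5, Pi.smul_apply, Pi.smul_apply, h6, h7, smul_eq_mul,
        smul_eq_mul]
    rw [h2, b_integral_γ]
    refine integral_congr_ae (Eventually.of_forall fun w => ?_)
    beta_reduce
    rw [om_kf, om_kf, ← mul_sub, ← sub_mul, norm_mul, norm_mul, Complex.norm_real,
      Real.norm_of_nonneg (Real.exp_pos _).le, Complex.norm_exp, mul_pow, mul_pow]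
    have h8 : Real.exp (-‖w - z‖ ^ 2) = Real.exp (-‖w‖ ^ 2) * (Real.exp (-‖z‖ ^ 2 / 2) ^ 2 *
        Real.exp (w * conj z).re ^ 2) := by
      rw [← Real.exp_nat_mul, ← Real.exp_nat_mul, ← Real.exp_add, ← Real.exp_add]
      congr 1
      push_cast
      have h9 : ‖w - z‖ ^ 2 = ‖w‖ ^ 2 + ‖z‖ ^ 2 - 2 * (w * conj z).re := by
        rw [← Complex.normSq_eq_norm_sq, ← Complex.normSq_eq_norm_sq,
          ← Complex.normSq_eq_norm_sq, Complex.normSq_sub]
      rw [h9]; ring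
    rw [h8]
    ring
  exact (pow_left_inj₀ (norm_nonneg _) (norm_nonneg _) two_ne_zero).1 h1

theorem stmtG : StmtG := fun K₀ hK =>
  ⟨mild_kf hK, nrm_kf K₀, tendsto_nrm_kf hK, fun k hk => ⟨continuous_k hK k hk, isom_k k hk⟩⟩

end

end Pool.Agent.R283.FT
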