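import Pool.Agent.R283.FT.Alg

/-!
# Statements of two complements
-/

set_option autoImplicit false

open MeasureTheory Complex Set Metric Filter Topology
open scoped ComplexConjugate ENNReal InnerProductSpace

namespace Pool.Agent.R283.FT

noncomputable section

/-- The true polyanalytic Fock space of order `k + 1` as an orthogonal difference. -/
def TrueFock (k : ℕ) : Submodule ℂ H := Fock (k + 1) ⊓ (Fock k)ᗮ

/-- The Wirtinger derivative `∂φ/∂z = (∂φ/∂x - i ∂φ/∂y) / 2`. -/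
def dz (φ : ℂ → ℂ) (z : ℂ) : ℂ :=
  (fderiv ℝ φ z 1 - Complex.I * fderiv ℝ φ z Complex.I) / 2

/-- Part T: `TrueFock k` consists of the `f ∈ L²(ℂ, μ)` of the form
`f(z) = (1/k!) e^{|z|²} (∂/∂z)^k (e^{-|z|²} g(z))` with `g` entire. -/
def StmtT : Prop := ∀ (k : ℕ) (f : H), f ∈ TrueFock k ↔
  ∃ g : ℂ → ℂ, Differentiable ℂ g ∧ (f : ℂ → ℂ) =ᵐ[γ] fun z =>
    1 / (k.factorial : ℂ) * (Real.exp (‖z‖ ^ 2) : ℝ) *
      dz^[k] (fun w => (Real.exp (-‖w‖ ^ 2) : ℝ) * g w) z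

/-- Part R: operators in the Toeplitz algebra are band-dominated. -/
def StmtR : Prop := ∀ (F : Submodule ℂ H) [CompleteSpace F] (K₀ : ℂ → ℂ), Ker F K₀ →
  ∀ T ∈ toeplitzAlgebra F, IsBandDominated F T

end

end Pool.Agent.R283.FT
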