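import Pool.Agent.R283.FT.C
import Pool.Agent.R283.FT.Stm3

/-!
# The kernels of the polyanalytic and true polyanalytic Fock spaces
-/

set_option autoImplicit false

open MeasureTheory Complex Set Metric Filter Topology
open scoped ComplexConjugate ENNReal InnerProductSpace

namespace Pool.Agent.R283.FT

noncomputable section

lemma ae_poly_ne_zero (p : Polynomial ℝ) (hp : p ≠ 0) : ∀ᵐ w : ℂ, p.eval (‖w‖ ^ 2) ≠ 0 := by
  rw [ae_iff]
  have hsub : {w : ℂ | ¬ p.eval (‖w‖ ^ 2) ≠ 0} ⊆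
      ⋃ r ∈ (p.roots.toFinset : Set ℝ), Metric.sphere (0 : ℂ) (Real.sqrt r) := by
    intro w hw
    simp only [ne_eq, not_not, Set.mem_ofPred_eq] at hw
    refine mem_iUnion₂.2 ⟨‖w‖ ^ 2, ?_, ?_⟩
    · simp [hp, hw]
    · rw [mem_sphere_zero_iff_norm, Real.sqrt_sq (norm_nonneg _)]
  refine measure_mono_null hsub ?_
  rw [measure_biUnion_null_iff (Finset.countable_toSet _)]
  intro r _
  exact Measure.addHaar_sphere volume 0 _

/-- the polynomial of the kernel -/
def pn (n : ℕ) : Polynomial ℝ := ∑ j ∈ Finset.range n, Polynomial.C (cj n j) * Polynomial.X ^ j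

lemma Kn_pn (n : ℕ) (w : ℂ) : Kn n w = (((pn n).eval (‖w‖ ^ 2) : ℝ) : ℂ) := by
  rw [Kn_norm, pn, Polynomial.eval_finsetSum]
  simp

lemma pn_zero (n : ℕ) : (pn n).eval 0 = n := by
  rw [pn, Polynomial.eval_finsetSum]
  cases n with
  | zero => simp
  | succ m =>
    rw [Finset.sum_range_succ']
    simp [cj]

lemma Kn_neg (n : ℕ) (w : ℂ) : Kn n (-w) = Kn n w := by
  rw [Kn_norm, Kn_norm, norm_neg]

lemma Kn_mild0 (n : ℕ) : Mild (Kn n) := by
  simpa using Kn_mild n 0

instance instCompleteFock (n : ℕ) : CompleteSpace (Fock n) := (fock_closed n).completeSpace_coe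

theorem isClosed_TrueFock (k : ℕ) : IsClosed (TrueFock k : Set H) := by
  unfold TrueFock
  rw [Submodule.coe_inf]
  exact (fock_closed (k + 1)).inter (Submodule.isClosed_orthogonal _)

instance instCompleteTrueFock (k : ℕ) : CompleteSpace (TrueFock k) :=
  (isClosed_TrueFock k).completeSpace_coe

theorem ker_Fock (n : ℕ) (hn : 1 ≤ n) : Ker (Fock n) (Kn n) where
  mild := Kn_mild0 n
  symm := fun w => by rw [Kn_neg, Kn_conj]
  nz := by
    have hp : pn n ≠ 0 := by
      intro h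
      have h1 := pn_zero n
      rw [h, Polynomial.eval_zero] at h1
      have h2 : n = 0 := by exact_mod_cast h1.symm
      omega
    filter_upwards [ae_poly_ne_zero _ hp] with w hw
    rw [Kn_pn]
    exact_mod_cast hw
  mem := (stmtC n).2.1
  rep := (stmtC n).2.2

lemma Fock_le (n : ℕ) : Fock n ≤ Fock (n + 1) := by
  rintro f ⟨g, ⟨h, hh, hh2⟩, hg⟩
  refine ⟨g, ⟨fun k => if k < n then h k else 0, fun k => ?_, fun z => ?_⟩, hg⟩
  · beta_reduce
    split_ifs
    · exact hh k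
    · exact differentiable_const _
  · rw [hh2, Finset.sum_range_succ]
    simp only [lt_irrefl, if_false, Pi.zero_apply, mul_zero, add_zero]
    refine Finset.sum_congr rfl fun k hk => ?_
    rw [if_pos (Finset.mem_range.1 hk)]

lemma inner_kerH_fun {n : ℕ} {g : ℂ → ℂ} (hg : IsPolyC n g) {f : H} (hf : (f : ℂ → ℂ) =ᵐ[γ] g)
    (z : ℂ) : ⟪kerH n z, f⟫_ℂ = g z := by
  have hL : MemLp g 2 γ := (memLp_congr_ae hf).1 (Lp.memLp f)
  rw [inner_kerH, ← rep_fun hg hL z]
  refine integral_congr_ae ?_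
  filter_upwards [hf] with w hw
  rw [hw]

lemma IsPolyC.succ {n : ℕ} {g : ℂ → ℂ} (hg : IsPolyC n g) : IsPolyC (n + 1) g := by
  obtain ⟨h, hh, hh2⟩ := hg
  refine ⟨fun k => if k < n then h k else 0, fun k => ?_, fun z => ?_⟩
  · beta_reduce
    split_ifs
    · exact hh k
    · exact differentiable_const _
  · rw [hh2, Finset.sum_range_succ]
    simp only [lt_irrefl, if_false, Pi.zero_apply, mul_zero, add_zero]
    refine Finset.sum_congr rfl fun k hk => ?_
    rw [if_pos (Finset.mem_range.1 hk)]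

lemma kerH_diff_mem (k : ℕ) (z : ℂ) : kerH (k + 1) z - kerH k z ∈ TrueFock k := by
  refine ⟨(Fock (k + 1)).sub_mem (kerH_mem _ z) (Fock_le k (kerH_mem k z)), ?_⟩
  rintro f ⟨g, hg, hf⟩
  have h1 := inner_kerH_fun hg.succ hf z
  have h2 := inner_kerH_fun hg hf z
  have h3 : ⟪kerH (k + 1) z - kerH k z, f⟫_ℂ = 0 := by
    rw [inner_sub_left, h1, h2, sub_self]
  rw [← inner_conj_symm, h3, map_zero]

theorem ker_TrueFock (k : ℕ) : Ker (TrueFock k) (fun w => Kn (k + 1) w - Kn k w) where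
  mild := (Kn_mild0 _).sub (Kn_mild0 _)
  symm := fun w => by rw [Kn_neg, Kn_neg, map_sub, Kn_conj, Kn_conj]
  nz := by
    have hp : pn (k + 1) - pn k ≠ 0 := by
      intro h
      have h1 : (pn (k + 1) - pn k).eval 0 = 1 := by
        rw [Polynomial.eval_sub, pn_zero, pn_zero]; push_cast; ring
      rw [h, Polynomial.eval_zero] at h1
      norm_num at h1
    filter_upwards [ae_poly_ne_zero _ hp] with w hw
    rw [Kn_pn, Kn_pn, ← Complex.ofReal_sub, ← Polynomial.eval_sub]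
    exact_mod_cast hw
  mem := fun z => by
    refine ⟨_, kerH_diff_mem k z, ?_⟩
    filter_upwards [Lp.coeFn_sub (kerH (k + 1) z) (kerH k z), kerH_coe (k + 1) z,
      kerH_coe k z] with w h1 h2 h3
    rw [h1, Pi.sub_apply, h2, h3, ker, ker]
    ring
  rep := by
    rintro f ⟨hf1, hf2⟩
    filter_upwards [(stmtC (k + 1)).2.2 f hf1] with z hz
    have h1 : ⟪kerH k z, f⟫_ℂ = 0 := hf2 _ (kerH_mem k z)
    have h2 : ⟪kerH (k + 1) z, f⟫_ℂ = (f : ℂ → ℂ) z := by
      rw [inner_kerH, hz]; rfl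
    have h3 : ⟪kerH (k + 1) z - kerH k z, f⟫_ℂ = (f : ℂ → ℂ) z := by
      rw [inner_sub_left, h1, h2, sub_zero]
    rw [← h3, inner_H]
    refine integral_congr_ae ?_
    filter_upwards [Lp.coeFn_sub (kerH (k + 1) z) (kerH k z), kerH_coe (k + 1) z,
      kerH_coe k z] with w h4 h5 h6
    rw [h4, Pi.sub_apply, h5, h6, ker, ker]
    congr 2
    ring

end

end Pool.Agent.R283.FT
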