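import Pool.Agent.R283.FT.Form

/-!
# The operators of the twisted convolution forms
-/

set_option autoImplicit false

open MeasureTheory Complex Set Metric Filter Topology
open scoped ComplexConjugate ENNReal InnerProductSpace

namespace Pool.Agent.R283.FT

noncomputable section

lemma Mild.continuous {φ : ℂ → ℂ} (h : Mild φ) : Continuous φ := h.1

lemma Mild.measurable {φ : ℂ → ℂ} (h : Mild φ) : Measurable φ := h.1.measurable

/-- exponential growth against the Gaussian -/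
lemma integrable_exp_gauss (M : ℝ) {b : ℝ} (hb : 0 < b) :
    Integrable fun w : ℂ => Real.exp (M * ‖w‖) * Real.exp (-b * ‖w‖ ^ 2) := by
  have hi : Integrable (fun z : ℂ => Real.exp (-(b / 2) * ‖z‖ ^ 2)) := by
    have h := GaussianFourier.integral_rexp_neg_mul_sq_norm (V := ℂ) (b := b / 2) (by positivity)
    by_contra hc
    rw [integral_undef hc] at h
    have : (0 : ℝ) < (Real.pi / (b / 2)) ^ ((Module.finrank ℝ ℂ : ℝ) / 2) := by positivity
    linarith
  refine (hi.const_mul (Real.exp (M ^ 2 / (2 * b)))).mono' ?_ (Eventually.of_forall fun w => ?_)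
  · exact (by fun_prop : Continuous fun w : ℂ =>
      Real.exp (M * ‖w‖) * Real.exp (-b * ‖w‖ ^ 2)).aestronglyMeasurable
  · rw [Real.norm_of_nonneg (by positivity), ← Real.exp_add, ← Real.exp_add]
    refine Real.exp_le_exp.2 ?_
    have h1 : 0 ≤ b / 2 * (‖w‖ - M / b) ^ 2 := by positivity
    have h2 : b / 2 * (‖w‖ - M / b) ^ 2 = b / 2 * ‖w‖ ^ 2 - M * ‖w‖ + M ^ 2 / (2 * b) := by
      field_simp; ring
    nlinarith

lemma Mild.integrable {φ : ℂ → ℂ} (h : Mild φ) :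
    Integrable fun w : ℂ => ‖φ w‖ * Real.exp (-‖w‖ ^ 2 / 2) := by
  obtain ⟨hc, C, M, hCM⟩ := h
  refine ((integrable_exp_gauss M (b := 1 / 2) (by norm_num)).const_mul C).mono' ?_
    (Eventually.of_forall fun w => ?_)
  · exact (by fun_prop : Continuous fun w : ℂ =>
      ‖φ w‖ * Real.exp (-‖w‖ ^ 2 / 2)).aestronglyMeasurable
  · rw [Real.norm_of_nonneg (by positivity), ← mul_assoc]
    rw [show -(1 / 2 : ℝ) * ‖w‖ ^ 2 = -‖w‖ ^ 2 / 2 by ring]
    exact mul_le_mul_of_nonneg_right (hCM w) (by positivity)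

lemma Mild.lint {φ : ℂ → ℂ} (h : Mild φ) :
    ∫⁻ u, ‖φ u‖ₑ * E u = ENNReal.ofReal (nrm φ) := by
  unfold nrm
  rw [ofReal_integral_eq_lintegral_ofReal h.integrable
    (Eventually.of_forall fun w => by positivity)]
  refine lintegral_congr fun w => ?_
  rw [ENNReal.ofReal_mul (by positivity), ofReal_norm, E]

lemma Mild.mul {φ ψ : ℂ → ℂ} (h : Mild φ) (h' : Mild ψ) : Mild fun w => φ w * ψ w := by
  obtain ⟨hc, C, M, hCM⟩ := h
  obtain ⟨hc', C', M', hCM'⟩ := h'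
  refine ⟨hc.mul hc', C * C', M + M', fun w => ?_⟩
  have h0 : 0 ≤ C * Real.exp (M * ‖w‖) := (norm_nonneg _).trans (hCM w)
  calc ‖φ w * ψ w‖ = ‖φ w‖ * ‖ψ w‖ := norm_mul _ _
    _ ≤ (C * Real.exp (M * ‖w‖)) * (C' * Real.exp (M' * ‖w‖)) :=
        mul_le_mul (hCM w) (hCM' w) (norm_nonneg _) h0
    _ = C * C' * (Real.exp (M * ‖w‖) * Real.exp (M' * ‖w‖)) := by ring
    _ = _ := by rw [← Real.exp_add]; ring_nf

lemma Mild.add {φ ψ : ℂ → ℂ} (h : Mild φ) (h' : Mild ψ) : Mild fun w => φ w + ψ w := by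
  obtain ⟨hc, C, M, hCM⟩ := h
  obtain ⟨hc', C', M', hCM'⟩ := h'
  refine ⟨hc.add hc', |C| + |C'|, |M| + |M'|, fun w => ?_⟩
  have h1 : C * Real.exp (M * ‖w‖) ≤ |C| * Real.exp ((|M| + |M'|) * ‖w‖) := by
    refine mul_le_mul (le_abs_self C) (Real.exp_le_exp.2 ?_) (Real.exp_pos _).le (abs_nonneg _)
    refine mul_le_mul_of_nonneg_right ?_ (norm_nonneg _)
    linarith [le_abs_self M, abs_nonneg M']
  have h2 : C' * Real.exp (M' * ‖w‖) ≤ |C'| * Real.exp ((|M| + |M'|) * ‖w‖) := by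
    refine mul_le_mul (le_abs_self C') (Real.exp_le_exp.2 ?_) (Real.exp_pos _).le (abs_nonneg _)
    refine mul_le_mul_of_nonneg_right ?_ (norm_nonneg _)
    linarith [le_abs_self M', abs_nonneg M]
  calc ‖φ w + ψ w‖ ≤ ‖φ w‖ + ‖ψ w‖ := norm_add_le _ _
    _ ≤ _ := by rw [add_mul]; linarith [hCM w, hCM' w]

lemma Mild.const (c : ℂ) : Mild fun _ => c :=
  ⟨continuous_const, ‖c‖, 0, fun w => by simp⟩

lemma Mild.neg {φ : ℂ → ℂ} (h : Mild φ) : Mild fun w => -φ w := by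
  have := (Mild.const (-1)).mul h
  simpa using this

lemma Mild.sub {φ ψ : ℂ → ℂ} (h : Mild φ) (h' : Mild ψ) : Mild fun w => φ w - ψ w := by
  have := h.add h'.neg
  simpa [sub_eq_add_neg] using this

lemma Mild.sum {ι : Type*} (s : Finset ι) (f : ι → ℂ → ℂ) (h : ∀ i ∈ s, Mild (f i)) :
    Mild fun w => ∑ i ∈ s, f i w := by
  classical
  induction s using Finset.induction_on with
  | empty => simpa using Mild.const 0
  | insert a s ha ih =>
    have h1 := (h a (Finset.mem_insert_self a s)).add (ih fun i hi => h i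
      (Finset.mem_insert_of_mem hi))
    simpa [Finset.sum_insert ha] using h1

lemma norm_ch (ξ w : ℂ) : ‖ch ξ w‖ = 1 := by
  unfold ch
  rw [mul_comm]
  exact Complex.norm_exp_ofReal_mul_I _

lemma continuous_ch (ξ : ℂ) : Continuous (ch ξ) := by
  unfold ch
  refine Complex.continuous_exp.comp (continuous_const.mul ?_)
  refine Complex.continuous_ofReal.comp (Complex.continuous_re.comp ?_)
  exact continuous_id.mul continuous_const

lemma mild_ch (ξ : ℂ) : Mild (ch ξ) := ⟨continuous_ch ξ, 1, 0, fun w => by simp [norm_ch]⟩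

lemma ch_sub (ξ w z : ℂ) : ch ξ (w - z) = ch ξ w * conj (ch ξ z) := by
  unfold ch
  rw [← Complex.exp_conj, ← Complex.exp_add]
  congr 1
  rw [map_mul, Complex.conj_I, Complex.conj_ofReal, sub_mul, Complex.sub_re]
  push_cast
  ring

section

variable {Φ φ : ℂ → ℂ} {M : ℝ}

lemma integrable_ig (hΦ : Measurable Φ) (hφ : Mild φ) (hM : ∀ z, ‖Φ z‖ ≤ M) (g f : H) :
    Integrable (ig Φ φ g f) (γ.prod γ) := by
  have hgm : Measurable (g : ℂ → ℂ) := (Lp.stronglyMeasurable g).measurable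
  have hfm : Measurable (f : ℂ → ℂ) := (Lp.stronglyMeasurable f).measurable
  refine ⟨(measurable_ig hΦ hφ.measurable hgm hfm).aestronglyMeasurable, ?_⟩
  refine (lint_ig hΦ hφ.measurable hM g f).trans_lt ?_
  rw [hφ.lint]
  exact ENNReal.mul_lt_top (ENNReal.mul_lt_top ENNReal.ofReal_lt_top ENNReal.ofReal_lt_top)
    (ENNReal.mul_lt_top (by simp) (by simp))

lemma nrm_nonneg (φ : ℂ → ℂ) : 0 ≤ nrm φ := integral_nonneg fun w => by positivity

lemma M_nonneg (hM : ∀ z, ‖Φ z‖ ≤ M) : 0 ≤ M := (norm_nonneg _).trans (hM 0)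

lemma norm_bf_le (hΦ : Measurable Φ) (hφ : Mild φ) (hM : ∀ z, ‖Φ z‖ ≤ M) (g f : H) :
    ‖bf Φ φ g f‖ ≤ M * nrm φ * ‖g‖ * ‖f‖ := by
  have h0 := M_nonneg hM
  have h1 := lint_ig hΦ hφ.measurable hM g f
  rw [hφ.lint] at h1
  have h2 : ‖bf Φ φ g f‖ₑ ≤ ENNReal.ofReal (M * nrm φ * ‖g‖ * ‖f‖) := by
    refine (enorm_integral_le_lintegral_enorm _).trans (h1.trans ?_)
    rw [← ofReal_norm, ← ofReal_norm, ← ENNReal.ofReal_mul h0, ← ENNReal.ofReal_mul
      (norm_nonneg _), ← ENNReal.ofReal_mul (mul_nonneg h0 (nrm_nonneg φ))]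
    refine ENNReal.ofReal_le_ofReal (le_of_eq ?_)
    ring
  rw [← ofReal_norm] at h2
  exact (ENNReal.ofReal_le_ofReal_iff (by
    have := nrm_nonneg φ
    positivity)).1 h2

lemma bf_add_right (hΦ : Measurable Φ) (hφ : Mild φ) (hM : ∀ z, ‖Φ z‖ ≤ M) (g f f' : H) :
    bf Φ φ g (f + f' : H) = bf Φ φ g f + bf Φ φ g f' := by
  unfold bf
  rw [← integral_add (integrable_ig hΦ hφ hM g f) (integrable_ig hΦ hφ hM g f')]
  refine integral_congr_ae ?_
  have h := Lp.coeFn_add f f'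
  have h2 : ∀ᵐ p ∂(γ.prod γ), (f + f' : H) (p.2 : ℂ) = f p.2 + f' p.2 :=
    Measure.quasiMeasurePreserving_snd.ae h
  filter_upwards [h2] with p hp
  simp only [ig]
  rw [hp]; ring

lemma bf_smul_right (c : ℂ) (g f : H) :
    bf Φ φ g (c • f : H) = c * bf Φ φ g f := by
  unfold bf
  rw [← integral_const_mul]
  refine integral_congr_ae ?_
  have h := Lp.coeFn_smul c f
  have h2 : ∀ᵐ p ∂(γ.prod γ), (c • f : H) (p.2 : ℂ) = (c • (f : ℂ → ℂ)) p.2 :=
    Measure.quasiMeasurePreserving_snd.ae h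
  filter_upwards [h2] with p hp
  simp only [ig]
  rw [hp, Pi.smul_apply, smul_eq_mul]; ring

lemma bf_add_left (hΦ : Measurable Φ) (hφ : Mild φ) (hM : ∀ z, ‖Φ z‖ ≤ M) (g g' f : H) :
    bf Φ φ (g + g' : H) f = bf Φ φ g f + bf Φ φ g' f := by
  unfold bf
  rw [← integral_add (integrable_ig hΦ hφ hM g f) (integrable_ig hΦ hφ hM g' f)]
  refine integral_congr_ae ?_
  have h := Lp.coeFn_add g g'
  have h2 : ∀ᵐ p ∂(γ.prod γ), (g + g' : H) (p.1 : ℂ) = g p.1 + g' p.1 :=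
    Measure.quasiMeasurePreserving_fst.ae h
  filter_upwards [h2] with p hp
  simp only [ig]
  rw [hp, map_add]; ring

lemma bf_smul_left (c : ℂ) (g f : H) :
    bf Φ φ (c • g : H) f = conj c * bf Φ φ g f := by
  unfold bf
  rw [← integral_const_mul]
  refine integral_congr_ae ?_
  have h := Lp.coeFn_smul c g
  have h2 : ∀ᵐ p ∂(γ.prod γ), (c • g : H) (p.1 : ℂ) = (c • (g : ℂ → ℂ)) p.1 :=
    Measure.quasiMeasurePreserving_fst.ae h
  filter_upwards [h2] with p hp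
  simp only [ig]
  rw [hp, Pi.smul_apply, smul_eq_mul, map_mul]; ring

/-- The operator of the form. -/
theorem exists_op (hΦ : Measurable Φ) (hφ : Mild φ) (hM : ∀ z, ‖Φ z‖ ≤ M) :
    ∃ S : H →L[ℂ] H, (∀ g f : H, ⟪g, S f⟫_ℂ = bf Φ φ g f) ∧ ‖S‖ ≤ M * nrm φ := by
  have hC : 0 ≤ M * nrm φ := mul_nonneg (M_nonneg hM) (nrm_nonneg φ)
  let B : H →ₗ⋆[ℂ] H →ₗ[ℂ] ℂ := LinearMap.mk₂'ₛₗ (starRingEnd ℂ) (RingHom.id ℂ)
    (fun f g => conj (bf Φ φ g f))
    (fun f f' g => by rw [bf_add_right hΦ hφ hM, map_add])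
    (fun c f g => by rw [bf_smul_right, map_mul]; rfl)
    (fun f g g' => by rw [bf_add_left hΦ hφ hM, map_add])
    (fun c f g => by rw [bf_smul_left, map_mul, Complex.conj_conj]; rfl)
  let B' : H →L⋆[ℂ] H →L[ℂ] ℂ := B.mkContinuous₂ (M * nrm φ) (fun f g => by
    change ‖conj (bf Φ φ g f)‖ ≤ _
    rw [Complex.norm_conj]
    refine (norm_bf_le hΦ hφ hM g f).trans (le_of_eq (by ring)))
  refine ⟨InnerProductSpace.continuousLinearMapOfBilin B', fun g f => ?_, ?_⟩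
  · have h := InnerProductSpace.continuousLinearMapOfBilin_apply B' f g
    rw [← inner_conj_symm, h]
    change conj (conj (bf Φ φ g f)) = _
    rw [Complex.conj_conj]
  · refine ContinuousLinearMap.opNorm_le_bound _ hC fun f => ?_
    set S := InnerProductSpace.continuousLinearMapOfBilin B' with hS
    have h := InnerProductSpace.continuousLinearMapOfBilin_apply B' f (S f)
    have h1 : ‖S f‖ ^ 2 ≤ M * nrm φ * ‖f‖ * ‖S f‖ := by
      have h2 : ‖⟪S f, S f⟫_ℂ‖ = ‖S f‖ ^ 2 := by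
        rw [inner_self_eq_norm_sq_to_K]; simp
      rw [← h2, h]
      change ‖conj (bf Φ φ (S f) f)‖ ≤ _
      rw [Complex.norm_conj]
      refine (norm_bf_le hΦ hφ hM (S f) f).trans (le_of_eq (by ring))
    rcases eq_or_lt_of_le (norm_nonneg (S f)) with h0 | h0
    · rw [← h0]; positivity
    · rw [sq] at h1
      exact le_of_mul_le_mul_right h1 h0

end

end

end Pool.Agent.R283.FT
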