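import Pool.Agent.R283.FT.Stm3
import Pool.Agent.R283.FT.B

/-!
Part R: operators in the Toeplitz algebra are band-dominated.
-/

set_option autoImplicit false

open MeasureTheory Complex Set Metric Filter Topology
open scoped ComplexConjugate ENNReal InnerProductSpace

namespace Pool.Agent.R283.FT

noncomputable section

section gen

variable {E : Type*} [NormedAddCommGroup E] [InnerProductSpace ℂ E] [CompleteSpace E]

/-- closure properties of the norm closure -/
lemma r_closure_add {B : Set (E →L[ℂ] E)} (hadd : ∀ a ∈ B, ∀ b ∈ B, a + b ∈ B)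
    {a b : E →L[ℂ] E} (ha : a ∈ closure B) (hb : b ∈ closure B) : a + b ∈ closure B :=
  map_mem_closure₂ continuous_add ha hb hadd

lemma r_closure_comp {B : Set (E →L[ℂ] E)} (hmul : ∀ a ∈ B, ∀ b ∈ B, a ∘L b ∈ B)
    {a b : E →L[ℂ] E} (ha : a ∈ closure B) (hb : b ∈ closure B) : a ∘L b ∈ closure B :=
  map_mem_closure₂ (f := fun a b : E →L[ℂ] E => a * b) continuous_mul ha hb hmul

lemma r_closure_smul {B : Set (E →L[ℂ] E)} (hs : ∀ c : ℂ, ∀ a ∈ B, c • a ∈ B)
    {a : E →L[ℂ] E} (c : ℂ) (ha : a ∈ closure B) : c • a ∈ closure B :=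
  map_mem_closure (f := fun a : E →L[ℂ] E => c • a) (continuous_const_smul c) ha (hs c)

lemma r_closure_adj {B : Set (E →L[ℂ] E)} (hs : ∀ a ∈ B, ContinuousLinearMap.adjoint a ∈ B)
    {a : E →L[ℂ] E} (ha : a ∈ closure B) : ContinuousLinearMap.adjoint a ∈ closure B :=
  map_mem_closure (f := fun a : E →L[ℂ] E => ContinuousLinearMap.adjoint a)
    (ContinuousLinearMap.adjoint (𝕜 := ℂ) (E := E) (F := E)).continuous ha hs

lemma r_closure_lim {B : Set (E →L[ℂ] E)} {a : E →L[ℂ] E}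
    (h : ∀ ε > 0, ∃ b ∈ closure B, ‖a - b‖ < ε) : a ∈ closure B := by
  rw [← closure_closure, Metric.mem_closure_iff]
  intro ε hε
  obtain ⟨b, hb, hb2⟩ := h ε hε
  exact ⟨b, hb, by rwa [dist_eq_norm]⟩

lemma r_gen {X : Set (E →L[ℂ] E)} (A : Set (E →L[ℂ] E)) (hX : X ⊆ A)
    (h1 : ContinuousLinearMap.id ℂ E ∈ A)
    (hadd : ∀ a ∈ A, ∀ b ∈ A, a + b ∈ A) (hmul : ∀ a ∈ A, ∀ b ∈ A, a ∘L b ∈ A)
    (hsmul : ∀ c : ℂ, ∀ a ∈ A, c • a ∈ A)
    (hstar : ∀ a ∈ A, ContinuousLinearMap.adjoint a ∈ A)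
    (hcl : ∀ a, (∀ ε > 0, ∃ b ∈ A, ‖a - b‖ < ε) → a ∈ A) : ∀ T ∈ cstarGen X, T ∈ A := by
  let S : StarSubalgebra ℂ (E →L[ℂ] E) :=
    { carrier := A
      mul_mem' := fun {a b} ha hb => hmul a ha b hb
      add_mem' := fun {a b} ha hb => hadd a ha b hb
      algebraMap_mem' := fun c => by
        rw [Algebra.algebraMap_eq_smul_one]
        exact hsmul c _ h1
      star_mem' := fun {a} ha => hstar a ha }
  have hS : StarAlgebra.adjoin ℂ X ≤ S := StarAlgebra.adjoin_le hX
  have hc : IsClosed (S : Set (E →L[ℂ] E)) := by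
    rw [← isSeqClosed_iff_isClosed]
    intro x a hx hxa
    refine hcl a fun ε hε => ?_
    have := (tendsto_iff_norm_sub_tendsto_zero.1 hxa).eventually (gt_mem_nhds hε)
    obtain ⟨n, hn⟩ := this.exists
    exact ⟨x n, hx n, by rwa [norm_sub_rev]⟩
  have hT : cstarGen X ≤ S := StarSubalgebra.topologicalClosure_minimal hS hc
  exact fun T h => hT h

lemma r_norm_ext {G : Type*} [NormedAddCommGroup G] [InnerProductSpace ℂ G]
    (J : E →L[ℂ] G) (Q : G →L[ℂ] E) (hJ : ∀ x, ‖J x‖ = ‖x‖) (hQ : ∀ x, ‖Q x‖ ≤ ‖x‖)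
    (a b : E →L[ℂ] E) : ‖(J ∘L a ∘L Q) - (J ∘L b ∘L Q)‖ ≤ ‖a - b‖ := by
  refine ContinuousLinearMap.opNorm_le_bound _ (norm_nonneg _) fun x => ?_
  have h1 : ((J ∘L a ∘L Q) - (J ∘L b ∘L Q)) x = J ((a - b) (Q x)) := by
    rw [ContinuousLinearMap.sub_apply, ContinuousLinearMap.sub_apply, map_sub]
    rfl
  rw [h1, hJ]
  exact ((a - b).le_opNorm _).trans (mul_le_mul_of_nonneg_left (hQ x) (norm_nonneg _))

end gen

/-- the weak form of the band condition -/
lemma r_weak {K K' : Set ℂ} (hK : MeasurableSet K) (hK' : MeasurableSet K') (T : H →L[ℂ] H) :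
    mulOp (ind K' hK') ∘L T ∘L mulOp (ind K hK) = 0 ↔
      ∀ g f : H, ⟪mulOp (ind K' hK') g, T (mulOp (ind K hK) f)⟫_ℂ = 0 := by
  constructor
  · intro h g f
    have h1 := congrArg (fun L : H →L[ℂ] H => L f) h
    have h2 : mulOp (ind K' hK') (T (mulOp (ind K hK) f)) = 0 := h1
    rw [b_inner_mulOp, h2, inner_zero_right]
  · intro h
    ext1 f
    refine ext_inner_left ℂ fun g => ?_
    rw [ContinuousLinearMap.zero_apply, inner_zero_right]
    have h1 := h g f
    rw [b_inner_mulOp] at h1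
    exact h1

lemma r_band_iff (T : H →L[ℂ] H) : IsBand T ↔
    ∃ R : ℝ, ∀ (K K' : Set ℂ) (hK : MeasurableSet K) (hK' : MeasurableSet K'),
      (∀ x ∈ K, ∀ y ∈ K', R < dist x y) →
        ∀ g f : H, ⟪mulOp (ind K' hK') g, T (mulOp (ind K hK) f)⟫_ℂ = 0 := by
  unfold IsBand
  simp only [r_weak]

lemma r_band_add {S T : H →L[ℂ] H} (hS : IsBand S) (hT : IsBand T) : IsBand (S + T) := by
  rw [r_band_iff] at *
  obtain ⟨R, hR⟩ := hS
  obtain ⟨R', hR'⟩ := hT
  refine ⟨max R R', fun K K' hK hK' h g f => ?_⟩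
  rw [ContinuousLinearMap.add_apply, inner_add_right,
    hR K K' hK hK' (fun x hx y hy => (le_max_left _ _).trans_lt (h x hx y hy)) g f,
    hR' K K' hK hK' (fun x hx y hy => (le_max_right _ _).trans_lt (h x hx y hy)) g f, add_zero]

lemma r_band_smul {S : H →L[ℂ] H} (c : ℂ) (hS : IsBand S) : IsBand (c • S) := by
  rw [r_band_iff] at *
  obtain ⟨R, hR⟩ := hS
  refine ⟨R, fun K K' hK hK' h g f => ?_⟩
  rw [ContinuousLinearMap.smul_apply, inner_smul_right, hR K K' hK hK' h g f, mul_zero]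

lemma r_band_adj {S : H →L[ℂ] H} (hS : IsBand S) : IsBand (ContinuousLinearMap.adjoint S) := by
  rw [r_band_iff] at *
  obtain ⟨R, hR⟩ := hS
  refine ⟨R, fun K K' hK hK' h g f => ?_⟩
  rw [ContinuousLinearMap.adjoint_inner_right, ← inner_conj_symm,
    hR K' K hK' hK (fun x hx y hy => by rw [dist_comm]; exact h y hy x hx) f g, map_zero]

/-- splitting by a set and its complement -/
lemma r_split {U : Set ℂ} (hU : MeasurableSet U) (h : H) :
    mulOp (ind U hU) h + mulOp (ind Uᶜ hU.compl) h = h := by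
  refine Lp.ext ?_
  filter_upwards [Lp.coeFn_add (mulOp (ind U hU) h) (mulOp (ind Uᶜ hU.compl) h),
    b_mulOp_ind U hU h, b_mulOp_ind Uᶜ hU.compl h] with w h1 h2 h3
  rw [h1, Pi.add_apply, h2, h3]
  exact congrFun (indicator_self_add_compl U (h : ℂ → ℂ)) w

lemma r_band_comp {S T : H →L[ℂ] H} (hS : IsBand S) (hT : IsBand T) : IsBand (S ∘L T) := by
  obtain ⟨R₁, hR₁⟩ := hS
  obtain ⟨R₂, hR₂⟩ := hT
  rw [r_band_iff]
  refine ⟨R₁ + R₂ + 2, fun K K' hK hK' h g f => ?_⟩
  set U : Set ℂ := thickening (R₂ + 1) K with hU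
  have hUm : MeasurableSet U := isOpen_thickening.measurableSet
  have h1 : ∀ x ∈ K, ∀ y ∈ Uᶜ, R₂ < dist x y := by
    intro x hx y hy
    rw [hU, mem_compl_iff, mem_thickening_iff] at hy
    push Not at hy
    have := hy x hx
    rw [dist_comm] at this
    linarith
  have h2 : ∀ x ∈ U, ∀ y ∈ K', R₁ < dist x y := by
    intro x hx y hy
    rw [hU, mem_thickening_iff] at hx
    obtain ⟨z, hz, hxz⟩ := hx
    have h3 := h z hz y hy
    have h4 := dist_triangle z x y
    rw [dist_comm z x] at h4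
    linarith
  have e1 : mulOp (ind Uᶜ hUm.compl) (T (mulOp (ind K hK) f)) = 0 := by
    have := congrArg (fun L : H →L[ℂ] H => L f) (hR₂ K Uᶜ hK hUm.compl h1)
    exact this
  have e2 : T (mulOp (ind K hK) f) = mulOp (ind U hUm) (T (mulOp (ind K hK) f)) := by
    have := r_split hUm (T (mulOp (ind K hK) f))
    rw [e1, add_zero] at this
    exact this.symm
  have e3 : mulOp (ind K' hK') (S (mulOp (ind U hUm) (T (mulOp (ind K hK) f)))) = 0 := by
    have := congrArg (fun L : H →L[ℂ] H => L (T (mulOp (ind K hK) f))) (hR₁ U K' hUm hK' h2)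
    exact this
  rw [ContinuousLinearMap.comp_apply, e2, b_inner_mulOp, e3, inner_zero_right]

lemma r_band_mulOp (f : Lp ℂ ∞ γ) : IsBand (mulOp f) := by
  rw [r_band_iff]
  refine ⟨0, fun K K' hK hK' h g u => ?_⟩
  rw [inner_H]
  have h0 : ∀ᵐ w ∂γ, conj ((mulOp (ind K' hK') g : H) w) *
      ((mulOp f (mulOp (ind K hK) u) : H) w) = 0 := by
    filter_upwards [b_mulOp_ind K' hK' g, b_mulOp_ind K hK u,
      mulOp_coe f (mulOp (ind K hK) u)] with w h1 h2 h3
    rw [h3, h2, h1]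
    by_cases hw : w ∈ K
    · by_cases hw' : w ∈ K'
      · have := h w hw w hw'
        rw [dist_self] at this
        exact absurd this (lt_irrefl _)
      · rw [indicator_of_notMem hw']
        simp
    · rw [indicator_of_notMem hw]
      simp
  rw [integral_congr_ae h0]
  simp

/-- operators of forms with kernel of bounded support are band operators -/
lemma r_band_form {ψ : ℂ → ℂ} {R : ℝ} (hR : ∀ w, R < ‖w‖ → ψ w = 0) (S : H →L[ℂ] H)
    (hS : ∀ g f : H, ⟪g, S f⟫_ℂ = bf (fun _ => 1) ψ g f) : IsBand S := by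
  rw [r_band_iff]
  refine ⟨R, fun K K' hK hK' h g f => ?_⟩
  rw [hS]
  unfold bf
  have h1 : ∀ᵐ p ∂(γ.prod γ), (mulOp (ind K' hK') g : H) (p.1 : ℂ) =
      K'.indicator (g : ℂ → ℂ) p.1 :=
    Measure.quasiMeasurePreserving_fst.ae (b_mulOp_ind K' hK' g)
  have h2 : ∀ᵐ p ∂(γ.prod γ), (mulOp (ind K hK) f : H) (p.2 : ℂ) =
      K.indicator (f : ℂ → ℂ) p.2 :=
    Measure.quasiMeasurePreserving_snd.ae (b_mulOp_ind K hK f)
  have h0 : ∀ᵐ p ∂(γ.prod γ), ig (fun _ => 1) ψ (mulOp (ind K' hK') g : H)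
      (mulOp (ind K hK) f : H) p = 0 := by
    filter_upwards [h1, h2] with p hp1 hp2
    simp only [ig]
    rw [hp1, hp2]
    by_cases hw : p.2 ∈ K
    · by_cases hw' : p.1 ∈ K'
      · have h3 := h p.2 hw p.1 hw'
        rw [dist_comm, dist_eq_norm] at h3
        rw [hR _ h3]
        simp
      · rw [indicator_of_notMem hw']
        simp
    · rw [indicator_of_notMem hw]
      simp
  rw [integral_congr_ae h0]
  simp

/-- cutting off a kernel -/
lemma r_cut {φ : ℂ → ℂ} (hφ : Mild φ) {ε : ℝ} (hε : 0 < ε) :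
    ∃ (ψ : ℂ → ℂ) (R : ℝ), Mild ψ ∧ (∀ w, R < ‖w‖ → ψ w = 0) ∧
      nrm (fun w => φ w - ψ w) < ε := by
  set χ : ℕ → ℂ → ℝ := fun N w => max 0 (min 1 ((N : ℝ) + 1 - ‖w‖)) with hχ
  have hχ0 : ∀ N w, 0 ≤ χ N w := fun N w => le_max_left _ _
  have hχ1 : ∀ N w, χ N w ≤ 1 := fun N w => max_le zero_le_one (min_le_left _ _)
  have hχc : ∀ N, Continuous (χ N) := by
    intro N
    rw [hχ]
    fun_prop
  have hχm : ∀ N, Mild fun w => ((χ N w : ℝ) : ℂ) := by
    intro N
    refine ⟨Complex.continuous_ofReal.comp (hχc N), 1, 0, fun w => ?_⟩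
    rw [Complex.norm_real, Real.norm_of_nonneg (hχ0 N w)]
    simpa using hχ1 N w
  have hlim : Tendsto (fun N : ℕ => nrm (fun w => φ w - ((χ N w : ℝ) : ℂ) * φ w)) atTop (𝓝 0) := by
    unfold nrm
    have h0 : (0 : ℝ) = ∫ w : ℂ, (0 : ℝ) := by simp
    rw [h0]
    refine tendsto_integral_of_dominated_convergence
      (fun w => ‖φ w‖ * Real.exp (-‖w‖ ^ 2 / 2)) (fun N => ?_) hφ.integrable (fun N => ?_) ?_
    · have h1 := (hφ.sub ((hχm N).mul hφ)).integrable
      exact h1.aestronglyMeasurable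
    · refine Eventually.of_forall fun w => ?_
      rw [Real.norm_of_nonneg (by positivity)]
      refine mul_le_mul_of_nonneg_right ?_ (Real.exp_pos _).le
      have h2 : φ w - ((χ N w : ℝ) : ℂ) * φ w = (((1 - χ N w : ℝ)) : ℂ) * φ w := by
        push_cast
        ring
      beta_reduce
      rw [h2, norm_mul, Complex.norm_real, Real.norm_of_nonneg (by linarith [hχ1 N w])]
      nlinarith [hχ0 N w, norm_nonneg (φ w)]
    · refine Eventually.of_forall fun w => ?_
      refine tendsto_const_nhds.congr' ?_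
      obtain ⟨N₀, hN₀⟩ := exists_nat_ge ‖w‖
      filter_upwards [eventually_ge_atTop N₀] with N hN
      have h3 : χ N w = 1 := by
        have h4 : ‖w‖ ≤ N := hN₀.trans (by exact_mod_cast hN)
        simp only [hχ]
        rw [min_eq_left (by linarith), max_eq_right zero_le_one]
      rw [h3]
      simp
  obtain ⟨N, hN⟩ := (hlim.eventually (gt_mem_nhds hε)).exists
  refine ⟨fun w => ((χ N w : ℝ) : ℂ) * φ w, (N : ℝ) + 1, (hχm N).mul hφ, fun w hw => ?_, hN⟩
  have h5 : χ N w = 0 := by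
    simp only [hχ]
    refine max_eq_left ?_
    exact (min_le_right _ _).trans (by linarith)
  beta_reduce
  rw [h5]
  simp

section

variable {F : Submodule ℂ H} {K₀ : ℂ → ℂ}

/-- the orthogonal projection onto `F` as an operator on `H` -/
def pr (F : Submodule ℂ H) [F.HasOrthogonalProjection] : H →L[ℂ] H :=
  F.subtypeL ∘L F.orthogonalProjectionOnto

lemma r_pr_form [F.HasOrthogonalProjection] (hK : Ker F K₀) (g h : H) :
    ⟪g, pr F h⟫_ℂ = bf (fun _ => 1) K₀ g h := by
  have hM : ∀ z : ℂ, ‖(fun _ => (1 : ℂ)) z‖ ≤ (1 : ℝ) := fun z => by simp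
  rw [inner_H, bf, integral_prod _ (integrable_ig measurable_const hK.mild hM _ _)]
  refine integral_congr_ae ?_
  filter_upwards [hK.proj h] with w h1
  have h3 : (pr F h : H) w = ∫ z, K₀ (w - z) * Complex.exp (w * conj z) * h z ∂γ := h1
  rw [h3, ← integral_const_mul]
  refine integral_congr_ae (Eventually.of_forall fun z => ?_)
  simp only [ig]
  ring

lemma r_pr_mem [F.HasOrthogonalProjection] (hK : Ker F K₀) : pr F ∈ BDO := by
  refine r_closure_lim fun ε hε => ?_
  obtain ⟨ψ, R, hψ, hR, hn⟩ := r_cut hK.mild hε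
  have hM : ∀ z : ℂ, ‖(fun _ => (1 : ℂ)) z‖ ≤ (1 : ℝ) := fun z => by simp
  obtain ⟨S, hS, -⟩ := exists_op (Φ := fun _ => (1 : ℂ)) measurable_const hψ hM
  obtain ⟨D, hD, hDn⟩ := exists_op (Φ := fun _ => (1 : ℂ)) measurable_const (hK.mild.sub hψ) hM
  refine ⟨S, subset_closure (r_band_form hR S hS), ?_⟩
  have hdiff : pr F - S = D := by
    ext1 f
    refine ext_inner_left ℂ fun g => ?_
    rw [ContinuousLinearMap.sub_apply, inner_sub_right, r_pr_form hK, hS, hD]
    unfold bf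
    rw [← integral_sub (integrable_ig measurable_const hK.mild hM _ _)
      (integrable_ig measurable_const hψ hM _ _)]
    refine integral_congr_ae (Eventually.of_forall fun q => ?_)
    simp only [ig]
    ring
  rw [hdiff]
  refine hDn.trans_lt ?_
  rw [one_mul]
  exact hn

end

lemma r_bdo_add {a b : H →L[ℂ] H} (ha : a ∈ BDO) (hb : b ∈ BDO) : a + b ∈ BDO :=
  r_closure_add (B := {T : H →L[ℂ] H | IsBand T})
    (by intro a ha b hb; exact r_band_add (S := a) (T := b) ha hb) ha hb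

lemma r_bdo_comp {a b : H →L[ℂ] H} (ha : a ∈ BDO) (hb : b ∈ BDO) : a ∘L b ∈ BDO :=
  r_closure_comp (B := {T : H →L[ℂ] H | IsBand T})
    (by intro a ha b hb; exact r_band_comp (S := a) (T := b) ha hb) ha hb

lemma r_bdo_smul {a : H →L[ℂ] H} (c : ℂ) (ha : a ∈ BDO) : c • a ∈ BDO :=
  r_closure_smul (B := {T : H →L[ℂ] H | IsBand T})
    (by intro c a ha; exact r_band_smul (S := a) c ha) c ha

lemma r_bdo_adj {a : H →L[ℂ] H} (ha : a ∈ BDO) : ContinuousLinearMap.adjoint a ∈ BDO :=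
  r_closure_adj (B := {T : H →L[ℂ] H | IsBand T})
    (by intro a ha; exact r_band_adj (S := a) ha) ha

lemma r_bdo_lim {a : H →L[ℂ] H} (h : ∀ ε > 0, ∃ b ∈ BDO, ‖a - b‖ < ε) : a ∈ BDO :=
  r_closure_lim h

/-- the operator `T P` on `H` -/
def ext (F : Submodule ℂ H) [F.HasOrthogonalProjection] (T : F →L[ℂ] F) : H →L[ℂ] H :=
  F.subtypeL ∘L T ∘L F.orthogonalProjectionOnto

theorem stmtR : StmtR := by
  intro F _ K₀ hK
  have key : ∀ T ∈ cstarGen (Set.range (toeplitz F)), T ∈ {T : F →L[ℂ] F | ext F T ∈ BDO} := by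
    refine r_gen {T : F →L[ℂ] F | ext F T ∈ BDO} ?_ ?_ ?_ ?_ ?_ ?_ ?_
    · rintro _ ⟨f, rfl⟩
      have h1 : ext F (toeplitz F f) = pr F ∘L mulOp f ∘L pr F := rfl
      rw [mem_ofPred_eq, h1]
      exact r_bdo_comp (r_pr_mem hK)
        (r_bdo_comp (subset_closure (r_band_mulOp f)) (r_pr_mem hK))
    · have h1 : ext F (ContinuousLinearMap.id ℂ F) = pr F := rfl
      rw [mem_ofPred_eq, h1]
      exact r_pr_mem hK
    · intro a ha b hb
      have h1 : ext F (a + b) = ext F a + ext F b := by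
        ext1 x
        rfl
      rw [mem_ofPred_eq, h1]
      exact r_bdo_add ha hb
    · intro a ha b hb
      have h1 : ext F (a ∘L b) = ext F a ∘L ext F b := by
        ext1 x
        change ((a (b (F.orthogonalProjectionOnto x)) : F) : H) =
          ((a (F.orthogonalProjectionOnto ((b (F.orthogonalProjectionOnto x) : F) : H)) : F) : H)
        rw [Submodule.orthogonalProjectionOnto_mem_subspace_eq_self]
      rw [mem_ofPred_eq, h1]
      exact r_bdo_comp ha hb
    · intro c a ha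
      have h1 : ext F (c • a) = c • ext F a := by
        ext1 x
        rfl
      rw [mem_ofPred_eq, h1]
      exact r_bdo_smul c ha
    · intro a ha
      have h1 : ext F (ContinuousLinearMap.adjoint a) = ContinuousLinearMap.adjoint (ext F a) := by
        rw [ContinuousLinearMap.eq_adjoint_iff]
        intro x y
        have e1 : ⟪ext F (ContinuousLinearMap.adjoint a) x, y⟫_ℂ =
            ⟪ContinuousLinearMap.adjoint a (F.orthogonalProjectionOnto x),
              F.orthogonalProjectionOnto y⟫_ℂ :=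
          (Submodule.inner_orthogonalProjectionOnto_eq_of_mem_left _ y).symm
        have e2 : ⟪x, ext F a y⟫_ℂ =
            ⟪F.orthogonalProjectionOnto x, a (F.orthogonalProjectionOnto y)⟫_ℂ :=
          (Submodule.inner_orthogonalProjectionOnto_eq_of_mem_right _ x).symm
        rw [e1, e2, ContinuousLinearMap.adjoint_inner_left]
      rw [mem_ofPred_eq, h1]
      exact r_bdo_adj ha
    · intro a ha
      refine r_bdo_lim fun ε hε => ?_
      obtain ⟨b, hb, hb2⟩ := ha ε hε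
      refine ⟨ext F b, hb, lt_of_le_of_lt ?_ hb2⟩
      exact r_norm_ext F.subtypeL F.orthogonalProjectionOnto (fun x => rfl)
        (fun x => Submodule.norm_orthogonalProjectionOnto_apply_le F x) a b
  intro T hT
  exact key T hT

end

end Pool.Agent.R283.FT
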