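import Pool.Agent.R283.FT.Ks
import Pool.Agent.R283.FT.Fin
import Pool.Agent.R283.FT.F
import Pool.Agent.R283.FT.D

/-!
# Short forms of the definitions
-/

set_option autoImplicit false

open MeasureTheory Complex Set Metric Filter Topology
open scoped ComplexConjugate ENNReal InnerProductSpace

namespace Pool.Agent.R283.FT

noncomputable section

/-- The Hilbert space `L²(ℂ, μ)`. -/
def L2 : Type := Lp ℂ 2 γ

instance L2.n : NormedAddCommGroup L2 := Lp.instNormedAddCommGroup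
instance L2.i : InnerProductSpace ℂ L2 := MeasureTheory.L2.innerProductSpace
instance L2.c : CompleteSpace L2 := inferInstanceAs (CompleteSpace (Lp ℂ 2 γ))

/-- The underlying function of an element of `L²(ℂ, μ)`. -/
def fn (f : L2) : ℂ → ℂ := f.1.cast

/-- `T` is a band operator: there is `R` with `M_{1_{K'}} T M_{1_K} = 0` whenever the distance of
`K` and `K'` is larger than `R`, that is, `T f = 0` a.e. on `K'` for all `f` that vanish a.e.
outside `K`. -/
def IsBandOp (T : L2 →L[ℂ] L2) : Prop :=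
  ∃ R : ℝ, ∀ K K' : Set ℂ, MeasurableSet K → MeasurableSet K' →
    (∀ x ∈ K, ∀ y ∈ K', R < dist x y) → ∀ f : L2, (∀ᵐ z ∂γ, z ∉ K → fn f z = 0) →
      ∀ᵐ z ∂γ, z ∈ K' → fn (T f) z = 0

/-- `T` is a norm limit of band operators (`T ∈ BDO²`). -/
def IsBDO (T : L2 →L[ℂ] L2) : Prop := ∀ ε > (0 : ℝ), ∃ B : L2 →L[ℂ] L2, IsBandOp B ∧ ‖T - B‖ < ε

/-- A closed subspace of `L²(ℂ, μ)` as a Hilbert space. -/
def Sp (F : Submodule ℂ L2) : Type := F

section

variable (F : Submodule ℂ L2)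

instance Sp.n : NormedAddCommGroup (Sp F) := F.normedAddCommGroup
instance Sp.i : InnerProductSpace ℂ (Sp F) := F.innerProductSpace

variable {F}

/-- the inclusion -/
def incl (g : Sp F) : L2 := g.1

/-- `T` is the Toeplitz operator with symbol `f` on `F`: `T g = P (f g)` for every `g` in `F`,
where `P` is the orthogonal projection onto `F`. That is, `f g - T g` is orthogonal to `F`. -/
def IsToeplitz (f : ℂ → ℂ) (T : Sp F →L[ℂ] Sp F) : Prop :=
  ∀ (g : Sp F) (u : L2), (fn u =ᵐ[γ] fun z => f z * fn (incl g) z) →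
    ∀ h : Sp F, ⟪incl h, u - incl (T g)⟫_ℂ = 0

variable (F)

/-- The Toeplitz operators with bounded measurable symbols on `F`. -/
def toeplitzOps : Set (Sp F →L[ℂ] Sp F) :=
  {T | ∃ f : ℂ → ℂ, Measurable f ∧ (∃ M : ℝ, ∀ z, ‖f z‖ ≤ M) ∧ IsToeplitz f T}

variable {F}

/-- `T` is band-dominated: `T P ∈ BDO²`, where `P` is the orthogonal projection onto `F`; here `S`
is `T P`: it equals `T` on `F` and `0` on the orthogonal complement of `F`. -/
def IsBandDom (T : Sp F →L[ℂ] Sp F) : Prop :=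
  ∃ S : L2 →L[ℂ] L2, IsBDO S ∧ (∀ g : Sp F, S (incl g) = incl (T g)) ∧
    ∀ u : L2, (∀ h : Sp F, ⟪incl h, u⟫_ℂ = 0) → S u = 0

end

lemma isBandOp_iff (T : H →L[ℂ] H) : IsBandOp T ↔ IsBand T := by
  constructor
  · rintro ⟨R, hR⟩
    refine ⟨R, fun K K' hK hK' hd => ?_⟩
    ext1 h
    refine Lp.ext ?_
    have h1 := hR K K' hK hK' hd (mulOp (ind K hK) h) (by
      filter_upwards [b_mulOp_ind K hK h] with z hz hzK
      refine Eq.trans hz ?_
      simp [hzK])
    filter_upwards [b_mulOp_ind K' hK' (T (mulOp (ind K hK) h)), h1, Lp.coeFn_zero ℂ 2 γ]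
      with z h2 h3 h4
    refine Eq.trans h2 (Eq.trans ?_ h4.symm)
    by_cases hz : z ∈ K'
    · simp only [hz, indicator_of_mem]
      exact h3 hz
    · simp [hz]
  · rintro ⟨R, hR⟩
    refine ⟨R, fun K K' hK hK' hd f hf => ?_⟩
    have h1 : mulOp (ind K hK) f = f := by
      refine Lp.ext ?_
      filter_upwards [b_mulOp_ind K hK f, hf] with z h2 h3
      refine Eq.trans h2 ?_
      by_cases hz : z ∈ K
      · simp [hz]
      · simp only [hz, not_false_eq_true, indicator_of_notMem]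
        exact (h3 hz).symm
    have h4 := congrArg (fun S : H →L[ℂ] H => S f) (hR K K' hK hK' hd)
    have h5 : mulOp (ind K' hK') (T f) = 0 := by
      have h6 : mulOp (ind K' hK') (T (mulOp (ind K hK) f)) = 0 := h4
      rwa [h1] at h6
    have h7 := b_mulOp_ind K' hK' (T f)
    rw [h5] at h7
    filter_upwards [h7, Lp.coeFn_zero ℂ 2 γ] with z h8 h9 hz
    rw [h9] at h8
    simp only [hz, indicator_of_mem, Pi.zero_apply] at h8
    exact h8.symm

lemma isBDO_iff (T : H →L[ℂ] H) : IsBDO T ↔ T ∈ BDO := by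
  unfold BDO
  rw [Metric.mem_closure_iff]
  constructor
  · intro h ε hε
    obtain ⟨B, hB, hB2⟩ := h ε hε
    exact ⟨B, (isBandOp_iff B).1 hB, (dist_eq_norm (E := H →L[ℂ] H) T B).trans_lt hB2⟩
  · intro h ε hε
    obtain ⟨B, hB, hB2⟩ := h ε hε
    exact ⟨B, (isBandOp_iff B).2 hB, (dist_eq_norm (E := H →L[ℂ] H) T B).symm.trans_lt hB2⟩

/-- the bounded representative -/
lemma exists_bounded_rep (f : Lp ℂ ∞ γ) :
    ∃ g : ℂ → ℂ, Measurable g ∧ (∃ M : ℝ, ∀ z, ‖g z‖ ≤ M) ∧ (f : ℂ → ℂ) =ᵐ[γ] g := by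
  have hfm : Measurable (f : ℂ → ℂ) := (Lp.stronglyMeasurable f).measurable
  have hb : ∀ᵐ w ∂γ, ‖f w‖ ≤ ‖f‖ := by
    have h := ae_le_eLpNormEssSup (f := (f : ℂ → ℂ)) (μ := γ)
    filter_upwards [h] with w hw
    rw [Lp.norm_def, eLpNorm_exponent_top]
    have hfin : eLpNormEssSup (f : ℂ → ℂ) γ ≠ ∞ := by
      have := Lp.eLpNorm_ne_top f
      rwa [eLpNorm_exponent_top] at this
    have h2 := ENNReal.toReal_mono hfin hw
    rwa [toReal_enorm] at h2
  refine ⟨fun z => if ‖f z‖ ≤ ‖f‖ then f z else 0, ?_, ⟨‖f‖, fun z => ?_⟩, ?_⟩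
  · exact Measurable.ite (measurableSet_le hfm.norm measurable_const) hfm measurable_const
  · beta_reduce
    split_ifs with h
    · exact h
    · simp
  · filter_upwards [hb] with z hz
    rw [if_pos hz]

section

variable {F : Submodule ℂ H} [CompleteSpace F]

lemma toeplitz_isToeplitz (φ : Lp ℂ ∞ γ) {f : ℂ → ℂ} (hf : (φ : ℂ → ℂ) =ᵐ[γ] f) :
    IsToeplitz (F := F) f (toeplitz F φ) := by
  intro g u hu h
  have h1 : (u : H) = mulOp φ (g : F).1 := by
    refine Lp.ext ?_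
    have hu' : (show H from u : ℂ → ℂ) =ᵐ[γ] fun z => f z * fn (incl g) z := hu
    filter_upwards [hu', mulOp_coe φ (g : F).1, hf] with z h1 h2 h3
    refine Eq.trans h1 (Eq.trans ?_ h2.symm)
    rw [h3]
    rfl
  subst h1
  exact Submodule.sub_starProjection_mem_orthogonal (K := F) (mulOp φ (g : F).1) _ h.2

lemma exists_mul (φ : Lp ℂ ∞ γ) {f : ℂ → ℂ} (hf : (φ : ℂ → ℂ) =ᵐ[γ] f) (g : Sp (F : Submodule ℂ L2)) :
    ∃ u : L2, fn u =ᵐ[γ] fun z => f z * fn (incl g) z := by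
  refine ⟨mulOp φ (g : F).1, ?_⟩
  filter_upwards [mulOp_coe φ (g : F).1, hf] with z h2 h3
  refine Eq.trans h2 ?_
  rw [h3]
  rfl

lemma IsToeplitz.unique {F : Submodule ℂ L2} {f : ℂ → ℂ}
    (hex : ∀ g : Sp F, ∃ u : L2, fn u =ᵐ[γ] fun z => f z * fn (incl g) z)
    {T T' : Sp F →L[ℂ] Sp F} (hT : IsToeplitz f T) (hT' : IsToeplitz f T') : T = T' := by
  ext1 g
  obtain ⟨u, hu⟩ := hex g
  have h1 := hT g _ hu
  have h2 := hT' g _ hu
  have h3 : ∀ h : Sp F, ⟪incl h, incl (T g) - incl (T' g)⟫_ℂ = 0 := by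
    intro h
    have h4 : incl (T g) - incl (T' g) = (u - incl (T' g)) - (u - incl (T g)) := by abel
    have h5 := inner_sub_right (𝕜 := ℂ) (incl h) (u - incl (T' g)) (u - incl (T g))
    rw [h4]
    exact h5.trans ((congrArg₂ (fun a b : ℂ => a - b) (h2 h) (h1 h)).trans (sub_zero _))
  have h5 := inner_self_eq_zero (𝕜 := ℂ).1 (h3 (T g - T' g))
  exact Subtype.ext (sub_eq_zero.1 h5)

lemma toeplitzOps_eq : toeplitzOps (F : Submodule ℂ L2) = Set.range (toeplitz F) := by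
  ext T
  constructor
  · rintro ⟨f, hf, ⟨M, hM⟩, hT⟩
    have h1 : (sy f hf hM : ℂ → ℂ) =ᵐ[γ] f := MemLp.coeFn_toLp _
    exact ⟨sy f hf hM, (IsToeplitz.unique (exists_mul (sy f hf hM) h1)
      (toeplitz_isToeplitz (F := F) (sy f hf hM) h1) hT)⟩
  · rintro ⟨φ, rfl⟩
    obtain ⟨g, hg, hM, hg2⟩ := exists_bounded_rep φ
    exact ⟨g, hg, hM, toeplitz_isToeplitz (F := F) φ hg2⟩

lemma isBandDom_iff (T : F →L[ℂ] F) :
    IsBandDom (F := (F : Submodule ℂ L2)) T ↔ IsBandDominated F T := by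
  set S₀ : H →L[ℂ] H := F.subtypeL ∘L T ∘L F.orthogonalProjectionOnto with hS₀
  constructor
  · rintro ⟨S, hS, h1, h2⟩
    have h3 : S = S₀ := by
      refine ContinuousLinearMap.ext fun (u : H) => ?_
      have e1 : (F.orthogonalProjectionOnto u : H) + (u - F.orthogonalProjectionOnto u) = u := by
        abel
      have e2 : S (u - F.orthogonalProjectionOnto u : H) = 0 := h2 _ fun h =>
        Submodule.sub_starProjection_mem_orthogonal (K := F) u _ h.2
      have e3 : S ((F.orthogonalProjectionOnto u : F) : H) =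
        ((T (F.orthogonalProjectionOnto u) : F) : H) := h1 _
      have e4 : S u = S ((F.orthogonalProjectionOnto u : F) : H) +
          S (u - F.orthogonalProjectionOnto u : H) := by
        conv_lhs => rw [← e1]
        exact S.map_add _ _
      rw [e4, e2, e3]
      exact add_zero _
    rw [IsBandDominated, ← hS₀, ← h3]
    exact (isBDO_iff S).1 hS
  · intro h
    refine ⟨S₀, (isBDO_iff S₀).2 h, fun g => ?_, fun u hu => ?_⟩
    · have hg : F.orthogonalProjectionOnto ((show F from g : F) : H) = (show F from g) :=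
        Submodule.orthogonalProjectionOnto_mem_subspace_eq_self _
      exact congrArg (fun x : F => ((T x : F) : H)) hg
    · have hz : F.orthogonalProjectionOnto (u : H) = 0 := by
        refine Submodule.orthogonalProjectionOnto_apply_of_mem_orthogonal ?_
        intro v hv
        exact hu ⟨v, hv⟩
      change ((T (F.orthogonalProjectionOnto (u : H)) : F) : H) = 0
      rw [hz, map_zero]
      rfl

end

lemma FS_add (n : ℕ) {a b : L2} (ha : ∃ g : ℂ → ℂ, IsPolyC n g ∧ fn a =ᵐ[γ] g)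
    (hb : ∃ g : ℂ → ℂ, IsPolyC n g ∧ fn b =ᵐ[γ] g) :
    ∃ g : ℂ → ℂ, IsPolyC n g ∧ fn (a + b) =ᵐ[γ] g := (Fock n).add_mem' ha hb

lemma FS_zero (n : ℕ) : ∃ g : ℂ → ℂ, IsPolyC n g ∧ fn 0 =ᵐ[γ] g := (Fock n).zero_mem'

lemma FS_smul (n : ℕ) (c : ℂ) {a : L2} (ha : ∃ g : ℂ → ℂ, IsPolyC n g ∧ fn a =ᵐ[γ] g) :
    ∃ g : ℂ → ℂ, IsPolyC n g ∧ fn (c • a) =ᵐ[γ] g := (Fock n).smul_mem' c ha

/-- The polyanalytic Fock space of order `n`: the classes in `L²(ℂ, μ)` of the functions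
`∑_{k<n} conj z ^ k h_k(z)` with `h_k` entire. -/
def FockSpace (n : ℕ) : Submodule ℂ L2 where
  carrier := {f | ∃ g : ℂ → ℂ, IsPolyC n g ∧ fn f =ᵐ[γ] g}
  add_mem' := FS_add n
  zero_mem' := FS_zero n
  smul_mem' := FS_smul n

instance FockSpace.complete (n : ℕ) : CompleteSpace (Sp (FockSpace n)) := instCompleteFock n

theorem FockSpace.closed (n : ℕ) : IsClosed (FockSpace n : Set L2) := fock_closed n

theorem main_Fock (n : ℕ) (hn : 1 ≤ n) (T : Sp (FockSpace n) →L[ℂ] Sp (FockSpace n))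
    (hT : IsBandDom T) : T ∈ cstarGen (toeplitzOps (FockSpace n)) := by
  have h1 : T ∈ toeplitzAlgebra (Fock n) :=
    bandDominated_mem stmtD stmtF stmtG stmtB (ker_Fock n hn) ((isBandDom_iff (F := Fock n) T).1 hT)
  have h2 : toeplitzOps (FockSpace n) = Set.range (toeplitz (Fock n)) :=
    toeplitzOps_eq (F := Fock n)
  rw [h2]
  exact h1

end

end Pool.Agent.R283.FT
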