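import Pool.Agent.R283.FT.C
import Pool.Agent.R283.FT.Stm3

/-!
# Part T: the true polyanalytic Fock space, literal definition (helper193)

Moments of polyanalytic functions against `z ^ i * conj z ^ m` in terms of Taylor coefficients, and
a uniqueness lemma by finite differences.
-/

set_option autoImplicit false

open MeasureTheory Complex Set Metric Filter Topology
open scoped ComplexConjugate ENNReal InnerProductSpace

namespace Pool.Agent.R283.FT

noncomputable section

namespace Tx

/-- Taylor coefficient at `0` -/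
def tc (h : ℂ → ℂ) (l : ℕ) : ℂ := iteratedDeriv l h 0 / (l.factorial : ℂ)

/-- the Taylor coefficient of index `p - i`, zero if `p < i` -/
def ts (h : ℂ → ℂ) (p i : ℕ) : ℂ := if i ≤ p then tc h (p - i) else 0

lemma ca_pow {h : ℂ → ℂ} (hh : Differentiable ℂ h) (p : ℕ) {r : ℝ} (hr : 0 < r) :
    Real.circleAverage (fun z => conj z ^ p * h z) 0 r = ((r ^ 2) ^ p : ℝ) * tc h p := by
  have e1 : Real.circleAverage (fun z => conj z ^ p * h z) 0 r =
      Real.circleAverage (fun z => (((r ^ 2) ^ p : ℝ) : ℂ) • ((1 / z ^ p) * h z)) 0 r := by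
    refine Real.circleAverage_congr_sphere fun z hz => ?_
    have hz' : ‖z‖ = r := by
      rw [mem_sphere_zero_iff_norm, abs_of_pos hr] at hz
      exact hz
    have hz0 : z ≠ 0 := by
      rw [← norm_pos_iff, hz']
      exact hr
    have h2 : ((r ^ 2 : ℝ) : ℂ) = conj z * z := by
      rw [← hz', mul_comm, Complex.mul_conj, Complex.normSq_eq_norm_sq]
    simp only [smul_eq_mul]
    rw [Complex.ofReal_pow, h2, mul_pow]
    field_simp
  rw [e1, Real.circleAverage_fun_smul, Real.circleAverage_eq_circleIntegral hr.ne']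
  have e2 : (∮ z in C(0, r), (z - 0)⁻¹ • ((1 / z ^ p) * h z)) =
      ∮ z in C(0, r), (1 / (z - 0) ^ (p + 1)) • h z := by
    congr 1
    funext z
    simp only [sub_zero, smul_eq_mul, pow_succ, one_div, mul_inv]
    ring
  rw [e2, hh.diffContOnCl.circleIntegral_one_div_sub_center_pow_smul hr p]
  unfold tc
  have hpi : (Real.pi : ℂ) ≠ 0 := by exact_mod_cast Real.pi_ne_zero
  have hf : ((p.factorial : ℕ) : ℂ) ≠ 0 := by exact_mod_cast p.factorial_ne_zero
  simp only [smul_eq_mul]
  field_simp

lemma ca_ip {h : ℂ → ℂ} (hh : Differentiable ℂ h) (i p : ℕ) {r : ℝ} (hr : 0 < r) :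
    Real.circleAverage (fun z => z ^ i * conj z ^ p * h z) 0 r = ((r ^ 2) ^ p : ℝ) * ts h p i := by
  have hsph : ∀ z ∈ sphere (0 : ℂ) |r|, ((r ^ 2 : ℝ) : ℂ) = conj z * z := by
    intro z hz
    have hz' : ‖z‖ = r := by
      rw [mem_sphere_zero_iff_norm, abs_of_pos hr] at hz
      exact hz
    rw [← hz', mul_comm, Complex.mul_conj, Complex.normSq_eq_norm_sq]
  unfold ts
  split_ifs with hip
  · obtain ⟨q, rfl⟩ := Nat.exists_eq_add_of_le hip
    have e1 : Real.circleAverage (fun z => z ^ i * conj z ^ (i + q) * h z) 0 r =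
        Real.circleAverage (fun z => (((r ^ 2) ^ i : ℝ) : ℂ) • (conj z ^ q * h z)) 0 r := by
      refine Real.circleAverage_congr_sphere fun z hz => ?_
      simp only [smul_eq_mul]
      rw [Complex.ofReal_pow, hsph z hz]
      ring
    rw [e1, Real.circleAverage_fun_smul, ca_pow hh q hr, Nat.add_sub_cancel_left]
    simp only [smul_eq_mul]
    push_cast
    ring
  · push Not at hip
    obtain ⟨q, rfl⟩ := Nat.exists_eq_add_of_lt hip
    have e1 : Real.circleAverage (fun z => z ^ (p + q + 1) * conj z ^ p * h z) 0 r =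
        Real.circleAverage (fun z => (((r ^ 2) ^ p : ℝ) : ℂ) • (z ^ (q + 1) * h z)) 0 r := by
      refine Real.circleAverage_congr_sphere fun z hz => ?_
      simp only [smul_eq_mul]
      rw [Complex.ofReal_pow, hsph z hz]
      ring
    have hd : Differentiable ℂ (fun z : ℂ => z ^ (q + 1) * h z) :=
      (differentiable_id.pow (q + 1)).mul hh
    rw [e1, Real.circleAverage_fun_smul, hd.diffContOnCl.circleAverage]
    simp

/-- moments of polyanalytic functions -/
theorem mom {n : ℕ} {h : ℕ → ℂ → ℂ} (hh : ∀ k, Differentiable ℂ (h k)) (i m : ℕ)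
    (hi : Integrable (fun w => w ^ i * conj w ^ m * ∑ k ∈ Finset.range n, conj w ^ k * h k w) γ) :
    ∫ w, w ^ i * conj w ^ m * ∑ k ∈ Finset.range n, conj w ^ k * h k w ∂γ =
      ∑ k ∈ Finset.range n, ((k + m).factorial : ℂ) * ts (h k) (k + m) i := by
  have hGc : Continuous (fun w : ℂ => w ^ i * conj w ^ m *
      ∑ k ∈ Finset.range n, conj w ^ k * h k w) := by
    refine Continuous.mul (by fun_prop) ?_
    refine continuous_finsetSum _ fun k _ => ?_
    exact (Complex.continuous_conj.pow k).mul (hh k).continuous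
  rw [integrable_γ_iff] at hi
  rw [integral_γ, polar_full (F := fun w => dn w • (w ^ i * conj w ^ m *
    ∑ k ∈ Finset.range n, conj w ^ k * h k w)) (dn_cont.smul hGc) hi]
  have key : ∀ r ∈ Ioi (0 : ℝ), (2 * Real.pi * r) •
      Real.circleAverage (fun w => dn w • (w ^ i * conj w ^ m *
        ∑ k ∈ Finset.range n, conj w ^ k * h k w)) 0 r =
      ∑ k ∈ Finset.range n,
        ((2 * r * (r ^ 2) ^ (k + m) * Real.exp (-r ^ 2) : ℝ) : ℂ) * ts (h k) (k + m) i := by
    intro r hr
    have hr0 : (0 : ℝ) < r := hr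
    have e1 : Real.circleAverage (fun w => dn w • (w ^ i * conj w ^ m *
        ∑ k ∈ Finset.range n, conj w ^ k * h k w)) 0 r =
        Real.circleAverage (fun w => ((Real.exp (-r ^ 2) / Real.pi : ℝ) : ℂ) •
          (∑ k ∈ Finset.range n, w ^ i * conj w ^ (k + m) * h k w)) 0 r := by
      refine Real.circleAverage_congr_sphere fun z hz => ?_
      have hz' : ‖z‖ = r := by
        rw [mem_sphere_zero_iff_norm, abs_of_pos hr0] at hz
        exact hz
      rw [dn, hz', Complex.real_smul, smul_eq_mul, Finset.mul_sum]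
      congr 1
      refine Finset.sum_congr rfl fun k _ => ?_
      ring
    have e2 : Real.circleAverage (fun w =>
        (∑ k ∈ Finset.range n, w ^ i * conj w ^ (k + m) * h k w)) 0 r =
        ∑ k ∈ Finset.range n, ((r ^ 2) ^ (k + m) : ℝ) * ts (h k) (k + m) i := by
      rw [Real.circleAverage_fun_sum]
      · exact Finset.sum_congr rfl fun k _ => ca_ip (hh k) i (k + m) hr0
      · intro k _
        refine ContinuousOn.circleIntegrable' (Continuous.continuousOn ?_)
        exact (by fun_prop : Continuous fun w : ℂ => w ^ i * conj w ^ (k + m)).mul (hh k).continuous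
    rw [e1, Real.circleAverage_fun_smul, e2]
    rw [Complex.real_smul, smul_eq_mul, Finset.mul_sum, Finset.mul_sum]
    have hpi : (Real.pi : ℂ) ≠ 0 := by exact_mod_cast Real.pi_ne_zero
    refine Finset.sum_congr rfl fun k _ => ?_
    push_cast
    field_simp
  rw [setIntegral_congr_fun measurableSet_Ioi key]
  have hint : ∀ k : ℕ, IntegrableOn (fun r : ℝ =>
      ((2 * r * (r ^ 2) ^ (k + m) * Real.exp (-r ^ 2) : ℝ) : ℂ) * ts (h k) (k + m) i) (Ioi 0) := by
    intro k
    exact ((radial_integrable (k + m)).ofReal).mul_const _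
  rw [integral_finsetSum _ fun k _ => hint k]
  refine Finset.sum_congr rfl fun k _ => ?_
  rw [integral_mul_const, integral_complex_ofReal, radial_int]
  push_cast
  ring

/-! ### combinatorics -/

lemma alt0 (n a j : ℕ) : ∑ i ∈ Finset.range (n + 1), (-1 : ℂ) ^ i * (n.choose i : ℂ) *
    ((a + i).choose j : ℂ) = if n ≤ j then (-1) ^ n * ((a.choose (j - n) : ℕ) : ℂ) else 0 := by
  have h : ((-1 : ℂ) ^ n) * ((∑ i ∈ Finset.range (n + 1), (-1 : ℝ) ^ (n + i) *
      (n.choose i : ℝ) * ((a + i).choose j : ℝ) : ℝ) : ℂ) =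
      ((-1 : ℂ) ^ n) * ((if n ≤ j then ((a.choose (j - n) : ℕ) : ℝ) else 0 : ℝ) : ℂ) := by
    rw [Pool.Agent.R283.PT.alt_choose_real n a j]
  have h1 : (-1 : ℂ) ^ n * (-1) ^ n = 1 := by
    rw [← mul_pow]
    simp
  have h2 : ((-1 : ℂ) ^ n) * ((∑ i ∈ Finset.range (n + 1), (-1 : ℝ) ^ (n + i) *
      (n.choose i : ℝ) * ((a + i).choose j : ℝ) : ℝ) : ℂ) =
      ∑ i ∈ Finset.range (n + 1), (-1 : ℂ) ^ i * (n.choose i : ℂ) * ((a + i).choose j : ℂ) := by
    push_cast
    rw [Finset.mul_sum]
    refine Finset.sum_congr rfl fun i _ => ?_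
    rw [pow_add]
    calc (-1 : ℂ) ^ n * ((-1) ^ n * (-1) ^ i * (n.choose i : ℂ) * ((a + i).choose j : ℂ))
        = ((-1 : ℂ) ^ n * (-1) ^ n) * ((-1) ^ i * (n.choose i : ℂ) * ((a + i).choose j : ℂ)) := by
          ring
      _ = _ := by rw [h1, one_mul]
  rw [h2] at h
  rw [h]
  split_ifs <;> simp

lemma uniq (N : ℕ) : ∀ (e : ℕ) (b : ℕ → ℂ),
    (∀ i < N, ∑ j ∈ Finset.range N, b j * ((j + i + e).factorial : ℂ) = 0) → ∀ j < N, b j = 0 := by
  induction N with
  | zero => intro e b _ j hj; omega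
  | succ N ih =>
    intro e b H
    have hN : b N = 0 := by
      have h1 : ∑ i ∈ Finset.range (N + 1), (-1 : ℂ) ^ i * (N.choose i : ℂ) /
          ((i + e).factorial : ℂ) *
          ∑ j ∈ Finset.range (N + 1), b j * ((j + i + e).factorial : ℂ) = 0 := by
        refine Finset.sum_eq_zero fun i hi => ?_
        rw [H i (Finset.mem_range.1 hi), mul_zero]
      have h2 : ∑ i ∈ Finset.range (N + 1), (-1 : ℂ) ^ i * (N.choose i : ℂ) /
          ((i + e).factorial : ℂ) *
          ∑ j ∈ Finset.range (N + 1), b j * ((j + i + e).factorial : ℂ) =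
          ∑ j ∈ Finset.range (N + 1), b j * (j.factorial : ℂ) *
            ∑ i ∈ Finset.range (N + 1), (-1 : ℂ) ^ i * (N.choose i : ℂ) *
              (((e + j) + i).choose j : ℂ) := by
        simp only [Finset.mul_sum]
        rw [Finset.sum_comm]
        refine Finset.sum_congr rfl fun j _ => Finset.sum_congr rfl fun i _ => ?_
        have hc : (((e + j) + i).choose j : ℂ) * (j.factorial : ℂ) * ((i + e).factorial : ℂ)
            = ((j + i + e).factorial : ℂ) := by
          have := Nat.choose_mul_factorial_mul_factorial (n := e + j + i) (k := j) (by omega)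
          rw [show e + j + i - j = i + e by omega, show (e + j + i).factorial
            = (j + i + e).factorial by congr 1; omega] at this
          exact_mod_cast this
        have hf : ((i + e).factorial : ℂ) ≠ 0 := by
          exact_mod_cast (i + e).factorial_ne_zero
        rw [← hc]
        field_simp
      rw [h2, Finset.sum_range_succ] at h1
      have h3 : ∑ j ∈ Finset.range N, b j * (j.factorial : ℂ) *
            ∑ i ∈ Finset.range (N + 1), (-1 : ℂ) ^ i * (N.choose i : ℂ) *
              (((e + j) + i).choose j : ℂ) = 0 := by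
        refine Finset.sum_eq_zero fun j hj => ?_
        rw [alt0, if_neg (by have := Finset.mem_range.1 hj; omega), mul_zero]
      rw [h3, zero_add, alt0, if_pos le_rfl, Nat.sub_self, Nat.choose_zero_right] at h1
      have hf : (N.factorial : ℂ) ≠ 0 := by exact_mod_cast N.factorial_ne_zero
      have hp : (-1 : ℂ) ^ N ≠ 0 := pow_ne_zero _ (by norm_num)
      rw [Nat.cast_one, mul_one] at h1
      rcases mul_eq_zero.1 h1 with h | h
      · rcases mul_eq_zero.1 h with h' | h'
        · exact h'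
        · exact absurd h' hf
      · exact absurd h hp
    have hrest := ih e b (fun i hi => by
      have := H i (by omega)
      rw [Finset.sum_range_succ, hN, zero_mul, add_zero] at this
      exact this)
    intro j hj
    rcases Nat.lt_succ_iff_lt_or_eq.1 hj with h | h
    · exact hrest j h
    · rw [h]
      exact hN

/-- an entire function with vanishing Taylor coefficients is zero -/
lemma zero_of_tc {h : ℂ → ℂ} (hh : Differentiable ℂ h) (h0 : ∀ l, tc h l = 0) (z : ℂ) :
    h z = 0 := by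
  have h1 := Complex.taylorSeries_eq_of_entire' 0 z hh
  rw [← h1]
  have : ∀ n : ℕ, ((n.factorial : ℕ) : ℂ)⁻¹ * iteratedDeriv n h 0 * (z - 0) ^ n = 0 := by
    intro n
    have h2 := h0 n
    unfold tc at h2
    have hf : ((n.factorial : ℕ) : ℂ) ≠ 0 := by exact_mod_cast n.factorial_ne_zero
    rw [div_eq_zero_iff] at h2
    rcases h2 with h2 | h2
    · rw [h2]; ring
    · exact absurd h2 hf
  rw [tsum_congr this, tsum_zero]

/-- the vanishing lemma -/
theorem vanish (k : ℕ) (h : ℕ → ℂ → ℂ) (hh : ∀ j, Differentiable ℂ (h j))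
    (hm : ∀ i < k, ∀ m, ∑ j ∈ Finset.range k, ((j + m).factorial : ℂ) * ts (h j) (j + m) i = 0) :
    ∀ j < k, ∀ z, h j z = 0 := by
  intro j hj z
  refine zero_of_tc (hh j) (fun l => ?_) z
  rcases Nat.le_total j l with hjl | hjl
  · obtain ⟨d, rfl⟩ := Nat.exists_eq_add_of_le hjl
    refine uniq k d (fun j' => tc (h j') (j' + d)) (fun i hi => ?_) j hj
    have h1 := hm i hi (i + d)
    rw [← h1]
    refine Finset.sum_congr rfl fun j' _ => ?_
    unfold ts
    rw [if_pos (by omega), show j' + (i + d) - i = j' + d by omega,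
      show j' + (i + d) = j' + i + d by omega]
    ring
  · obtain ⟨δ, rfl⟩ := Nat.exists_eq_add_of_le hjl
    -- `j = l + δ`
    obtain ⟨N, rfl⟩ := Nat.exists_eq_add_of_le (show δ ≤ k by omega)
    have := uniq N δ (fun j' => tc (h (δ + j')) j') (fun i hi => ?_) l (by omega)
    · rw [show l + δ = δ + l by omega]
      exact this
    · have h1 := hm (δ + i) (by omega) i
      rw [Finset.sum_range_add] at h1
      have h2 : ∑ j' ∈ Finset.range δ, ((j' + i).factorial : ℂ) * ts (h j') (j' + i) (δ + i) = 0 := by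
        refine Finset.sum_eq_zero fun j' hj' => ?_
        unfold ts
        rw [if_neg (by have := Finset.mem_range.1 hj'; omega), mul_zero]
      rw [h2, zero_add] at h1
      rw [← h1]
      refine Finset.sum_congr rfl fun j' _ => ?_
      unfold ts
      rw [if_pos (by omega), show δ + j' + i - (δ + i) = j' by omega,
        show δ + j' + i = j' + i + δ by omega]
      ring

/-! ### the Wirtinger derivative -/

lemma dz_hol {g : ℂ → ℂ} (hg : Differentiable ℂ g) (z : ℂ) : dz g z = deriv g z := by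
  have h : HasFDerivAt g ((fderiv ℂ g z).restrictScalars ℝ) z :=
    (hg z).hasFDerivAt.restrictScalars ℝ
  unfold dz
  rw [h.fderiv]
  simp only [ContinuousLinearMap.coe_restrictScalars']
  have h1 : fderiv ℂ g z Complex.I = Complex.I * fderiv ℂ g z 1 := by
    have := (fderiv ℂ g z).map_smul Complex.I 1
    rw [smul_eq_mul, mul_one, smul_eq_mul] at this
    exact this
  rw [h1, fderiv_apply_one_eq_deriv]
  linear_combination (-(deriv g z) / 2) * Complex.I_mul_I

lemma dz_mul {u v : ℂ → ℂ} {z : ℂ} (hu : DifferentiableAt ℝ u z) (hv : DifferentiableAt ℝ v z) :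
    dz (fun w => u w * v w) z = dz u z * v z + u z * dz v z := by
  unfold dz
  rw [fderiv_fun_mul hu hv]
  simp only [ContinuousLinearMap.add_apply, ContinuousLinearMap.smul_apply, smul_eq_mul]
  ring

lemma dz_sub {u v : ℂ → ℂ} {z : ℂ} (hu : DifferentiableAt ℝ u z) (hv : DifferentiableAt ℝ v z) :
    dz (fun w => u w - v w) z = dz u z - dz v z := by
  unfold dz
  rw [fderiv_fun_sub hu hv]
  simp only [ContinuousLinearMap.sub_apply]
  ring

lemma diff_conj : Differentiable ℝ (fun w : ℂ => conj w) := Complex.conjCLE.differentiable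

lemma dz_conj (z : ℂ) : dz (fun w => conj w) z = 0 := by
  have h : HasFDerivAt (fun w : ℂ => conj w) (Complex.conjCLE : ℂ →L[ℝ] ℂ) z :=
    Complex.conjCLE.hasFDerivAt
  unfold dz
  rw [h.fderiv]
  simp

lemma expo_eq (w : ℂ) : ((Real.exp (-‖w‖ ^ 2) : ℝ) : ℂ) = Complex.exp (-(w * conj w)) := by
  rw [Complex.mul_conj, Complex.normSq_eq_norm_sq]
  push_cast
  ring_nf

lemma diff_expo : Differentiable ℝ (fun w : ℂ => ((Real.exp (-‖w‖ ^ 2) : ℝ) : ℂ)) := by
  simp_rw [expo_eq]
  have := diff_conj
  fun_prop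

lemma dz_expo (z : ℂ) : dz (fun w : ℂ => ((Real.exp (-‖w‖ ^ 2) : ℝ) : ℂ)) z =
    -conj z * ((Real.exp (-‖z‖ ^ 2) : ℝ) : ℂ) := by
  simp_rw [expo_eq]
  have hd : DifferentiableAt ℝ (fun w : ℂ => w * conj w) z :=
    (differentiable_id.mul diff_conj) z
  have h1 : HasFDerivAt (fun w : ℂ => Complex.exp (-(w * conj w)))
      (Complex.exp (-(z * conj z)) • -(fderiv ℝ (fun w : ℂ => w * conj w) z)) z :=
    hd.hasFDerivAt.neg.cexp
  have h2 : dz (fun w : ℂ => w * conj w) z = conj z := by
    rw [dz_mul (u := fun w : ℂ => w) (v := fun w : ℂ => conj w) differentiableAt_id (diff_conj z),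
      dz_conj, dz_hol (g := fun w : ℂ => w) differentiable_id]
    simp
  unfold dz at h2 ⊢
  rw [h1.fderiv]
  simp only [ContinuousLinearMap.smul_apply, ContinuousLinearMap.neg_apply, smul_eq_mul]
  linear_combination (-Complex.exp (-(z * conj z))) * h2

/-- `e^{|z|²} ∂^k (e^{-|z|²} g)` -/
def Ek : ℕ → (ℂ → ℂ) → ℂ → ℂ
  | 0, g => g
  | k + 1, g => fun z => Ek k (deriv g) z - conj z * Ek k g z

lemma diff_deriv {g : ℂ → ℂ} (hg : Differentiable ℂ g) : Differentiable ℂ (deriv g) := by
  have := hg.contDiff (n := 2)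
  exact this.differentiable_deriv_two

lemma Ek_diff (k : ℕ) : ∀ g : ℂ → ℂ, Differentiable ℂ g → Differentiable ℝ (Ek k g) := by
  induction k with
  | zero => intro g hg; exact hg.restrictScalars ℝ
  | succ k ih =>
    intro g hg
    exact (ih _ (diff_deriv hg)).sub (diff_conj.mul (ih g hg))

lemma dz_Ek (k : ℕ) : ∀ g : ℂ → ℂ, Differentiable ℂ g → ∀ z, dz (Ek k g) z = Ek k (deriv g) z := by
  induction k with
  | zero => intro g hg z; exact dz_hol hg z
  | succ k ih =>
    intro g hg z
    have h1 := Ek_diff k _ (diff_deriv hg)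
    have h2 := Ek_diff k g hg
    show dz (fun z => Ek k (deriv g) z - conj z * Ek k g z) z = _
    rw [dz_sub (u := Ek k (deriv g)) (v := fun w => conj w * Ek k g w) (h1 z)
      ((diff_conj.mul h2) z), dz_mul (diff_conj z) (h2 z), dz_conj,
      ih _ (diff_deriv hg), ih g hg]
    show _ = Ek k (deriv (deriv g)) z - conj z * Ek k (deriv g) z
    ring

lemma iter_dz (k : ℕ) {g : ℂ → ℂ} (hg : Differentiable ℂ g) :
    dz^[k] (fun w => ((Real.exp (-‖w‖ ^ 2) : ℝ) : ℂ) * g w) =
      fun z => ((Real.exp (-‖z‖ ^ 2) : ℝ) : ℂ) * Ek k g z := by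
  induction k with
  | zero => rfl
  | succ k ih =>
    rw [Function.iterate_succ_apply', ih]
    funext z
    rw [dz_mul (diff_expo z) (Ek_diff k g hg z), dz_expo, dz_Ek k g hg]
    show _ = _ * (Ek k (deriv g) z - conj z * Ek k g z)
    ring

lemma Ek_sum (k : ℕ) : ∀ g : ℂ → ℂ, ∀ z, Ek k g z = ∑ j ∈ Finset.range (k + 1),
    conj z ^ j * ((-1) ^ j * (k.choose j : ℂ) * iteratedDeriv (k - j) g z) := by
  induction k with
  | zero => intro g z; simp [Ek]
  | succ k ih =>
    intro g z
    show Ek k (deriv g) z - conj z * Ek k g z = _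
    rw [ih (deriv g) z, ih g z]
    set A : ℕ → ℂ := fun j => conj z ^ j * ((-1) ^ j * iteratedDeriv (k + 1 - j) g z) with hA
    have e1 : ∑ j ∈ Finset.range (k + 1),
        conj z ^ j * ((-1) ^ j * (k.choose j : ℂ) * iteratedDeriv (k - j) (deriv g) z) =
        ∑ j ∈ Finset.range (k + 1), (k.choose j : ℂ) * A j := by
      refine Finset.sum_congr rfl fun j hj => ?_
      have hj' : j ≤ k := Nat.lt_succ_iff.1 (Finset.mem_range.1 hj)
      rw [hA, ← iteratedDeriv_succ', show k - j + 1 = k + 1 - j by omega]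
      ring
    have e2 : conj z * ∑ j ∈ Finset.range (k + 1),
        conj z ^ j * ((-1) ^ j * (k.choose j : ℂ) * iteratedDeriv (k - j) g z) =
        -∑ j ∈ Finset.range (k + 1), (k.choose j : ℂ) * A (j + 1) := by
      rw [Finset.mul_sum, ← Finset.sum_neg_distrib]
      refine Finset.sum_congr rfl fun j _ => ?_
      simp only [hA]
      rw [show k + 1 - (j + 1) = k - j by omega]
      ring
    have e3 : ∑ j ∈ Finset.range (k + 1 + 1), conj z ^ j *
        ((-1) ^ j * ((k + 1).choose j : ℂ) * iteratedDeriv (k + 1 - j) g z) =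
        ∑ j ∈ Finset.range (k + 1 + 1), ((k + 1).choose j : ℂ) * A j := by
      refine Finset.sum_congr rfl fun j _ => ?_
      simp only [hA]
      ring
    rw [e1, e2, e3, sub_neg_eq_add, Finset.sum_range_succ' _ (k + 1)]
    have e4 : ∑ j ∈ Finset.range (k + 1), ((k + 1).choose (j + 1) : ℂ) * A (j + 1) =
        ∑ j ∈ Finset.range (k + 1), (k.choose j : ℂ) * A (j + 1) +
        ∑ j ∈ Finset.range (k + 1), (k.choose (j + 1) : ℂ) * A (j + 1) := by
      rw [← Finset.sum_add_distrib]
      refine Finset.sum_congr rfl fun j _ => ?_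
      rw [Nat.choose_succ_succ]
      push_cast
      ring
    have e5 : ∑ j ∈ Finset.range (k + 1), (k.choose (j + 1) : ℂ) * A (j + 1) + A 0 =
        ∑ j ∈ Finset.range (k + 1), (k.choose j : ℂ) * A j := by
      have h1 : ∑ j ∈ Finset.range (k + 1 + 1), (k.choose j : ℂ) * A j =
          ∑ j ∈ Finset.range (k + 1), (k.choose j : ℂ) * A j := by
        rw [Finset.sum_range_succ, Nat.choose_succ_self]
        simp
      rw [← h1, Finset.sum_range_succ' _ (k + 1)]
      simp
    rw [e4, ← e5, Nat.choose_zero_right]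
    push_cast
    ring

/-! ### the coefficient functions of the form -/

/-- coefficient functions -/
def fm (k : ℕ) (g : ℂ → ℂ) (j : ℕ) (z : ℂ) : ℂ :=
  (-1) ^ j * (k.choose j : ℂ) / (k.factorial : ℂ) * iteratedDeriv (k - j) g z

lemma diff_iter {g : ℂ → ℂ} (hg : Differentiable ℂ g) (n : ℕ) :
    Differentiable ℂ (iteratedDeriv n g) :=
  (hg.contDiff (n := (n + 1 : ℕ))).differentiable_iteratedDeriv n (by
    exact_mod_cast Nat.lt_succ_self n)

lemma fm_diff (k : ℕ) {g : ℂ → ℂ} (hg : Differentiable ℂ g) (j : ℕ) :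
    Differentiable ℂ (fm k g j) := by
  unfold fm
  exact (differentiable_const _).mul (diff_iter hg _)

lemma tc_const_mul (c : ℂ) {h : ℂ → ℂ} (l : ℕ) : tc (fun z => c * h z) l = c * tc h l := by
  unfold tc
  rw [iteratedDeriv_const_mul_field]
  ring

lemma tc_iter (g : ℂ → ℂ) (a l : ℕ) :
    tc (iteratedDeriv a g) l = iteratedDeriv (l + a) g 0 / (l.factorial : ℂ) := by
  unfold tc
  rw [iteratedDeriv_eq_iterate, iteratedDeriv_eq_iterate, iteratedDeriv_eq_iterate,
    ← Function.iterate_add_apply]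

lemma tc_sub {g h : ℂ → ℂ} (hg : Differentiable ℂ g) (hh : Differentiable ℂ h) (l : ℕ) :
    tc (fun z => g z - h z) l = tc g l - tc h l := by
  unfold tc
  rw [iteratedDeriv_fun_sub hg.contDiff.contDiffAt hh.contDiff.contDiffAt]
  ring

lemma ts_sub {g h : ℂ → ℂ} (hg : Differentiable ℂ g) (hh : Differentiable ℂ h) (p i : ℕ) :
    ts (fun z => g z - h z) p i = ts g p i - ts h p i := by
  unfold ts
  split_ifs
  · exact tc_sub hg hh _
  · simp

lemma fm_orth (k : ℕ) (g : ℂ → ℂ) (i m : ℕ) (hi : i < k) :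
    ∑ j ∈ Finset.range (k + 1), ((j + m).factorial : ℂ) * ts (fm k g j) (j + m) i = 0 := by
  have h1 : ∀ j ∈ Finset.range (k + 1), ((j + m).factorial : ℂ) * ts (fm k g j) (j + m) i =
      ((i.factorial : ℂ) / (k.factorial : ℂ) * iteratedDeriv (k + m - i) g 0) *
        ((-1 : ℂ) ^ j * (k.choose j : ℂ) * ((m + j).choose i : ℂ)) := by
    intro j hj
    have hj' : j ≤ k := Nat.lt_succ_iff.1 (Finset.mem_range.1 hj)
    unfold ts
    split_ifs with h
    · have e : tc (fm k g j) (j + m - i) = (-1) ^ j * (k.choose j : ℂ) / (k.factorial : ℂ) *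
          tc (iteratedDeriv (k - j) g) (j + m - i) := tc_const_mul _ _
      rw [e, tc_iter, show j + m - i + (k - j) = k + m - i by omega]
      have hc : ((m + j).choose i : ℂ) * (i.factorial : ℂ) * ((j + m - i).factorial : ℂ)
          = ((j + m).factorial : ℂ) := by
        have := Nat.choose_mul_factorial_mul_factorial (n := m + j) (k := i) (by omega)
        rw [show m + j - i = j + m - i by omega, show m + j = j + m by omega] at this
        rw [show m + j = j + m by omega]
        exact_mod_cast this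
      rw [← hc]
      have hf : ((j + m - i).factorial : ℂ) ≠ 0 := by
        exact_mod_cast (j + m - i).factorial_ne_zero
      field_simp
    · rw [Nat.choose_eq_zero_of_lt (show m + j < i by omega)]
      simp
  rw [Finset.sum_congr rfl h1, ← Finset.mul_sum, alt0, if_neg (by omega), mul_zero]

/-! ### the monomials -/

lemma mono_mild (i m : ℕ) : Mild (fun w => conj w ^ i * w ^ m) :=
  (Mild.conj'.pow i).cmul (Mild.id.pow m)

/-- monomials as elements of `H` -/
def pol (i m : ℕ) : H := (mono_mild i m).memLp.toLp _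

lemma pol_coe (i m : ℕ) : (pol i m : ℂ → ℂ) =ᵐ[γ] fun w => conj w ^ i * w ^ m :=
  MemLp.coeFn_toLp _

lemma pol_mem {i k : ℕ} (hi : i < k) (m : ℕ) : pol i m ∈ Fock k :=
  ⟨fun w => conj w ^ i * w ^ m, IsPolyC.monom hi (by fun_prop), pol_coe i m⟩

lemma inner_pol {n : ℕ} {h : ℕ → ℂ → ℂ} (hh : ∀ k, Differentiable ℂ (h k)) {f : H}
    (hf : (f : ℂ → ℂ) =ᵐ[γ] fun z => ∑ k ∈ Finset.range n, conj z ^ k * h k z) (i m : ℕ) :
    ⟪pol i m, f⟫_ℂ = ∑ k ∈ Finset.range n, ((k + m).factorial : ℂ) * ts (h k) (k + m) i := by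
  have hmem : MemLp (fun z => ∑ k ∈ Finset.range n, conj z ^ k * h k z) 2 γ :=
    (memLp_congr_ae hf).1 (Lp.memLp f)
  have hmild : Mild (fun w => w ^ i * conj w ^ m) := (Mild.id.pow i).cmul (Mild.conj'.pow m)
  rw [← mom hh i m (integrable_mild_mul hmild hmem), inner_H]
  refine integral_congr_ae ?_
  filter_upwards [hf, pol_coe i m] with w h1 h2
  rw [h1, h2]
  simp

end Tx

open Tx in
/-- Part T. -/
theorem stmtT : StmtT := by
  intro k f
  have hkf : (k.factorial : ℂ) ≠ 0 := by exact_mod_cast k.factorial_ne_zero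
  -- the form in terms of the coefficient functions
  have hform : ∀ g : ℂ → ℂ, Differentiable ℂ g → ∀ z : ℂ,
      1 / (k.factorial : ℂ) * (Real.exp (‖z‖ ^ 2) : ℝ) *
        dz^[k] (fun w => (Real.exp (-‖w‖ ^ 2) : ℝ) * g w) z =
      ∑ j ∈ Finset.range (k + 1), conj z ^ j * fm k g j z := by
    intro g hg z
    rw [iter_dz k hg]
    have he : ((Real.exp (‖z‖ ^ 2) : ℝ) : ℂ) * ((Real.exp (-‖z‖ ^ 2) : ℝ) : ℂ) = 1 := by
      rw [← Complex.ofReal_mul, ← Real.exp_add]
      simp
    rw [show 1 / (k.factorial : ℂ) * ((Real.exp (‖z‖ ^ 2) : ℝ) : ℂ) *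
        (((Real.exp (-‖z‖ ^ 2) : ℝ) : ℂ) * Ek k g z) =
        (((Real.exp (‖z‖ ^ 2) : ℝ) : ℂ) * ((Real.exp (-‖z‖ ^ 2) : ℝ) : ℂ)) *
        (1 / (k.factorial : ℂ) * Ek k g z) by ring, he, one_mul, Ek_sum, Finset.mul_sum]
    refine Finset.sum_congr rfl fun j _ => ?_
    unfold fm
    ring
  constructor
  · -- from the orthogonal difference to the form
    rintro ⟨⟨G, ⟨h, hh, hG⟩, hfG⟩, horth⟩
    have hfG' : (f : ℂ → ℂ) =ᵐ[γ] fun z => ∑ j ∈ Finset.range (k + 1), conj z ^ j * h j z := by
      filter_upwards [hfG] with z hz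
      rw [hz, hG]
    have hm : ∀ i < k, ∀ m, ∑ j ∈ Finset.range (k + 1),
        ((j + m).factorial : ℂ) * ts (h j) (j + m) i = 0 := by
      intro i hi m
      rw [← inner_pol hh hfG' i m]
      exact (Submodule.mem_orthogonal _ _).1 horth _ (pol_mem hi m)
    set g : ℂ → ℂ := fun z => (-1) ^ k * (k.factorial : ℂ) * h k z with hg
    have hgd : Differentiable ℂ g := (differentiable_const _).mul (hh k)
    have htop : ∀ z, fm k g k z = h k z := by
      intro z
      have h1 : (-1 : ℂ) ^ k * (-1) ^ k = 1 := by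
        rw [← mul_pow]
        simp
      unfold fm
      rw [Nat.sub_self, iteratedDeriv_zero, Nat.choose_self, hg]
      simp only
      field_simp
      rw [← pow_mul, mul_comm k 2, pow_mul]
      simp
    have hv : ∀ j < k, ∀ z, (fun j z => h j z - fm k g j z) j z = 0 := by
      refine vanish k (fun j z => h j z - fm k g j z)
        (fun j => (hh j).sub (fm_diff k hgd j)) ?_
      intro i hi m
      have h1 := hm i hi m
      have h2 := fm_orth k g i m hi
      rw [Finset.sum_range_succ] at h1 h2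
      have h3 : ts (fm k g k) (k + m) i = ts (h k) (k + m) i := by
        rw [show fm k g k = h k from funext htop]
      rw [h3] at h2
      have h4 : ∑ j ∈ Finset.range k, ((j + m).factorial : ℂ) *
          ts (fun z => h j z - fm k g j z) (j + m) i =
          ∑ j ∈ Finset.range k, ((j + m).factorial : ℂ) * ts (h j) (j + m) i -
          ∑ j ∈ Finset.range k, ((j + m).factorial : ℂ) * ts (fm k g j) (j + m) i := by
        rw [← Finset.sum_sub_distrib]
        refine Finset.sum_congr rfl fun j _ => ?_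
        rw [ts_sub (hh j) (fm_diff k hgd j)]
        ring
      rw [h4]
      linear_combination h1 - h2
    refine ⟨g, hgd, ?_⟩
    filter_upwards [hfG'] with z hz
    rw [hz, hform g hgd z]
    refine Finset.sum_congr rfl fun j hj => ?_
    have hj' : j ≤ k := Nat.lt_succ_iff.1 (Finset.mem_range.1 hj)
    rcases Nat.lt_or_eq_of_le hj' with h1 | h1
    · have := hv j h1 z
      simp only [sub_eq_zero] at this
      rw [this]
    · rw [h1, htop]
  · -- from the form to the orthogonal difference
    rintro ⟨g, hgd, hfg⟩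
    have hfG : (f : ℂ → ℂ) =ᵐ[γ] fun z => ∑ j ∈ Finset.range (k + 1), conj z ^ j * fm k g j z := by
      filter_upwards [hfg] with z hz
      rw [hz, hform g hgd z]
    have hmem : f ∈ Fock (k + 1) := ⟨_, ⟨fm k g, fm_diff k hgd, fun z => rfl⟩, hfG⟩
    refine ⟨hmem, ?_⟩
    have hclosed : IsClosed (Fock k : Set H) := (stmtC k).1
    have hcomp : CompleteSpace (Fock k) := hclosed.completeSpace_coe
    have hproj : ((Fock k).orthogonalProjectionOnto f : H) = 0 := by
      obtain ⟨G, ⟨h, hh, hG⟩, hPG⟩ := ((Fock k).orthogonalProjectionOnto f).2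
      have hPG' : (((Fock k).orthogonalProjectionOnto f : H) : ℂ → ℂ) =ᵐ[γ]
          fun z => ∑ j ∈ Finset.range k, conj z ^ j * h j z := by
        filter_upwards [hPG] with z hz
        rw [hz, hG]
      have hv := vanish k h hh (fun i hi m => by
        rw [← inner_pol hh hPG' i m]
        have h1 : ⟪(⟨pol i m, pol_mem hi m⟩ : Fock k), (Fock k).orthogonalProjectionOnto f⟫_ℂ =
            ⟪pol i m, f⟫_ℂ :=
          Submodule.inner_orthogonalProjectionOnto_eq_of_mem_left (⟨pol i m, pol_mem hi m⟩ : Fock k) f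
        rw [Submodule.coe_inner] at h1
        rw [h1, inner_pol (fm_diff k hgd) hfG i m]
        exact fm_orth k g i m hi)
      rw [Lp.eq_zero_iff_ae_eq_zero]
      filter_upwards [hPG'] with z hz
      rw [hz, Pi.zero_apply]
      refine Finset.sum_eq_zero fun j hj => ?_
      rw [hv j (Finset.mem_range.1 hj) z, mul_zero]
    have h1 := Submodule.sub_starProjection_mem_orthogonal (K := Fock k) f
    have h2 : (Fock k).starProjection f = 0 := hproj
    rw [h2, sub_zero] at h1
    exact h1

end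

end Pool.Agent.R283.FT
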