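import Pool.Agent.R283.FT.Short
import Pool.Agent.R283.FT.T
import Pool.Agent.R283.FT.R

/-!
# True polyanalytic Fock spaces and the final statement
-/

set_option autoImplicit false

open MeasureTheory Complex Set Metric Filter Topology
open scoped ComplexConjugate ENNReal InnerProductSpace

namespace Pool.Agent.R283.FT

noncomputable section

/-- `f` is (a.e.) of the form `(1/(k-1)!) e^{|z|²} (∂/∂z)^{k-1} (e^{-|z|²} g(z))`, `g` entire. -/
def TrueForm (k : ℕ) (f : L2) : Prop :=
  ∃ g : ℂ → ℂ, Differentiable ℂ g ∧ fn f =ᵐ[γ] fun z =>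
    1 / ((k - 1).factorial : ℂ) * (Real.exp (‖z‖ ^ 2) : ℝ) *
      dz^[k - 1] (fun w => (Real.exp (-‖w‖ ^ 2) : ℝ) * g w) z

lemma trueForm_iff (k : ℕ) (f : L2) : TrueForm k f ↔ (show H from f) ∈ TrueFock (k - 1) :=
  (stmtT (k - 1) f).symm

lemma TF_add (k : ℕ) {a b : L2} (ha : TrueForm k a) (hb : TrueForm k b) : TrueForm k (a + b) :=
  (trueForm_iff k _).2 ((TrueFock (k - 1)).add_mem ((trueForm_iff k _).1 ha)
    ((trueForm_iff k _).1 hb))

lemma TF_zero (k : ℕ) : TrueForm k 0 := (trueForm_iff k _).2 (TrueFock (k - 1)).zero_mem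

lemma TF_smul (k : ℕ) (c : ℂ) {a : L2} (ha : TrueForm k a) : TrueForm k (c • a) :=
  (trueForm_iff k _).2 ((TrueFock (k - 1)).smul_mem c ((trueForm_iff k _).1 ha))

/-- The true polyanalytic Fock space of order `k` (`k ≥ 1`). -/
def TrueFockSpace (k : ℕ) : Submodule ℂ L2 where
  carrier := {f | TrueForm k f}
  add_mem' := TF_add k
  zero_mem' := TF_zero k
  smul_mem' := TF_smul k

lemma TrueFockSpace_eq (k : ℕ) : TrueFockSpace k = (TrueFock (k - 1) : Submodule ℂ L2) := by
  ext f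
  exact trueForm_iff k f

theorem TrueFockSpace.closed (k : ℕ) : IsClosed (TrueFockSpace k : Set L2) := by
  rw [TrueFockSpace_eq]
  exact isClosed_TrueFock (k - 1)

instance TrueFockSpace.complete (k : ℕ) : CompleteSpace (Sp (TrueFockSpace k)) :=
  IsClosed.completeSpace_coe (hs := TrueFockSpace.closed k)

/-- coercion of types -/
def toL2 (G : Submodule ℂ H) : Submodule ℂ L2 := G

theorem iff_core (G : Submodule ℂ H) [CompleteSpace G] {K₀ : ℂ → ℂ} (hK : Ker G K₀) :
    ∀ [CompleteSpace (Sp (toL2 G))] (T : Sp (toL2 G) →L[ℂ] Sp (toL2 G)),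
      (T ∈ cstarGen (toeplitzOps (toL2 G)) ↔ IsBandDom T) := by
  intro iF T
  have h2 : toeplitzOps (toL2 G) = Set.range (toeplitz G) := toeplitzOps_eq (F := G)
  have h3 := isBandDom_iff (F := G) T
  rw [h2]
  constructor
  · intro h
    exact h3.2 (stmtR _ K₀ hK T h)
  · intro h
    exact bandDominated_mem stmtD stmtF stmtG stmtB hK (h3.1 h)

theorem iff_Fock (n : ℕ) (hn : 1 ≤ n) (T : Sp (FockSpace n) →L[ℂ] Sp (FockSpace n)) :
    T ∈ cstarGen (toeplitzOps (FockSpace n)) ↔ IsBandDom T :=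
  @iff_core (Fock n) (instCompleteFock n) _ (ker_Fock n hn) (FockSpace.complete n) T

theorem TrueFockSpace_eq' (k : ℕ) : toL2 (TrueFock (k - 1)) = TrueFockSpace k :=
  (TrueFockSpace_eq k).symm

theorem iff_TrueFock (k : ℕ) (T : Sp (TrueFockSpace k) →L[ℂ] Sp (TrueFockSpace k)) :
    T ∈ cstarGen (toeplitzOps (TrueFockSpace k)) ↔ IsBandDom T := by
  have h := @iff_core (TrueFock (k - 1)) (instCompleteTrueFock (k - 1)) _ (ker_TrueFock (k - 1))
  rw [TrueFockSpace_eq' k] at h
  exact h T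

/-- `F` is closed in `L²(ℂ, μ)`. -/
def Closed (F : Submodule ℂ L2) : Prop := IsClosed (F : Set L2)

/-- `T` lies in the C*-algebra generated by the set `S`. -/
def InCstar {E : Type*} [NormedAddCommGroup E] [InnerProductSpace ℂ E] [CompleteSpace E]
    (S : Set (E →L[ℂ] E)) (T : E →L[ℂ] E) : Prop := T ∈ cstarGen S

/-- The C*-algebra generated by all Toeplitz operators with bounded symbols on `F` consists
exactly of the band-dominated operators on `F`. -/
def Generates (F : Submodule ℂ L2) [CompleteSpace (Sp F)] : Prop :=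
  ∀ T : Sp F →L[ℂ] Sp F, InCstar (toeplitzOps F) T ↔ IsBandDom T

end

end Pool.Agent.R283.FT
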