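import Pool.Agent.R283.FT.Alg

/-!
# Statement of the resolution formula
-/

set_option autoImplicit false

open MeasureTheory Complex Set Metric Filter Topology
open scoped ComplexConjugate ENNReal InnerProductSpace

namespace Pool.Agent.R283.FT

noncomputable section

/-- the phase -/
def om (z u : ℂ) : ℂ := Complex.exp (-(Complex.I * ((z * conj u).im : ℝ)))

/-- symbols of the layers of a band operator -/
def Ph {F : Submodule ℂ H} (k : ℂ → F) (B : H →L[ℂ] H) (u z : ℂ) : ℂ :=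
  conj (om z u) * ⟪(k (z + u) : H), B (k z : H)⟫_ℂ

/-- Part F: the resolution formula. -/
def StmtF : Prop := ∀ (F : Submodule ℂ H) [CompleteSpace F] (K₀ : ℂ → ℂ), Ker F K₀ →
  ∀ k : ℂ → F, (∀ z, ((k z : H) : ℂ → ℂ) =ᵐ[γ] kf K₀ z) → Continuous k →
  ∀ (B : H →L[ℂ] H) (C : ℝ),
    (∀ z z' : ℂ, ‖⟪(k z' : H), B (k z : H)⟫_ℂ‖ ≤ C * (1 + ‖z' - z‖) ^ (-(3 : ℝ))) →
    ∀ g f : F, ∫ u : ℂ, bf (Ph k B u) (kf K₀ u) (g : H) (f : H) =
      Real.pi * ⟪(g : H), B (f : H)⟫_ℂ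

/-- Part G: continuity of the kernel functions. -/
def StmtG : Prop := ∀ K₀ : ℂ → ℂ, Mild K₀ →
  (∀ u, Mild (kf K₀ u)) ∧ (∀ u, nrm (kf K₀ u) = nrm K₀) ∧
  (∀ u₀, Tendsto (fun u => nrm (fun w => kf K₀ u w - kf K₀ u₀ w)) (𝓝 u₀) (𝓝 0)) ∧
  (∀ k : ℂ → H, (∀ z, (k z : ℂ → ℂ) =ᵐ[γ] kf K₀ z) → Continuous k ∧
    ∀ z u u' : ℂ, ‖om z u • k (z + u) - om z u' • k (z + u')‖ = ‖k u - k u'‖)

end

end Pool.Agent.R283.FT
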